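import Mathlib

set_option autoImplicit false

/-!
# CCS: primes dividing class sizes, MP_771bc4_al (statements)

Paper proof: `/team-store/CCS_MP_771bc4_al_helper22.md`.  THEOREM: if `G` is finite, `F₀ ≤ M₀` normal, `F₀` nilpotent,
`[M₀, M₀] ≤ F₀`, and `[P, G] ≤ M₀` for every Sylow `p`-subgroup `P` with `N_G(P) ≤ C_G(P)` (e.g. if `G / M₀` is nilpotent; e.g. if
`G` has derived length at most 3), then `|ρ(G)| ≤ 3 σ(G)`.

Convention: module XXX is the file `Pool/Agent/CCS/XXX.lean` with `theorem thm_XXX (hypotheses as listed) : St_XXX`,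
namespace `Pool.Agent.CCS`, imports `Mathlib` and `Pool.Agent.CCS.Stmts` (and `Pool.Agent.CCS.Bas` if the offer says so).
Auxiliary lemmas private or in the sub-namespace `XXX`.  `⁅a, b⁆ = a * b * a⁻¹ * b⁻¹` (`commutatorElement_def`); modules should
`open scoped commutatorElement` after the namespace line.
-/

namespace Pool.Agent.CCS

open scoped commutatorElement

/-! ## Group theoretic definitions -/

/-- `y` is an element of `A` of `p`-power order -/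
def PEl {G : Type} [Group G] (A : Subgroup G) (p : ℕ) (y : G) : Prop :=
  y ∈ A ∧ ∃ k : ℕ, y ^ (p ^ k) = 1

/-- `h` normalises `T` (for finite `T`) -/
def Nrm {G : Type} [Group G] (T : Subgroup G) (h : G) : Prop := ∀ y ∈ T, h * y * h⁻¹ ∈ T

/-- `h` centralises `T` -/
def Cen {G : Type} [Group G] (T : Subgroup G) (h : G) : Prop := ∀ y ∈ T, h * y = y * h

/-- some Sylow `p`-subgroup of `G` centralises `x`; for prime `p` this says that `p` does not divide the size of the class of `x` -/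
def Avd (G : Type) [Group G] (p : ℕ) (x : G) : Prop := ∃ P : Sylow p G, Cen (P : Subgroup G) x

/-- `p` is a Burnside prime for `G`: `N_G(P) ≤ C_G(P)` for every Sylow `p`-subgroup `P` -/
def Bur (G : Type) [Group G] (p : ℕ) : Prop :=
  ∀ P : Sylow p G, ∀ g : G, Nrm (P : Subgroup G) g → Cen (P : Subgroup G) g

/-- the primes dividing a class size -/
def Rho (G : Type) [Group G] : Set ℕ :=
  {p : ℕ | ∃ x : G, p ∈ (Nat.card {h : G // IsConj x h}).primeFactors}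

/-- `G = K A`, `K` a normal Hall subgroup whose order is prime to all Burnside primes, `A` an abelian complement -/
structure KA (G : Type) [Group G] (K A : Subgroup G) : Prop where
  norm : K.Normal
  inf : K ⊓ A = ⊥
  sup : K ⊔ A = ⊤
  comm : ∀ a ∈ A, ∀ b ∈ A, a * b = b * a
  kb : ∀ p : ℕ, p.Prime → Bur G p → ¬ p ∣ Nat.card K
  ab : ∀ p : ℕ, p.Prime → ¬ Bur G p → ¬ p ∣ Nat.card A
  syl : ∀ p : ℕ, p.Prime → Bur G p → ∃ P : Sylow p G, ∀ y : G, y ∈ (P : Subgroup G) ↔ PEl A p y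

/-- the subgroup `N = K ∩ ⟨A^G⟩` -/
def NN {G : Type} [Group G] (K A : Subgroup G) : Subgroup G := K ⊓ Subgroup.normalClosure (A : Set G)

/-- conjugation of the elements of `P` (simultaneously) is controlled by `M` -/
def Cj {Γ : Type} [Group Γ] (M : Subgroup Γ) (P : Set Γ) : Prop :=
  ∀ g : Γ, ∃ m ∈ M, ∀ y ∈ P, g⁻¹ * y * g = m⁻¹ * y * m

/-- every `z ∈ H` commuting with `P` has a nontrivial fixed point on `M / C_M(P)` (`M` abelian) -/
def Star {Γ : Type} [Group Γ] (M H : Subgroup Γ) (P : Set Γ) : Prop :=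
  ∀ z ∈ H, (∀ y ∈ P, z * y = y * z) →
    ∃ m ∈ M, (∃ y ∈ P, m * y ≠ y * m) ∧ ∀ y ∈ P, ⁅z, m⁆ * y = y * ⁅z, m⁆

/-- `U` is an invariant subgroup of the `Γ`-module `V` -/
def Inv (Γ : Type) {V : Type} [Group Γ] [AddCommGroup V] [DistribMulAction Γ V] (U : AddSubgroup V) : Prop :=
  ∀ g : Γ, ∀ u ∈ U, g • u ∈ U

/-- the `Γ`-module `V` is simple -/
def Simp (Γ V : Type) [Group Γ] [AddCommGroup V] [DistribMulAction Γ V] : Prop :=
  (∃ v : V, v ≠ 0) ∧ ∀ U : AddSubgroup V, Inv Γ U → U = ⊥ ∨ U = ⊤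

/-! ## L0, L1: class sizes -/

/-- [Avd] (L0)  `p ∣ |x^G|` iff no Sylow `p`-subgroup of `G` centralises `x`.

PROOF.  The conjugates of `x` are the orbit of `x` under `ConjAct G`; its size is the index of the centraliser `C` of `x`
(`Nat.card` of the class `= C.index`; e.g. `MulAction.orbitEquivQuotientStabilizer`, `ConjAct.stabilizer_eq_centralizer`).  If `P ≤ C`
then `C.index ∣ P.index` is prime to `p` (`Sylow.not_dvd_index'`).  Conversely, if `¬ p ∣ C.index`, let `Q` be a Sylow `p`-subgroup of `C`,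
then its image in `G` has index `C.index * (Q.index in C)`, prime to `p`, so is a Sylow `p`-subgroup of `G` (`IsPGroup.toSylow`). -/
def St_Avd : Prop :=
  ∀ (G : Type) [Group G] [Finite G] (p : ℕ), p.Prime → ∀ x : G,
    (p ∣ Nat.card {h : G // IsConj x h} ↔ ¬ Avd G p x)

/-- [Rho0] hypotheses (h0 : St_Avd).  For `p ∈ ρ(G)`: `p` is prime, divides `|G|`, and no Sylow `p`-subgroup is central.

PROOF.  `p ∈ primeFactors` gives prime and `p ∣` class size, which divides `|G|`.  If a Sylow subgroup `P` is central then `Avd G p x` for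
all `x`. -/
def St_Rho0 : Prop :=
  ∀ (G : Type) [Group G] [Finite G] (p : ℕ), p ∈ Rho G →
    p.Prime ∧ p ∣ Nat.card G ∧ ∀ P : Sylow p G, ∃ g : G, ¬ Cen (P : Subgroup G) g

/-- [Avg] (L1) hypotheses (h0 : St_Avd).  The averaging argument.

PROOF.  `ρ = Rho G` is finite (all `p ∣ |G|`; `|G| ≠ 0`).  `ρ₁ = {p ∈ ρ | ¬ Avd G p x}`, `ρ₂ = {p ∈ ρ | Avd G p x}`: for `p ∈ ρ₂` the second
alternative holds.  By `St_Avd`, `ρ₁ ⊆ primeFactors |x^G|`, so `|ρ₁| ≤ ω(x)` with `ω(g) := (Nat.card {h // IsConj g h}).primeFactors.card`.  Double counting over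
`h ∈ H`: `∑_{h ∈ H} #{p ∈ ρ₂ | ¬ Avd G p h} = ∑_{p ∈ ρ₂} (|H| - #{h ∈ H | Avd G p h}) ≥ |ρ₂| |H| / 2`, so some `h ∈ H` has
`2 #{p ∈ ρ₂ | ¬ Avd G p h} ≥ |ρ₂|`, hence `2 ω(h) ≥ |ρ₂|`.  Take `g = x` or `g = h` with the larger `ω`. -/
def St_Avg : Prop :=
  ∀ (G : Type) [Group G] [Finite G] (H : Subgroup G) (x : G),
    (∀ p ∈ Rho G, ¬ Avd G p x ∨ 2 * Nat.card {h : G // h ∈ H ∧ Avd G p h} ≤ Nat.card H) →
    ∃ g : G, (Rho G).ncard ≤ 3 * (Nat.card {h : G // IsConj g h}).primeFactors.card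

/-! ## L2 - L4: the subgroups K, A, N -/

/-- [KA0] (first half of L2)  The intersection `K` of the normal `p`-complements.

PROOF.  For a Burnside prime `p` and a Sylow `p`-subgroup `P`, `P.normalizer ≤ centralizer P`, and Mathlib has Burnside's theorem:
`MonoidHom.transferSylow P hP : G →* P` with `MonoidHom.ker_transferSylow_isComplement'` and `MonoidHom.not_dvd_card_ker_transferSylow`
(file GroupTheory/Transfer); call the kernel `K_p`.  `P` is commutative (`P ≤ N(P) ≤ C(P)`), so `⁅a, b⁆ ∈ K_p`, and `G / K_p` is a `p`-group (the range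
is inside `P`).  `K := ⨅` of the `K_p` over the Burnside primes `p ∣ |G|` (a finite set; or `K :=` the kernel of the product homomorphism
`G →* ∀ p, P_p` over that finite set).  Then `K` is normal and contains all commutators.  `|K| ∣ |K_p|` gives the third claim (for Burnside primes not dividing `|G|` it is trivial).
The index of `K` divides the order of the product of the groups `P_p`, so only primes of the finite set divide it: last claim. -/
def St_KA0 : Prop :=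
  ∀ (G : Type) [Group G] [Finite G], ∃ K : Subgroup G, K.Normal ∧ (∀ a b : G, ⁅a, b⁆ ∈ K) ∧
    (∀ p : ℕ, p.Prime → Bur G p → ¬ p ∣ Nat.card K) ∧ (∀ p : ℕ, p.Prime → ¬ Bur G p → ¬ p ∣ K.index)

/-- [KAx] (second half of L2) hypotheses (h0 : St_KA0).

PROOF.  `|K|` and `K.index` are coprime (a common prime would be Burnside and not Burnside), so Schur-Zassenhaus
(`Subgroup.exists_right_complement'_of_coprime`) gives a complement `A`; `|A| = K.index`; `⁅a, b⁆ ∈ K ⊓ A = ⊥` for `a b ∈ A`: `A` is abelian.  `syl`: `p` Burnside.  `A` is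
abelian so its `p`-elements form a subgroup `P` of `A`, a Sylow `p`-subgroup of `A`; `|G| = |K| |A|` with `¬ p ∣ |K|`, so the image of `P` in `G` has index prime to `p` and is
a Sylow `p`-subgroup of `G` (`IsPGroup.toSylow`; e.g. take a Sylow `p`-subgroup of `A`, it is normal hence contains all `p`-elements). -/
def St_KAx : Prop :=
  ∀ (G : Type) [Group G] [Finite G], ∃ K A : Subgroup G, KA G K A

/-- [Conj] (L3)  `N = K ∩ ⟨A^G⟩` controls the conjugation of the `p`-elements of `A`, `p` Burnside.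

PROOF.  `R` := normal closure of `A`.  `P = {y | PEl A p y}` is a Sylow `p`-subgroup of `G` (`KA.syl`) and `P ≤ A ≤ R`.  Frattini
(`Sylow.normalizer_sup_eq_top'`): `N_G(P) ⊔ R = ⊤`, so `g = c * r` with `c ∈ N_G(P)`, `r ∈ R` (`R` normal); `Bur`: `c` centralises `P`: `g⁻¹ y g = r⁻¹ y r`.
`r = k * a`-decomposition: since `K ⊔ A = ⊤`, `K` normal, `r = a * n` with `a ∈ A`, `n ∈ K`; `n = a⁻¹ r ∈ R` as `A ≤ R`; so `n ∈ NN K A`, and
`r⁻¹ y r = n⁻¹ (a⁻¹ y a) n = n⁻¹ y n` as `A` is abelian. -/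
def St_Conj : Prop :=
  ∀ (G : Type) [Group G] [Finite G] (K A : Subgroup G), KA G K A →
    ∀ p : ℕ, p.Prime → Bur G p → Cj (NN K A) {y : G | PEl A p y}

/-- [NM] (L4)

PROOF.  Every `a ∈ A` is a product of powers of `a` which are `p`-elements, `p ∣ |A|` prime (so `p` is Burnside by `KA.ab`, and these powers lie in a Sylow `p`-subgroup of `G`, by `KA.syl`).
So `⁅a, g⁆ ∈ M` for all `a ∈ A`, `g ∈ G` (the elements central modulo `M` form a subgroup).  In `G ⧸ M` the image `Ā` of `A` is central, so normal, so the image of the normal closure `R` is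
inside `Ā`; the image of `NN K A` is inside `Ā`, whose order divides `|A|`, and inside the image of `K`, whose order divides `|K|`.  `|A|`, `|K|` are coprime
(a common prime would be Burnside (by `ab`) and not Burnside (by `kb`)), so the image of `NN K A` is trivial. -/
def St_NM : Prop :=
  ∀ (G : Type) [Group G] [Finite G] (K A M : Subgroup G), KA G K A → M.Normal →
    (∀ p : ℕ, p.Prime → Bur G p → ∀ P : Sylow p G, ∀ y ∈ (P : Subgroup G), ∀ g : G, ⁅y, g⁆ ∈ M) →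
    NN K A ≤ M

/-! ## L5 - L7, L10: Frattini subgroup -/

/-- [Gas] (L5, Gaschuetz)

PROOF.  Let `q` be prime, `P` a Sylow `q`-subgroup of `X`, `P' ≤ X` its image in `G`.  The image of `P'` in `X̄ := X.map (mk' Z)` is a Sylow `q`-subgroup of `X̄` (index prime to `q`); `X̄` is nilpotent, so it is the unique
Sylow `q`-subgroup of `X̄`.  For `g : G`, `g P' g⁻¹ ≤ X` is also Sylow in `X`, with the same image (uniqueness; `X̄` is normal in `G ⧸ Z`).  So `g P' g⁻¹ ≤ P' ⊔ Z`, i.e. `P' ⊔ Z` is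
normal in `G`.  `Y := (P' ⊔ Z) ⊓ X` is normal in `G`, `P'` and `g P' g⁻¹` are Sylow `q`-subgroups of `Y` (they are Sylow in `X ≥ Y`); so they are conjugate in `Y`.  Hence (Frattini argument, `Sylow.normalizer_sup_eq_top`)
`N_G(P') ⊔ Y = ⊤`, so `N_G(P') ⊔ P' ⊔ Z = ⊤`, `N_G(P') ⊔ Z = ⊤`, so `N_G(P') ⊔ frattini G = ⊤` and `N_G(P') = ⊤` (`frattini_nongenerating`).  So every Sylow subgroup of `X` is normal in `X`: `X` is nilpotent
(`Group.isNilpotent_of_finite_tfae`). -/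
def St_Gas : Prop :=
  ∀ (G : Type) [Group G] [Finite G] (X Z : Subgroup G) [X.Normal] [Z.Normal], Z ≤ frattini G →
    Group.IsNilpotent (X.map (QuotientGroup.mk' Z)) → Group.IsNilpotent X

/-- [FAb] (L6)  A nilpotent normal subgroup is abelian modulo the Frattini subgroup.

PROOF.  It suffices that `⁅F, F⁆ ≤ L` for every maximal subgroup (coatom) `L` (`frattini` is the infimum of the coatoms, `Order.radical`).  Suppose not.  `D := ⁅F, F⁆` is normal in `G`, so `D ⊔ L = ⊤`, and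
`F = D (F ⊓ L)`: each `f ∈ F` is `d * l`, `d ∈ D`, `l ∈ L`, `l = d⁻¹ f ∈ F`.  `F ≤ L` is impossible.  So `F ⊓ L` is a proper subgroup of `F`, contained in a maximal subgroup `Q` of `F`; `F` nilpotent: `Q` is normal in `F`
(`Group.isNilpotent_of_finite_tfae`), `F / Q` has no proper nontrivial subgroups and is nilpotent, so it is abelian (e.g. `F ⧸ Q` simple and nilpotent; or: its commutator subgroup is proper, hence trivial), so `⁅F, F⁆ ≤ Q`, `F = D (F ⊓ L) ≤ Q`, contradiction. -/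
def St_FAb : Prop :=
  ∀ (G : Type) [Group G] [Finite G] (F : Subgroup G), F.Normal → Group.IsNilpotent F →
    ∀ a ∈ F, ∀ b ∈ F, ⁅a, b⁆ ∈ frattini G

/-- [Cpl] (L7)  Complements modulo `Z = F ∩ Φ(G)`.

PROOF.  `Z := F ⊓ frattini G`.  Choose `L` minimal (`Finite (Subgroup G)`) among the subgroups with `Z ≤ L` and `U ⊔ L = ⊤` (`⊤` is one).  `D := U ⊓ L`.
(1) `D` is normal in `G`: normalised by `L` (`U` normal), and by `U`: for `u ∈ U`, `x ∈ D`: `u x u⁻¹ = ⁅u, x⁆ x`, `⁅u, x⁆ ∈ Z ≤ D` (as `u x ∈ F`, `Z ≤ U`, `Z ≤ L`); and `G = U L`.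
(2) `D ≤ frattini G`: let `Q` be a coatom with `¬ D ≤ Q`.  Then `Q ⊔ D = ⊤`, `L = (Q ⊓ L) D` (Dedekind: `l = q d`, `q = l d⁻¹ ∈ L`), `Z ≤ frattini G ≤ Q`, so `Z ≤ Q ⊓ L`, `U ⊔ (Q ⊓ L) ⊇ D, Q ⊓ L` so it contains `L` and `U`: it is `⊤`.
Minimality: `Q ⊓ L = L`, so `D ≤ L ≤ Q`, contradiction.  So `D ≤ Z`, `D = Z`.
(3) `W := F ⊓ L`: `Z ≤ W ≤ F`; normalised by `L`, and by `U` (`u w u⁻¹ = ⁅u, w⁆ w`, `⁅u, w⁆ ∈ Z ≤ W`), so normal.  `U ⊔ W = F`: `f = u l`, `l = u⁻¹ f ∈ F ⊓ L`.  `U ⊓ W = U ⊓ L = Z`. -/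
def St_Cpl : Prop :=
  ∀ (G : Type) [Group G] [Finite G] (F : Subgroup G), F.Normal →
    (∀ a ∈ F, ∀ b ∈ F, ⁅a, b⁆ ∈ frattini G) →
    ∀ U : Subgroup G, U.Normal → F ⊓ frattini G ≤ U → U ≤ F →
      ∃ W : Subgroup G, W.Normal ∧ F ⊓ frattini G ≤ W ∧ W ≤ F ∧ U ⊔ W = F ∧ U ⊓ W = F ⊓ frattini G

/-- [FF] (L10) hypotheses (h0 : St_Gas) (h1 : St_FAb).  The choice of `F`.

PROOF.  The set of the normal nilpotent `X` with `N ⊓ F₀ ≤ X ≤ N` contains `N ⊓ F₀` (a subgroup of the nilpotent `F₀`) and is finite: let `F` be maximal.  `⁅a, b⁆ ∈ N ⊓ F₀ ≤ F` for `a b ∈ N`.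
`Z := F ⊓ frattini G`, normal.  `C := {n ∈ N | ∀ f ∈ F, ⁅n, f⁆ ∈ Z}` is a normal subgroup of `G` (elements of `N` acting trivially on `F / Z`), contained in `N`, `F ≤ C` by `St_FAb`.  In `G ⧸ Z` the image `C̄` of `C` satisfies
`⁅⁅C̄, C̄⁆, C̄⁆ = 1`, as `⁅C, C⁆ ≤ F` and `⁅C, F⁆ ≤ Z`: `C̄` is nilpotent (`lowerCentralSeries` vanishes at 2, or `isNilpotent_of_ker_le_center`).  By `St_Gas` `C` is nilpotent, by maximality `C = F`. -/
def St_FF : Prop :=
  ∀ (G : Type) [Group G] [Finite G] (N F₀ M₀ : Subgroup G), N.Normal → F₀.Normal → M₀.Normal → N ≤ M₀ →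
    Group.IsNilpotent F₀ → (∀ a ∈ M₀, ∀ b ∈ M₀, ⁅a, b⁆ ∈ F₀) →
    ∃ F : Subgroup G, F.Normal ∧ F ≤ N ∧ Group.IsNilpotent F ∧ (∀ a ∈ N, ∀ b ∈ N, ⁅a, b⁆ ∈ F) ∧
      (∀ n ∈ N, (∀ f ∈ F, ⁅n, f⁆ ∈ F ⊓ frattini G) → n ∈ F)

/-! ## L8, L9: the module V = F/Z -/

/-- [Vm] (L8)  `V = F / Z` as a module for `G ⧸ F`.

PROOF.  `V := Additive (F ⧸ Z.subgroupOf F)`, commutative by the hypothesis on commutators; `φ x := mk x` for `x ∈ F` and `0` otherwise.  `G` acts on `F ⧸ Z` by conjugation, and `F` acts trivially, so `G ⧸ F` acts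
(e.g. `QuotientGroup.lift F (G →* MulAut (F ⧸ Z.subgroupOf F))` and `DistribMulAction` built with `compHom` or by hand). -/
def St_Vm : Prop :=
  ∀ (G : Type) [Group G] [Finite G] (F Z : Subgroup G) [F.Normal] [Z.Normal], Z ≤ F →
    (∀ a ∈ F, ∀ b ∈ F, ⁅a, b⁆ ∈ Z) →
    ∃ (V : Type) (_ : AddCommGroup V) (_ : Finite V) (_ : DistribMulAction (G ⧸ F) V) (φ : G → V),
      (∀ x ∈ F, ∀ y ∈ F, φ (x * y) = φ x + φ y) ∧
      (∀ x ∈ F, ∀ g : G, φ (g * x * g⁻¹) = (QuotientGroup.mk g : G ⧸ F) • φ x) ∧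
      (∀ x ∈ F, φ x = 0 ↔ x ∈ Z) ∧ (∀ v : V, ∃ x ∈ F, φ x = v)

/-- [SS] (L9)  A finite module in which every invariant subgroup has an invariant complement is a product of simple modules.

PROOF.  Induction on `Nat.card V`.  `V = 0`: `n = 0`.  Otherwise let `U` be a minimal nonzero invariant subgroup, `W` an invariant complement.  `U` (with the restricted action) is simple.  Every invariant subgroup `X` of `W` has
an invariant complement in `W`: `W ⊓ X'` for a complement `X'` of `X` in `V` (modular law).  So by induction `W` is a product of simple modules, and `V ≃ U × W`.  (Alternative: `MonoidAlgebra ℤ Γ`-modules and Mathlib's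
`IsSemisimpleModule`.)  The conclusion gives the product as a map to the components: `e` additive, equivariant, bijective to the product. -/
def St_SS : Prop :=
  ∀ (Γ V : Type) [Group Γ] [AddCommGroup V] [Finite V] [DistribMulAction Γ V],
    (∀ U : AddSubgroup V, Inv Γ U → ∃ W : AddSubgroup V, Inv Γ W ∧ U ⊓ W = ⊥ ∧ U ⊔ W = ⊤) →
    ∃ (n : ℕ) (V' : Fin n → Type) (_ : ∀ i, AddCommGroup (V' i)) (_ : ∀ i, Finite (V' i))
      (_ : ∀ i, DistribMulAction Γ (V' i)) (e : ∀ i, V → V' i),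
      (∀ i, Simp Γ (V' i)) ∧ (∀ i v w, e i (v + w) = e i v + e i w) ∧
      (∀ i (g : Γ) v, e i (g • v) = g • e i v) ∧ (∀ v, (∀ i, e i v = 0) → v = 0) ∧
      (∀ w : (∀ i, V' i), ∃ v, ∀ i, e i v = w i)

/-- [Dec] hypotheses (h0 : St_Cpl) (h1 : St_Vm) (h2 : St_SS).  The decomposition of `F / Z`, `Z = F ⊓ frattini G`, into simple modules.

PROOF.  `Z := F ⊓ frattini G` is normal, `⁅a, b⁆ ∈ Z` for `a b ∈ F`.  Take `V`, `φ` from `St_Vm`.  Invariant subgroups `U` of `V` correspond to the normal subgroups `Û = {x ∈ F | φ x ∈ U}`, `Z ≤ Û ≤ F`, of `G`; `St_Cpl` gives `Ŵ`,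
and `W := φ(Ŵ)` is an invariant complement.  Apply `St_SS` (with `Γ = G ⧸ F`) and compose: `ψ i x := e i (φ x)`. -/
def St_Dec : Prop :=
  ∀ (G : Type) [Group G] [Finite G] (F : Subgroup G) [F.Normal], (∀ a ∈ F, ∀ b ∈ F, ⁅a, b⁆ ∈ frattini G) →
    ∃ (n : ℕ) (V : Fin n → Type) (_ : ∀ i, AddCommGroup (V i)) (_ : ∀ i, Finite (V i))
      (_ : ∀ i, DistribMulAction (G ⧸ F) (V i)) (ψ : ∀ i, G → V i),
      (∀ i, Simp (G ⧸ F) (V i)) ∧
      (∀ i, ∀ x ∈ F, ∀ y ∈ F, ψ i (x * y) = ψ i x + ψ i y) ∧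
      (∀ i, ∀ x ∈ F, ∀ g : G, ψ i (g * x * g⁻¹) = (QuotientGroup.mk g : G ⧸ F) • ψ i x) ∧
      (∀ x ∈ F, (∀ i, ψ i x = 0) ↔ x ∈ F ⊓ frattini G) ∧
      (∀ v : (∀ i, V i), ∃ x ∈ F, ∀ i, ψ i x = v i)

/-! ## L11 - L17: group theory -/

/-- [PV] (L11)  If the `p`-elements of `A` (`p` Burnside) act trivially on `F / Z` then they are central.

PROOF.  `P = {y | PEl A p y}` (Sylow `p`-subgroup of `G`), `Z := F ⊓ frattini G`.  `D` := normal closure of `P`.  The elements `g` of `G` with `⁅g, f⁆ ∈ Z` for all `f ∈ F` form a normal subgroup containing `P`, so containing `D`.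
`X := D ⊓ K ≤ NN K A` (`D ≤` normal closure of `A`), and `X` acts trivially on `F / Z`: by hypothesis `X ≤ F`.  `G / K` is abelian (`G = K A`), so `P ⊔ K` is normal and `D ≤ P ⊔ K`: every `d ∈ D` is `y x` with `y ∈ P`, `x ∈ K`, `x = y⁻¹ d ∈ X`.
Let `g : G`.  `P` and `g P g⁻¹` are Sylow `p`-subgroups of `D`, so conjugate by an element `d = y x` of `D`, hence `g P g⁻¹ = x⁻¹ P x` (or similar) with `x ∈ X ≤ F`; for `y ∈ P`: `x⁻¹ y x = y ⁅y⁻¹, x⁻¹⁆ ∈ y Z` by hypothesis.  So `g P g⁻¹ ≤ P ⊔ Z` for all `g`, and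
`P ⊔ Z` is normal in `G`.  Frattini argument (`Sylow.normalizer_sup_eq_top'`): `N_G(P) ⊔ (P ⊔ Z) = ⊤`, `P ≤ N_G(P)`, `Z ≤ frattini G`: `N_G(P) = ⊤` (`frattini_nongenerating`).  `Bur`: `P` is central. -/
def St_PV : Prop :=
  ∀ (G : Type) [Group G] [Finite G] (K A F : Subgroup G), KA G K A → F.Normal → F ≤ NN K A →
    (∀ n ∈ NN K A, (∀ f ∈ F, ⁅n, f⁆ ∈ F ⊓ frattini G) → n ∈ F) →
    ∀ p : ℕ, p.Prime → Bur G p → (∀ y : G, PEl A p y → ∀ f ∈ F, ⁅y, f⁆ ∈ F ⊓ frattini G) →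
      ∀ y : G, PEl A p y → ∀ g : G, y * g = g * y

/-- [Tau] (L12)

PROOF.  `n₀` := index in `H` of the normaliser `N_H(T)`.  Every Sylow `t`-subgroup of `G` is `k T k⁻¹` with `k ∈ K ≤ H` (Sylow in `K`, `T ≤ K` normal; or: `g T g⁻¹`, and `g = k c`, `c ∈ N_G(T)`, by Frattini).
So `{h ∈ H | Avd G t h} = ⋃_{k ∈ H} k C_H(T) k⁻¹`, and `k C_H(T) k⁻¹` depends only on the coset `k N_H(T)` (an element normalising `T` normalises `C_H(T)`).  So the cardinality is at most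
`|H : N_H(T)| |C_H(T)| = |H| / |N_H(T) : C_H(T)| ≤ |H| / 2`, as `C_H(T)` is a proper subgroup of `N_H(T)`. -/
def St_Tau : Prop :=
  ∀ (G : Type) [Group G] [Finite G] (t : ℕ), t.Prime → ∀ (T : Sylow t G) (K H : Subgroup G), K.Normal → H.Normal →
    (T : Subgroup G) ≤ K → K ≤ H → (∃ h ∈ H, Nrm (T : Subgroup G) h ∧ ¬ Cen (T : Subgroup G) h) →
    2 * Nat.card {h : G // h ∈ H ∧ Avd G t h} ≤ Nat.card H

/-- [BQ] (L13)

PROOF.  `¬ t ∣ |A|` (`KA.ab`), `|G| = |K| |A|`, so `t ∤ K.index` and `T ≤ K` (`K` normal of index prime to `t`: the image of `T` in `G ⧸ K` is trivial).  `Ng` := normaliser of `T` in `G`.  Frattini: `Ng ⊔ K = ⊤`.  In the group `Ng` the normal subgroup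
`K.subgroupOf Ng` has order dividing `|K|` and index `= K.index = |A|` (since `Ng ⊔ K = ⊤`), coprime: Schur-Zassenhaus (`Subgroup.exists_right_complement'_of_coprime`) gives a complement `B ≤ Ng`: `B ⊓ K = ⊥`, `Ng = (Ng ⊓ K) B`, so
`K ⊔ B = ⊤`, `|B| = |A|`; `B` is abelian since `⁅a, b⁆ ∈ K ⊓ B` (`G ⧸ K ≃ A` is abelian).  `t` not Burnside: by definition some Sylow `t`-subgroup, hence (conjugation) `T` itself, has `g` normalising, not centralising; `g = n b`, `n ∈ Ng ⊓ K` centralises `T` by hypothesis, so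
some `b ∈ B` does not centralise `T`.  `b` is a product of powers of `b` of prime power order, so some `s`-element `b' ∈ B`, `s` prime dividing `|B| = |A|`, does not centralise `T`.  `Q :=` Sylow `s`-subgroup of `B` containing `b'`; `|G| = |K| |B|` and `s ∤ |K|` (`s ∣ |A|` so `s` is
Burnside by `KA.ab`, then `KA.kb`), so `Q` is a Sylow `s`-subgroup of `G`.  `s ≠ t` since `t ∤ |A|`. -/
def St_BQ : Prop :=
  ∀ (G : Type) [Group G] [Finite G] (K A : Subgroup G), KA G K A → ∀ t : ℕ, t.Prime → ¬ Bur G t →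
    ∀ T : Sylow t G, (∀ k ∈ K, Nrm (T : Subgroup G) k → Cen (T : Subgroup G) k) →
    ∃ (B : Subgroup G) (s : ℕ) (Q : Sylow s G), s.Prime ∧ s ∣ Nat.card A ∧ s ≠ t ∧ (Q : Subgroup G) ≤ B ∧
      (∀ b ∈ B, Nrm (T : Subgroup G) b) ∧ (∀ a ∈ B, ∀ b ∈ B, a * b = b * a) ∧ K ⊓ B = ⊥ ∧ K ⊔ B = ⊤ ∧
      ∃ y ∈ (Q : Subgroup G), ¬ Cen (T : Subgroup G) y

/-- [Cop] Coprime action on an abelian group.

PROOF.  `Y := ⁅T, Q⁆ ≤ T` (`Q` normalises `T`).  For `x ∈ T` let `θ x := ∏_{q ∈ Q} q x q⁻¹` (product in the abelian `T`; e.g. work in `T` as a `CommGroup`); `θ x` is centralised by `Q`, and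
`x ^ |Q| = θ x * ∏_q (x * (q x q⁻¹)⁻¹)` with `x (q x q⁻¹)⁻¹ = ⁅x, q⁆ ∈ Y`.  Choose `j` with `|Q| j ≡ 1` mod `|T|`: `x = (x ^ j) ^ |Q|`.  Second claim: `Y` is generated by the `⁅x, q⁆`; with `x = c y`, `c` centralised by `Q`, `y ∈ Y`:
`⁅x, q⁆ = c ⁅y, q⁆ c⁻¹ = ⁅y, q⁆` (`T` abelian, `⁅y, q⁆ ∈ T`), which is in `⁅Y, Q⁆`. -/
def St_Cop : Prop :=
  ∀ (G : Type) [Group G] [Finite G] (T Q : Subgroup G), (∀ a ∈ T, ∀ b ∈ T, a * b = b * a) → (∀ q ∈ Q, Nrm T q) →
    (Nat.card T).Coprime (Nat.card Q) →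
    (∀ x ∈ T, ∃ c ∈ T, ∃ y ∈ ⁅T, Q⁆, x = c * y ∧ Cen Q c) ∧ ⁅T, Q⁆ ≤ ⁅⁅T, Q⁆, Q⁆

/-- [QV] (L14) hypotheses (h0 : St_Cop).

PROOF.  `Z := F ⊓ frattini G`; suppose the conclusion fails: (*) for `f ∈ F` with `⁅k, f⁆ ∈ Z` for all `k ∈ K`, `⁅y, f⁆ ∈ Z` for all `y ∈ Q`.
`T ≤ K` (as `t ∤ |A| = K.index`), so `T` is abelian (elements of `T` normalise `T`, so centralise it).  Burnside's theorem in the group `K` for its Sylow subgroup `T` (`MonoidHom.transferSylow` in `K`): normal `t`-complement `K'` of `K`: `K' T = K`, `K' ⊓ T = ⊥`,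
`t ∤ |K'|`; `K'` consists of the elements of `K` of order prime to `t`, so `K'` is normal in `G`.
`Y := ⁅T, Q⁆ ≤ T`.  `Q` is `G`-conjugate to the Sylow `s`-subgroup `{y | PEl A s y}` of `A` (`s` is Burnside since `s ∣ |A|`), so `Q ≤ R :=` normal closure of `A`, `Y ≤ R`, so `Y ≤ T ⊓ NN K A ≤ F`.
`T ⊓ F`: normal in `G` (it is the set of the `t`-elements of the nilpotent normal subgroup `F`: the Sylow `t`-subgroup of `F` is unique, and `T ⊓ F` is a Sylow `t`-subgroup of `F`).  For `x ∈ T ⊓ F`, `k ∈ K'`: `⁅k, x⁆ ∈ K' ⊓ (T ⊓ F) = ⊥`; and `T` is abelian; so `K = K' T` centralises `T ⊓ F`.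
By (*) `⁅y, x⁆ ∈ Z` for `x ∈ T ⊓ F`, `y ∈ Q`.  By `St_Cop` (`s ≠ t`) `Y ≤ ⁅Y, Q⁆ ≤ Z ≤ frattini G`.
`C := {c ∈ T | Cen Q c}`.  `B` is abelian and contains `Q` and normalises `T`, so `B` normalises `C`; `T` abelian normalises `C`.  `G = K B = K' T B`, `K'` normal, so `K' C` is normal in `G`.  `J := K' C B` is a subgroup, `|J| ≤ |K'| |C| |B|` and `|G| = |K| |B| = |K'| |T| |B|`
(`K ⊓ B = ⊥`, `K' ⊓ T = ⊥`), `C ≠ T` (some `y ∈ Q` does not centralise `T`), so `J ≠ ⊤`.  But `J ⊔ Y ≥ K', C, Y, B` and `T ≤ C Y` by `St_Cop`, so `J ⊔ Y = ⊤`, so `J ⊔ frattini G = ⊤`, contradiction (`frattini_nongenerating`). -/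
def St_QV : Prop :=
  ∀ (G : Type) [Group G] [Finite G] (K A F : Subgroup G), KA G K A → F.Normal → F ≤ NN K A → Group.IsNilpotent F →
    ∀ t : ℕ, t.Prime → ¬ Bur G t → ∀ T : Sylow t G, (T : Subgroup G) ⊓ NN K A ≤ F →
    (∀ k ∈ K, Nrm (T : Subgroup G) k → Cen (T : Subgroup G) k) →
    ∀ (B : Subgroup G) (s : ℕ) (Q : Sylow s G), s.Prime → s ∣ Nat.card A → s ≠ t → (Q : Subgroup G) ≤ B →
      (∀ b ∈ B, Nrm (T : Subgroup G) b) → (∀ a ∈ B, ∀ b ∈ B, a * b = b * a) → K ⊓ B = ⊥ → K ⊔ B = ⊤ →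
      (∃ y ∈ (Q : Subgroup G), ¬ Cen (T : Subgroup G) y) →
      ∃ f ∈ F, (∀ k ∈ K, ⁅k, f⁆ ∈ F ⊓ frattini G) ∧ ∃ y ∈ (Q : Subgroup G), ⁅y, f⁆ ∉ F ⊓ frattini G

/-- [Mt] (module part of L15)

PROOF.  `C := {v | ∀ m ∈ M, (∃ k, m ^ (t ^ k) = 1) → m • v = v}` is an additive subgroup, invariant (`M` is normal, conjugates of `t`-elements are `t`-elements: `m • g • v = g • (g⁻¹ m g) • v`), and not `⊤`, so it is `⊥`. -/
def St_Mt : Prop :=
  ∀ (Γ W : Type) [Group Γ] [AddCommGroup W] [DistribMulAction Γ W] (M : Subgroup Γ) (t : ℕ), M.Normal → Simp Γ W →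
    (∃ m ∈ M, (∃ k : ℕ, m ^ (t ^ k) = 1) ∧ ∃ w : W, m • w ≠ w) →
    ∀ v : W, v ≠ 0 → ∃ m ∈ M, (∃ k : ℕ, m ^ (t ^ k) = 1) ∧ m • v ≠ v

/-- [Tn] (group part of L15)  `t`-elements of `N / F` (`N / F` abelian) lift to `T ∩ N`.

PROOF.  `T ⊓ N` is a Sylow `t`-subgroup of `N` (`N` normal): `|N : T ⊓ N|` is prime to `t`.  So the image of `T ⊓ N` in the abelian group `N / F` has index prime to `t` and so contains all elements of `t`-power order (an element of `t`-power order has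
trivial image in the quotient by it, whose order is prime to `t`).  (Or: `n` and `T ⊓ N` generate modulo `F` an abelian `t`-group.) -/
def St_Tn : Prop :=
  ∀ (G : Type) [Group G] [Finite G] (N F : Subgroup G), N.Normal → F.Normal → F ≤ N → (∀ a ∈ N, ∀ b ∈ N, ⁅a, b⁆ ∈ F) →
    ∀ t : ℕ, t.Prime → ∀ T : Sylow t G, ∀ n ∈ N, (∃ k : ℕ, n ^ (t ^ k) ∈ F) →
      ∃ n' ∈ (T : Subgroup G) ⊓ N, n'⁻¹ * n ∈ F

/-- [AbS] (module part of L16)

PROOF.  All commutators act trivially on `W`, so for `g : Γ` and `w : W`: `y • g • w = g • y • w` (`y g = g y ⁅y⁻¹, g⁻¹⁆`, say).  So `C := {w | y • w = w}` is invariant and not `⊤`, hence `⊥`; and `g⁻¹ y g` acts as `y`. -/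
def St_AbS : Prop :=
  ∀ (Γ W : Type) [Group Γ] [AddCommGroup W] [DistribMulAction Γ W], Simp Γ W →
    (∀ a b : Γ, ∀ w : W, ⁅a, b⁆ • w = w) → ∀ y : Γ, (∃ w : W, y • w ≠ w) →
    ∀ v : W, v ≠ 0 → ∀ g : Γ, (g⁻¹ * y * g) • v ≠ v

/-- [HH] (L17)

PROOF.  `A₀ := {a ∈ A | every prime divisor of orderOf a is in S}`, a subgroup of the abelian group `A`; `H := K ⊔ A₀`, normal because `G / K` is abelian (`⁅g, h⁆ ∈ K`).  `|H| = |K| |A₀|`.  A prime `p` Burnside, `∉ S`: `p ∤ |K|`, and `p ∤ |A₀|` (Cauchy).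
A prime `p ∈ S`: if `p` is not Burnside then `p ∤ |A| = |G : K|` so every Sylow `p`-subgroup lies in `K`.  If `p` is Burnside, the Sylow subgroup `{y | PEl A p y}` (`KA.syl`) is inside `A₀ ≤ H`, and all Sylow `p`-subgroups are conjugate to it, `H` normal. -/
def St_HH : Prop :=
  ∀ (G : Type) [Group G] [Finite G] (K A : Subgroup G), KA G K A → ∀ S : Set ℕ,
    ∃ H : Subgroup G, H.Normal ∧ K ≤ H ∧ (∀ p : ℕ, p.Prime → p ∈ S → ∀ Q : Sylow p G, (Q : Subgroup G) ≤ H) ∧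
      (∀ p : ℕ, p.Prime → Bur G p → p ∉ S → ¬ p ∣ Nat.card H)

/-! ## L18: counting -/

/-- [Cnt] (L18)

PROOF.  `C := {m ∈ M | m commutes with P}`, `D := {z ∈ H | z commutes with P}`, subgroups, `C = M ⊓ D`.  For `x ∈ H` let `n x := #{m ∈ M | ∀ y ∈ P, (m⁻¹ y m) x = x (m⁻¹ y m)} = #{m ∈ M | m x m⁻¹ ∈ D}`.
`∑_{x ∈ H} n x = |M| |D|` (for each `m`, `x ↦ m x m⁻¹` is a bijection of `H`), and `|M| |D| ≤ |C| |H|` since `M D ⊆ H` and `|M D| = |M| |D| / |C|`.
If `x ∈ H` and `P^g` centralises `x`, then by `Cj` some `m ∈ M` has `z := m x m⁻¹ ∈ D`.  For `m' ∈ M`: `m' m x m⁻¹ m'⁻¹ = m' z m'⁻¹ ∈ D` iff `m' (z m'⁻¹ z⁻¹) ∈ D` iff (`∈ M`, `M` abelian and normal) `⁅z, m'⁆⁻¹ ∈ C` [`(z m' z⁻¹ m'⁻¹)⁻¹ = m' z m'⁻¹ z⁻¹`] iff `⁅z, m'⁆ ∈ C`.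
The set `E` of these `m'` is a subgroup of `M` (since `m' ↦ ⁅z, m'⁆` is a homomorphism `M → M`, `M` abelian normal) containing `C` (for `m' ∈ C`, `⁅z, m'⁆` commutes with `P`) and by `Star` it contains an element outside `C`: `|E| ≥ 2 |C|`.  So `n x ≥ 2 |C|` for every counted `x`, and
`2 |C| #counted ≤ ∑ n x ≤ |C| |H|`. -/
def St_Cnt : Prop :=
  ∀ (Γ : Type) [Group Γ] [Finite Γ] (M H : Subgroup Γ) (P : Set Γ), M.Normal → H.Normal → M ≤ H →
    (∀ a ∈ M, ∀ b ∈ M, a * b = b * a) → Cj M P → Star M H P →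
    2 * Nat.card {x : Γ // x ∈ H ∧ ∃ g : Γ, ∀ y ∈ P, (g⁻¹ * y * g) * x = x * (g⁻¹ * y * g)} ≤ Nat.card H

/-- [CntG] hypotheses (h0 : St_Cnt) (h1 : St_Conj).  The counting lemma applied in `Γ = G ⧸ F`.

PROOF.  `N := NN K A`, `π = QuotientGroup.mk' F`, `Γ = G ⧸ F`, `M̂ = N.map π`, `Ĥ = H.map π`, `P̂ = {y | PEl (A.map π) p y}`.  `A ⊓ F ≤ A ⊓ K = ⊥`, so `P̂ = π '' {y | PEl A p y}`: if `y = π a`, `a ∈ A`, `y ^ (p ^ k) = 1` then `a ^ (p ^ k) ∈ F ⊓ A = ⊥`.  By `St_Conj`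
`Cj M̂ P̂`.  `M̂` is abelian.  `St_Cnt` gives `2 #X ≤ |Ĥ|` for `X` the set there.  If `h ∈ H` and a Sylow `p`-subgroup `P'` of `G` centralises `h`: `P'` is a conjugate `g⁻¹ P g` of `P = {y | PEl A p y}` (`KA.syl`), so `π h ∈ X`.  Each element of `X` has `|F|` preimages (in `H`), so
`#{h ∈ H | Avd G p h} ≤ |F| #X`, and `|H| = |F| |Ĥ|` (`F ≤ N ≤ K ≤ H`). -/
def St_CntG : Prop :=
  ∀ (G : Type) [Group G] [Finite G] (K A F H : Subgroup G) [F.Normal], KA G K A → F ≤ NN K A → H.Normal → K ≤ H →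
    (∀ a ∈ NN K A, ∀ b ∈ NN K A, ⁅a, b⁆ ∈ F) → ∀ p : ℕ, p.Prime → Bur G p →
    Star ((NN K A).map (QuotientGroup.mk' F)) (H.map (QuotientGroup.mk' F))
      {y : G ⧸ F | PEl (A.map (QuotientGroup.mk' F)) p y} →
    2 * Nat.card {h : G // h ∈ H ∧ Avd G p h} ≤ Nat.card H

/-! ## The vector lemma (VL) -/

/-- [VL] (statement; see below for its parts) -/
def St_VL : Prop :=
  ∀ (Γ V : Type) [Group Γ] [Finite Γ] [AddCommGroup V] [Finite V] [DistribMulAction Γ V]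
    (M H A : Subgroup Γ) (S : Finset ℕ), M.Normal → H.Normal → M ≤ H → (∀ a ∈ M, ∀ b ∈ M, a * b = b * a) →
    (∀ a ∈ A, ∀ b ∈ A, a * b = b * a) → (∀ p ∈ S, p.Prime ∧ ¬ p ∣ Nat.card H) →
    (∀ p ∈ S, Cj M {y : Γ | PEl A p y}) → Simp Γ V →
    ∃ v : V, v ≠ 0 ∧ ∀ p ∈ S, (∃ y : Γ, PEl A p y ∧ ∃ w : V, y • w ≠ w) →
      (∀ g : Γ, ∃ y : Γ, PEl A p y ∧ (g⁻¹ * y * g) • v ≠ v) ∨ Star M H {y : Γ | PEl A p y}

/-- [VLG] hypotheses (h0 : St_VL) (h1 : St_CntG) (h2 : St_Conj).  (VL) in the group `G`, for a simple module of `G ⧸ F`.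

PROOF.  Apply `St_VL` with `Γ = G ⧸ F`, `V = W`, `M = N.map π`, `H.map π`, `A.map π` (`N = NN K A`, `π = mk' F`), `S :=` the primes `p ≤ |G|` (say all prime divisors of `|G|`) which are Burnside and do not divide `|H|`.  As in `St_CntG`, the `p`-elements of `A.map π` are the images of
the `p`-elements of `A` (`A ⊓ F = ⊥`), so `Cj` holds by `St_Conj`; `|H.map π| ∣ |H|`; commutators of `N` are in `F` so `N.map π` is abelian.  For a prime `p` not dividing `|G|` all `p`-elements are trivial and the hypothesis `(∃ y, …)` fails.  For `p ∈ S`: the first alternative of `St_VL`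
gives the first alternative here, `Star` gives the second by `St_CntG`. -/
def St_VLG : Prop :=
  ∀ (G W : Type) [Group G] [Finite G] (K A F H : Subgroup G) [F.Normal] [AddCommGroup W] [Finite W]
    [DistribMulAction (G ⧸ F) W], KA G K A → F ≤ NN K A → H.Normal → K ≤ H →
    (∀ a ∈ NN K A, ∀ b ∈ NN K A, ⁅a, b⁆ ∈ F) → Simp (G ⧸ F) W →
    ∃ v : W, v ≠ 0 ∧ ∀ p : ℕ, p.Prime → Bur G p → ¬ p ∣ Nat.card H →
      (∃ y : G, PEl A p y ∧ ∃ w : W, (QuotientGroup.mk y : G ⧸ F) • w ≠ w) →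
      (∀ g : G, ∃ y : G, PEl A p y ∧ (QuotientGroup.mk (g⁻¹ * y * g) : G ⧸ F) • v ≠ v) ∨
        2 * Nat.card {h : G // h ∈ H ∧ Avd G p h} ≤ Nat.card H

/-- [MC] hypotheses (h0 : St_Rho0) (h1 : St_KAx) (h2 : St_NM) (h3 : St_FF) (h4 : St_FAb) (h5 : St_Dec) (h6 : St_PV) (h7 : St_Tau) (h8 : St_BQ)
(h9 : St_QV) (h10 : St_Mt) (h11 : St_Tn) (h12 : St_AbS) (h13 : St_HH) (h14 : St_VLG).  The main claim (Assembly in the paper proof).

PROOF.  `K, A` from `St_KAx`; `N := NN K A ≤ M₀` by `St_NM`; `F` from `St_FF`; `Z := F ⊓ frattini G`; `V i`, `ψ i` from `St_Dec` (with `St_FAb`).  `W := {f ∈ F | ∀ k ∈ K, ⁅k, f⁆ ∈ Z}` (this is `C_V(K)`).  `S₀ := {s | s prime, Bur G s, ∃ y, PEl A s y ∧ ∃ f ∈ W, ⁅y, f⁆ ∉ Z}`; `H` from `St_HH` for `S₀`.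
`v i` from `St_VLG` for `V i`; `x ∈ F` with `ψ i x = v i`.  (If `g` commutes with `x` then `mk g • v i = v i`, by equivariance.)  Let `p ∈ Rho G`.
(a) `p` not Burnside; `T` a Sylow `p`-subgroup, `T ⊓ N ≤ F` fails.  Claim `¬ Avd G p x`: let `T'` be a Sylow `p`-subgroup centralising `x`; there is `n ∈ T ⊓ N`, `n ∉ F`, so (`St_FF`) `n` acts nontrivially on `F / Z`: `⁅n, f⁆ ∉ Z`, so for some `i`, `mk n • ψ i f ≠ ψ i f`; `mk n` is a `p`-element of
`N.map π`.  `St_Mt` for `V i`: some `m ∈ N.map π`, of `p`-power order, `m • v i ≠ v i`; `m = π n₁`, `n₁ ^ (p^k) ∈ F`, `St_Tn` for `T'` gives `n' ∈ T' ⊓ N` with `π n' = m`; `n'` commutes with `x`: contradiction.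
(b) `p` not Burnside, `T ⊓ N ≤ F`: second alternative by `St_Tau` (`T ≤ K` since `p ∤ |A| = |G : K|`): if some `k ∈ K` normalises and does not centralise `T`, fine (`K ≤ H`).  Otherwise `St_BQ` and `St_QV` give `B, s, Q, f, y`: `f ∈ W`, `y ∈ Q`, `⁅y, f⁆ ∉ Z`.  `s ∣ |A|` so `s` is Burnside (`KA.ab`), `Q` is
conjugate to `{y | PEl A s y}`: `y = g y' g⁻¹`, `f' := g⁻¹ f g ∈ W` (`K` normal) and `⁅y', f'⁆ ∉ Z`; so `s ∈ S₀`, `Q ≤ H`, and some element of `Q` normalises (`Q ≤ B`) and does not centralise `T`.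
(c) `p ∈ S₀`: `y, f`; `⁅y, f⁆ ∉ Z` so for some `i`, `ψ i ⁅y, f⁆ ≠ 0`, i.e. `mk y • ψ i f ≠ ψ i f`; and `mk k • ψ i f = ψ i f` for `k ∈ K`.  `{w : V i | ∀ k ∈ K, mk k • w = w}` is invariant (`K` normal) and contains `ψ i f ≠ 0`, so it is everything: `K` acts trivially on `V i`, and commutators of `G ⧸ F` are in the image of `K`.
`St_AbS`: `(g⁻¹ y g) • v i ≠ v i` for all `g`.  If a Sylow `p`-subgroup centralised `x`, it is `g⁻¹ P g`, `P = {y | PEl A p y}`: contradiction.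
(d) `p` Burnside, `p ∉ S₀`: `¬ p ∣ |H|`.  Sylow `p`-subgroups are not central (`St_Rho0`), so by `St_PV` some `y`, `PEl A p y`, and `f ∈ F` have `⁅y, f⁆ ∉ Z`, so for some `i` the hypothesis of `St_VLG` holds for `V i`.  If its first alternative holds: no Sylow `p`-subgroup (`= g⁻¹ P g`) centralises `x`.  The second
alternative is the second alternative here. -/
def St_MC : Prop :=
  ∀ (G : Type) [Group G] [Finite G] (F₀ M₀ : Subgroup G), F₀.Normal → M₀.Normal → Group.IsNilpotent F₀ →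
    (∀ a ∈ M₀, ∀ b ∈ M₀, ⁅a, b⁆ ∈ F₀) →
    (∀ p : ℕ, p.Prime → Bur G p → ∀ P : Sylow p G, ∀ y ∈ (P : Subgroup G), ∀ g : G, ⁅y, g⁆ ∈ M₀) →
    ∃ (H : Subgroup G) (x : G), ∀ p ∈ Rho G, ¬ Avd G p x ∨ 2 * Nat.card {h : G // h ∈ H ∧ Avd G p h} ≤ Nat.card H

/-- [Nil] If `G / M₀` is nilpotent then `[P, G] ≤ M₀` for Burnside primes.

PROOF.  `P ≤ N_G(P) ≤ C_G(P)`: `P` is abelian.  The image `P̄` of `P` in the nilpotent group `G ⧸ M` is a Sylow `p`-subgroup, abelian and normal; for a Sylow `q`-subgroup `Q̄`, `q ≠ p`, `[P̄, Q̄] ≤ P̄ ⊓ Q̄ = 1`; so `P̄` is centralised by all Sylow subgroups of `G ⧸ M` (for `q = p` the only one is `P̄`), which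
generate it.  (Or: any element is a product of elements of prime power order, its powers.) -/
def St_Nil : Prop :=
  ∀ (G : Type) [Group G] [Finite G] (M : Subgroup G) [M.Normal], Group.IsNilpotent (G ⧸ M) →
    ∀ p : ℕ, p.Prime → Bur G p → ∀ P : Sylow p G, ∀ y ∈ (P : Subgroup G), ∀ g : G, ⁅y, g⁆ ∈ M

/-! ## Parts of (VL): the commutative ring R generated by M -/

/-- `e` is a primitive idempotent and `e R` is a field with identity `e` -/
def Prm {R : Type} [CommRing R] (e : R) : Prop := e * e = e ∧ e ≠ 0 ∧ ∀ r : R, e * r = 0 ∨ ∃ s : R, e * r * s = e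

/-- data: `R` acts faithfully on `V`, `Γ` acts compatibly on `R` and `V`, `M` acts on `V` through `lam : M → R` and trivially on `R` -/
structure RD (Γ R V : Type) [Group Γ] [CommRing R] [AddCommGroup V] [Module R V] [MulSemiringAction Γ R]
    [DistribMulAction Γ V] (M : Subgroup Γ) (lam : Γ → R) : Prop where
  comp : ∀ (g : Γ) (r : R) (v : V), g • (r • v) = (g • r) • (g • v)
  faith : ∀ r : R, (∀ v : V, r • v = 0) → r = 0
  lamv : ∀ m ∈ M, ∀ v : V, m • v = lam m • v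
  triv : ∀ m ∈ M, ∀ r : R, m • r = r

/-- [RDx] (R) Existence of the ring `R`.

PROOF.  `R :=` the subring of `AddMonoid.End V` generated by the maps `v ↦ m • v`, `m ∈ M` (`Subring.closure`; commutative: `Subring.closureCommRingOfComm`); `Module R V` by evaluation; `lam m` this map (for `m ∈ M`; anything otherwise).  `Γ` acts on
`AddMonoid.End V` by `(g • r) v := g • r (g⁻¹ • v)`, ring automorphisms, mapping the map of `m` to the map of `g m g⁻¹`, so preserving `R` (`M` normal).  `M` acts trivially on `R` since `R` is commutative.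
Finite: `V` is finite.  Reduced: let `r ∈ R` be nilpotent; `J :=` nilradical of `R`, a nilpotent ideal (`R` finite), `Γ`-invariant; `U := J V` (additive subgroup generated by the `j • v`) is invariant; if `U = ⊤` then `V = J V = J² V = … = 0`, contradiction; so `U = ⊥`, `J = 0` by faithfulness. -/
def St_RDx : Prop :=
  ∀ (Γ V : Type) [Group Γ] [AddCommGroup V] [Finite V] [DistribMulAction Γ V] (M : Subgroup Γ), M.Normal →
    (∀ a ∈ M, ∀ b ∈ M, a * b = b * a) → Simp Γ V →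
    ∃ (R : Type) (_ : CommRing R) (_ : Finite R) (_ : IsReduced R) (_ : Module R V) (_ : MulSemiringAction Γ R)
      (lam : Γ → R), RD Γ R V M lam

/-- [Prx] (Prim) The primitive idempotents of a finite reduced commutative ring.

PROOF.  `Ω :=` the elements `e` with `Prm e` (`Set.toFinite`).  Orthogonal: `e ≠ e'`: if `e e' ≠ 0` then `e e' s = e` for some `s`, so `e e' = e (e e' s)… `: `e e' = (e e' s) e' = e e' s = e`, and symmetrically `e' e = e'`, so `e = e'`.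
Every nonzero idempotent `f` has `e ∈ Ω` with `e f = e`: take a nonzero idempotent `e`, `e f = e`, with `e R` (a finite set) of minimal cardinality; then for `r` with `e r ≠ 0`: `(e r)^n ≠ 0` for all `n` (reduced) and some power `i := (e r)^n`, `n ≥ 1`, is idempotent (finite monoid); `i = e i`, `i ≠ 0`,
`i R ⊆ e R`, by minimality `i R = e R`, so `i = e` (both are the identity of this ring), `e r (e r)^(n-1) = e`.  `f := 1 - ∑_{e ∈ Ω} e` is idempotent and `e f = 0` for all `e ∈ Ω`, so `f = 0`.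
(Alternative: `R ≃ ∏ R ⧸ m`, `IsArtinianRing.equivPi`.) -/
def St_Prx : Prop :=
  ∀ (R : Type) [CommRing R] [Finite R] [IsReduced R], ∃ Ω : Finset R, (∀ e : R, e ∈ Ω ↔ Prm e) ∧
    (∀ e ∈ Ω, ∀ e' ∈ Ω, e ≠ e' → e * e' = 0) ∧ ∑ e ∈ Ω, e = 1

/-- [Tr] (Tr) hypotheses (h0 : St_Prx); may use `Pool.Agent.CCS.Bas`.  `Γ` is transitive on the primitive idempotents.

PROOF.  Let `O` be the `Γ`-orbit of `e` (a subset of `Ω`: `g • e` is primitive), `f := ∑_{e₁ ∈ O} e₁`: `g • f = f` for all `g`, `f f = f`.  `U := {v | f • v = v}` is an additive subgroup, invariant (`f • g • v = g • (g⁻¹ • f) • v = g • f • v`), nonzero (`e • v ≠ 0` for some `v`, by faithfulness;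
`f e = e`), so `⊤`; so `f = 1` by faithfulness.  `e' = f e' = ∑ e₁ e'`, so `e₁ e' ≠ 0` for some `e₁ ∈ O`, `e₁ = e'` by orthogonality. -/
def St_Tr : Prop :=
  ∀ (Γ R V : Type) [Group Γ] [Finite Γ] [CommRing R] [Finite R] [IsReduced R] [AddCommGroup V] [Module R V]
    [MulSemiringAction Γ R] [DistribMulAction Γ V] (M : Subgroup Γ) (lam : Γ → R), RD Γ R V M lam → Simp Γ V →
    ∀ e e' : R, Prm e → Prm e' → ∃ g : Γ, g • e = e'

/-- [Mov] (C1) hypotheses (h0 : St_Prx); may use `Pool.Agent.CCS.Bas` (`Bas.comm_smul`: `y • g • r = g • y • r`).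

PROOF.  `O := {h • e₀ | h ∈ H}`, a finite set, `H` acts transitively.  Claim `y • e₀ ∉ O`.  Suppose `y • e₀ = h • e₀`, `h ∈ H`.  `y` commutes with the action of `Γ` on `R` (`Bas.comm_smul`), so `y` maps `O` to `O`.  If `y ^ j` fixes one element `h' • e₀` of `O` it fixes all:
`y^j • h'' • e₀ = h'' h'⁻¹ • y^j • h' • e₀`.  So the group generated by `y` acts on `O` with all orbits of the same length `ℓ` = the least `j ≥ 1` with `y^j • e₀ = e₀`, `ℓ ≠ 1`, and `ℓ ∣ p^k`; so `p ∣ ℓ ∣ |O|`.  And `|O| ∣ |H|` (orbit): contradiction.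
(Formally: `zpowers y` acts on `O` semiregularly; or: `O / ⟨y⟩`; or use `Nat.card O ≡ #fixed points (mod p)` for the `p`-group `⟨y⟩` acting on `O` (`IsPGroup.card_modEq_card_fixedPoints`): a fixed point of `y` on `O` would give `y • e₀ = e₀`; so there is none, and `p ∣ |O| ∣ |H|`.)
Now let `m ∈ M` with `g⁻¹ y g = m⁻¹ y m`, suppose `(m⁻¹ y m) • v = v`.  `v' := m • v = lam m • v`: `y • v' = v'`.  `e₀ • v' = lam m • e₀ • v ≠ 0` (it is `m • (e₀ • v)` as `m • e₀ = e₀`).  `(y • e₀) • v' = (y • e₀) • (y • v') = y • (e₀ • v') ≠ 0`.  But `f := y • e₀` is primitive and not in `O`, so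
`f • v = 0`, `f • v' = lam m • f • v = 0`. -/
def St_Mov : Prop :=
  ∀ (Γ R V : Type) [Group Γ] [Finite Γ] [CommRing R] [Finite R] [IsReduced R] [AddCommGroup V] [Module R V]
    [MulSemiringAction Γ R] [DistribMulAction Γ V] (M H : Subgroup Γ) (lam : Γ → R), RD Γ R V M lam → H.Normal →
    ∀ (p k : ℕ), p.Prime → ¬ p ∣ Nat.card H → ∀ (P : Set Γ), Cj M P → ∀ y ∈ P, y ^ (p ^ k) = 1 →
    ∀ e₀ : R, Prm e₀ → y • e₀ ≠ e₀ → ∀ v : V, e₀ • v ≠ 0 →
      (∀ f : R, Prm f → (∀ h ∈ H, h • e₀ ≠ f) → f • v = 0) → ∀ g : Γ, (g⁻¹ * y * g) • v ≠ v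

/-- [Sc] (C2a); may use `Pool.Agent.CCS.Bas`.

PROOF.  For `m ∈ M`, `v : V`: `y • m • v = y • (lam m • v) = (y • lam m) • (y • v) = lam m • y • v = m • y • v`; so `m⁻¹ y m` acts as `y` on `V`, and by `Cj` so does `g⁻¹ y g`; thus `y • g • v = g • y • v`.  `C := {v | y • v = v}` is invariant, not `⊤`, so `⊥`. -/
def St_Sc : Prop :=
  ∀ (Γ R V : Type) [Group Γ] [CommRing R] [AddCommGroup V] [Module R V]
    [MulSemiringAction Γ R] [DistribMulAction Γ V] (M : Subgroup Γ) (lam : Γ → R), RD Γ R V M lam → Simp Γ V →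
    ∀ (P : Set Γ), Cj M P → ∀ y ∈ P, (∀ r : R, y • r = r) → (∃ w : V, y • w ≠ w) →
    ∀ v : V, v ≠ 0 → ∀ g : Γ, (g⁻¹ * y * g) • v ≠ v

/-- [Hil] (Hil, field version) Hilbert 90 / Galois descent for a semilinear action.

PROOF.  For each `σ` in the (finite) image `B` of `A → Aut(E)` (e.g. `MulSemiringAction.toRingAut A E`) choose `a_σ ∈ A` mapping to `σ`.  `T(w) := ∑_{σ ∈ B} a_σ • w`.  If `a, a'` act equally on `E` then `a⁻¹ a'` acts trivially on `E`, hence on `U`: `a • w = a' • w`.  So `a • T(w) = ∑_σ (a a_σ) • w = ∑_σ a_{aσ} • w = T(w)`.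
Let `u ≠ 0`.  `T(x • u) = ∑_σ σ(x) • (a_σ • u)`.  Suppose it is `0` for all `x : E`.  Apply a linear functional `φ : U → E` (`Module.Dual`, `exists_dual…`, or a basis coordinate) with `φ (a_1 • u) ≠ 0`: `∑_σ φ(a_σ • u) σ(x) = 0` for all `x`, contradicting Dedekind (`linearIndependent_monoidHom E E`).
So some `T(x • u) ≠ 0`. -/
def St_Hil : Prop :=
  ∀ (E U A : Type) [Field E] [AddCommGroup U] [Module E U] [Group A] [Finite A] [MulSemiringAction A E]
    [DistribMulAction A U], (∀ (a : A) (x : E) (u : U), a • (x • u) = (a • x) • (a • u)) →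
    (∀ a : A, (∀ x : E, a • x = x) → ∀ u : U, a • u = u) → (∃ u : U, u ≠ 0) → ∃ u : U, u ≠ 0 ∧ ∀ a : A, a • u = u

/-- [Eta] hypotheses (h0 : St_Hil).  The version of `St_Hil` for `f V`, `f` a primitive idempotent of `R`.

PROOF.  `I := {r | f r = 0}`, an ideal; `E := R ⧸ I` is a field (`I` is maximal: if `f r ≠ 0` then `f r s = f`, so `r s ≡ 1` mod `I`).  `U := {v | f • v = v}` (a submodule) is an `E`-module (`I` kills it; `Module.IsTorsionBySet.module` or by hand).  `A'` acts on `R` fixing `f`, so on `E`, and on `U`.  Apply `St_Hil` with the group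
`A'` (as a type).  `a ∈ A'` trivial on `E` means `f (a • r - r) = 0` for all `r`, so `a • (f r) = f (a • r) = f r`: then `a` is trivial on `V` by hypothesis.  `U ≠ 0`: `f • v ∈ U`.  (Alternative: prove the Dedekind argument directly for `f R`.) -/
def St_Eta : Prop :=
  ∀ (Γ R V : Type) [Group Γ] [Finite Γ] [CommRing R] [AddCommGroup V] [Module R V]
    [MulSemiringAction Γ R] [DistribMulAction Γ V] (A' : Subgroup Γ),
    (∀ (g : Γ) (r : R) (v : V), g • (r • v) = (g • r) • (g • v)) → ∀ f : R, Prm f → (∀ a ∈ A', a • f = f) →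
    (∀ a ∈ A', (∀ r : R, a • (f * r) = f * r) → ∀ v : V, a • v = v) → (∃ v : V, f • v ≠ 0) →
    ∃ η : V, f • η = η ∧ η ≠ 0 ∧ ∀ a ∈ A', a • η = η

/-- [Tor] (Tor) hypotheses (h0 : St_Prx).  Units of `l`-power order, `l < p`, are fixed by `p`-elements fixing all primitive idempotents.

PROOF.  `w = ∑_{f ∈ Ω} f w`; it suffices `y • (f w) = f w` for `f ∈ Ω`.  `C := {x | f x = x, x ^ (l^j) = f}` is a finite abelian group with identity `f`, cyclic because `f R` is a field (or via `R ⧸ ann f`: roots of unity in a field, `rootsOfUnity`, `isCyclic_of_subgroup_isDomain`).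
So `y` maps the element `c := f w` of `C` to a power: `y • c = c ^ i` (in `C` cyclic, the subgroup generated by `c` is the only one of its order, and `y • c` has the same order).  `y ^ (p^k) = 1`: `c ^ (i ^ (p^k)) = c`.  Let `l^a` be the order of `c`: `i ^ (p^k) ≡ 1` mod `l^a`, and `i` is a unit mod `l^a`, whose group of units
has order `l^(a-1) (l-1)`, prime to `p` (`l < p` primes); so `i ≡ 1` mod `l^a`, `y • c = c`. -/
def St_Tor : Prop :=
  ∀ (Γ R : Type) [Group Γ] [CommRing R] [Finite R] [IsReduced R] [MulSemiringAction Γ R] (y : Γ) (l p k j : ℕ),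
    l.Prime → p.Prime → l < p → y ^ (p ^ k) = 1 → (∀ f : R, Prm f → y • f = f) →
    ∀ w : R, w ^ (l ^ j) = 1 → y • w = w

/-- [Cov] (Cov) The covering lemma.

PROOF.  For each `i` there is a prime `l_i` and an element `w` of `l_i`-power order not in `R i`: an element `w₀ ∉ R i` is a product of powers of `w₀` of prime power order, one of them is not in `R i`.  By hypothesis `p i ≤ l_i`.  For a prime `l` let `W_l := {w | ∃ j, w ^ (l^j) = 1}` (subgroup), `I_l := {i | l_i = l}`: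
`p` is injective on `I_l` with values primes in `[2, l]`, so `|I_l| ≤ l - 1`.  For `i ∈ I_l`, `R i ⊓ W_l` is a proper subgroup of the `l`-group `W_l`, so has at most `|W_l| / l` elements.  So the union over `I_l` is not `W_l`: choose `u_l ∈ W_l` outside (`u_l = 1` if `I_l` is empty).  `u := ∏ u_l` over the finite set of the `l_i`.
If `u ∈ R i`, `l := l_i`: let `q := ∏_{l' ≠ l} (order of u_{l'})`, prime to `l`; `u ^ q = u_l ^ q ∈ R i`, and `u_l` is a power of `u_l ^ q` (`q` is prime to the order of `u_l`), so `u_l ∈ R i`, contradiction. -/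
def St_Cov : Prop :=
  ∀ (W ι : Type) [CommGroup W] [Finite W] [Finite ι] (R : ι → Subgroup W) (p : ι → ℕ), Function.Injective p →
    (∀ i, (p i).Prime) → (∀ i, R i ≠ ⊤) →
    (∀ i, ∀ l j : ℕ, l.Prime → l < p i → ∀ w : W, w ^ (l ^ j) = 1 → w ∈ R i) →
    ∃ w : W, ∀ i, w ∉ R i

/-- [Art] (Artin)

PROOF.  Suppose every `e` with `b e = e` has `y e = e`.  Let `B := Subgroup.zpowers b` in the group `E ≃+* E`, a finite group acting faithfully on `E` (`RingAut` acts; faithful by extensionality).  `y` fixes `FixedPoints.subfield B E` pointwise, so gives an algebra automorphism of `E` over it; by Artin's theorem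
(`FixedPoints.toAlgAut_bijective`) it is given by an element of `B`: `y ∈ B`.  So `y ^ n = 1` (`b ^ n = 1`), and `y ^ (p^j) = 1`, `n` and `p^j` coprime: `y = 1`, contradiction. -/
def St_Art : Prop :=
  ∀ (E : Type) [Field E] [Finite E] (b y : E ≃+* E) (p n j : ℕ), p.Prime → ¬ p ∣ n → b ^ n = 1 → y ^ (p ^ j) = 1 →
    y ≠ 1 → ∃ e : E, b e = e ∧ y e ≠ e

/-- [Fix] (Fix) hypotheses (h0 : St_Prx) (h1 : St_Art).

PROOF.  `k` := least `k ≥ 1` with `z ^ k • e₀ = e₀` (exists, `z ^ n = 1`, `n ≥ 1`); the `z ^ i • e₀`, `i < k`, are distinct primitive idempotents (if `z^i • e₀ = z^j • e₀`, `i < j < k`, then `z^(j-i) • e₀ = e₀`), so pairwise orthogonal.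
`E := R ⧸ I`, `I := {r | e₀ r = 0}`, is a finite field; `z^k` and `y` fix `e₀`, so induce automorphisms `b`, `y'` of `E`, `b ^ n = 1`, `y' ^ (p^j) = 1`, `y' ≠ 1` (`y • (e₀ r) ≠ e₀ r` means `y r - r ∉ I`).  By `St_Art` there is `r₀ : R` with `b r₀ = r₀`, `y' r₀ ≠ r₀` in `E`.  Put `r := e₀ r₀`: `z^k • r = r`, `y • r ≠ r`;
in particular `r ≠ 0` and there is `r' ∈ e₀ R` with `r r' = e₀` (then `z^k • r' = r'` as it is the inverse of `r` in the field `e₀ R`).  `u := ∑_{i<k} z^i • r + (1 - ∑_{i<k} z^i • e₀)`, with inverse `∑_{i<k} z^i • r' + (1 - ∑_{i<k} z^i • e₀)` by orthogonality.  `z • u = u` since `z^k • r = r`, `z^k • e₀ = e₀`.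
`e₀ u = r`, so `y • (e₀ u) = y • r ≠ r = e₀ u`. -/
def St_Fix : Prop :=
  ∀ (Γ R : Type) [Group Γ] [CommRing R] [Finite R] [IsReduced R] [MulSemiringAction Γ R] (y z : Γ) (e₀ : R) (p n j : ℕ),
    p.Prime → ¬ p ∣ n → z ^ n = 1 → y ^ (p ^ j) = 1 → Prm e₀ → y • e₀ = e₀ → (∃ r : R, y • (e₀ * r) ≠ e₀ * r) →
    ∃ u : Rˣ, z • (u : R) = (u : R) ∧ y • (e₀ * (u : R)) ≠ e₀ * (u : R)

/-- [Sur] (the group theoretic part of (Star))

PROOF.  On the finite group `X = M ⧸ C` the map `x ↦ a(x) x⁻¹` is a well defined endomorphism with trivial kernel, so injective, so surjective.  On the finite group `Y = W ⧸ B` the endomorphism `δ : w ↦ b(w) w⁻¹` is surjective: let `w = lam m * c`, `c ∈ B`; `m ≡ a(m') m'⁻¹` mod `C`, so `lam m ≡ b(lam m') (lam m')⁻¹` mod `B`.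
So `δ` is injective on `Y`: `b(w) w⁻¹ ∈ B` implies `w ∈ B`. -/
def St_Sur : Prop :=
  ∀ (M W : Type) [CommGroup M] [CommGroup W] [Finite M] [Finite W] (a : M ≃* M) (b : W ≃* W) (lam : M →* W)
    (C : Subgroup M) (B : Subgroup W), (∀ m, lam (a m) = b (lam m)) → (∀ m ∈ C, a m ∈ C) → (∀ w ∈ B, b w ∈ B) →
    (∀ m ∈ C, lam m ∈ B) → (∀ w : W, ∃ m : M, ∃ c ∈ B, w = lam m * c) → (∀ m : M, a m * m⁻¹ ∈ C → m ∈ C) →
    ∀ w : W, b w * w⁻¹ ∈ B → w ∈ B

/-- [Rp] hypotheses (h0 : St_Fix) (h1 : St_Sur); may use `Pool.Agent.CCS.Bas`.  One prime `p ∈ S'`: the subgroup `R_p` of the unit group.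

PROOF.  `lam m` is a unit of `R` for `m ∈ M`, `lam (m m') = lam m lam m'` (by faithfulness), and `lam (g m g⁻¹) = g • lam m` (faithfulness: `(g m g⁻¹) • v = g • (lam m • (g⁻¹ • v)) = (g • lam m) • v`).
`B_p := {w : Rˣ | ∀ y ∈ P, y • (eO * w) = eO * w}` (a subgroup: for `w, w'`: `eO w w' = (eO w) (eO w')` as `eO eO = eO`; inverse: `eO w⁻¹` is the inverse of `eO w` in `eO R`, `y • eO = eO`).  `R_p := {w | ∃ m ∈ M, lam m * w ∈ B_p}`, i.e. `lam(M) B_p`.
(1) Suppose `u : Rˣ` and for some `g` all `y ∈ P` satisfy `(g⁻¹ y g) • (u • η) = u • η`.  Let `m ∈ M`, `g⁻¹ y g = m⁻¹ y m` for all `y ∈ P` (`Cj`).  Then `y • (m • u • η) = m • u • η = (lam m * u) • η`, so `(y • (lam m u)) • (y • η) = (lam m u) • η`, `y • η = η`: `(y • (lam m u) - lam m u) • η = 0`, so by hypothesis `(y • (lam m u) - lam m u) * eO = 0`,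
i.e. `y • (eO lam m u) = eO lam m u`: `u ∈ R_p`.
(2) if `y • w = w` for all `y ∈ P` then `w ∈ B_p ≤ R_p`.
(3) `R_p = ⊤ → Star`: let `z ∈ H`, `z` commutes with `P`; suppose there is no `m` as in `Star`: for `m ∈ M`, `⁅z, m⁆` commutes with `P` implies `m` commutes with `P`.  Apply `St_Sur` with `M` (as a type, `CommGroup` by hypothesis), `W = Rˣ`, `a = ` conjugation by `z`, `b` = action of `z` on `Rˣ`, `C = {m | m commutes with P}`, `B = B_p`.
Hypotheses: `lam (z m z⁻¹) = z • lam m`; `C` is preserved by `a` since `z` commutes with `P`; `B_p` by `b` since `z • eO = eO`, `y z = z y`; `lam m ∈ B_p` for `m ∈ C`: `y • lam m = lam (y m y⁻¹) = lam m`; surjectivity is `R_p = ⊤`; `a m * m⁻¹ = ⁅z, m⁆`.  So for `w : Rˣ`: `z • w = w` implies `w ∈ B_p`.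
But let `y ∈ P` with `y • (e₀ r) ≠ e₀ r` for some `r`; `St_Fix` (with `n :=` order of `z`, which divides `|H|`, so is prime to `p`) gives `u` with `z • u = u`, `y • (e₀ u) ≠ e₀ u`; `u ∈ B_p`: `y • (eO u) = eO u`, multiply by `e₀ = y • e₀`: `y • (e₀ u) = e₀ u` (`e₀ eO = e₀`).  Contradiction. -/
def St_Rp : Prop :=
  ∀ (Γ R V : Type) [Group Γ] [Finite Γ] [CommRing R] [Finite R] [IsReduced R] [AddCommGroup V] [Module R V]
    [MulSemiringAction Γ R] [DistribMulAction Γ V] (M H : Subgroup Γ) (lam : Γ → R), RD Γ R V M lam → M.Normal →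
    H.Normal → M ≤ H → (∀ a ∈ M, ∀ b ∈ M, a * b = b * a) → ∀ (p : ℕ), p.Prime → ¬ p ∣ Nat.card H →
    ∀ (P : Set Γ), Cj M P → (∀ y ∈ P, ∃ k : ℕ, y ^ (p ^ k) = 1) →
    ∀ (e₀ eO : R), Prm e₀ → (∀ y ∈ P, y • e₀ = e₀) → (∃ y ∈ P, ∃ r : R, y • (e₀ * r) ≠ e₀ * r) →
      eO * eO = eO → e₀ * eO = e₀ → (∀ z ∈ H, z • eO = eO) → (∀ y ∈ P, y • eO = eO) →
    ∀ η : V, (∀ y ∈ P, y • η = η) → (∀ r : R, r • η = 0 → r * eO = 0) →
    ∃ Rp : Subgroup Rˣ,
      (∀ u : Rˣ, u ∉ Rp → ∀ g : Γ, ∃ y ∈ P, (g⁻¹ * y * g) • ((u : R) • η) ≠ (u : R) • η) ∧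
      (∀ w : Rˣ, (∀ y ∈ P, y • (w : R) = (w : R)) → w ∈ Rp) ∧ (Rp = ⊤ → Star M H P)

/-- [Pow] An element lies in a subgroup as soon as its powers of prime power order do.

PROOF.  Let `d` be the least `d ≥ 1` with `a ^ d ∈ Ker` (it exists and divides `orderOf a`).  If `d ≠ 1` let `q ∣ d` be prime, `q ∣ orderOf a = q^v m`, `q ∤ m`; `a ^ m` has order `q^v`, so `a ^ m ∈ Ker` by hypothesis, so `d ∣ m`, contradiction with `q ∣ d`. -/
def St_Pow : Prop :=
  ∀ (Γ : Type) [Group Γ] [Finite Γ] (a : Γ) (Ker : Subgroup Γ),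
    (∀ q i : ℕ, q.Prime → q ∣ orderOf a → (∃ k : ℕ, (a ^ i) ^ (q ^ k) = 1) → a ^ i ∈ Ker) → a ∈ Ker

/-- [VLx] hypotheses (h0 : St_RDx) (h1 : St_Prx) (h2 : St_Tr) (h3 : St_Mov) (h4 : St_Sc) (h5 : St_Eta) (h6 : St_Tor) (h7 : St_Cov) (h8 : St_Rp) (h9 : St_Pow);
may use `Pool.Agent.CCS.Bas`.  Assembly of the vector lemma: `theorem thm_VLx … : St_VL`.

PROOF.  `R, lam` from `St_RDx`, `Ω` from `St_Prx`.  `V ≠ 0` so `R` is nontrivial (`1 • v = v`) and there is a primitive `e₀`.  `O := {f ∈ Ω | ∃ h ∈ H, h • e₀ = f}`, `eO := ∑_{f ∈ O} f`: idempotent, `e₀ eO = e₀`, `h • eO = eO` for `h ∈ H`.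
`P p := {y | PEl A p y}`.  `S' := {p ∈ S | P p nontrivial on V, ∀ y ∈ P p, y • e₀ = e₀, ∀ y ∈ P p, (∀ r, y • r = r) → ∀ v, y • v = v}`.
For `p ∈ S'`, `y ∈ P p`: (i) `y` fixes every primitive `f = g • e₀` (`St_Tr`): `y • g • e₀ = g • y • e₀` (`Bas.comm_smul`); so `y • eO = eO`; (ii) if `f` is primitive and `y • (f r) = f r` for all `r`, then `y • r = r` for all `r`: every primitive is `f' = g • f`, `y • (f' r) = y • g • (f (g⁻¹ • r)) = g • y • (…) = f' r`, and `r = ∑_{f' ∈ Ω} f' r`;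
then `y` is trivial on `V`.  (iii) some `y ∈ P p` is nontrivial on `V`, so by (ii) there is `r` with `y • (e₀ r) ≠ e₀ r`.
`A' := {a ∈ A | every prime divisor of orderOf a is in S'}`, a subgroup (`A` abelian).  For `f ∈ O` and `a ∈ A'` with `a • (f r) = f r` for all `r`: `a` is trivial on `V`, by `St_Pow` with `Ker := {g | g trivial on V}` (a power `b = a ^ i` of `q`-power order, `q ∣ orderOf a` so `q ∈ S'`, is in `P q`, is trivial on `f R`, so on `V` by (ii)).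
`a ∈ A'` fixes every primitive idempotent (also by `St_Pow`, with `Ker :=` stabiliser of `f`, and (i)).  `St_Eta` gives `η f` for each `f ∈ O`; `η := ∑_{f ∈ O} η f`: fixed by `A'` (so by all `P p`, `p ∈ S'`), and `r • η = 0` implies, applying `f ∈ O`, `(f r) • η f = 0` so `f r = 0` (else `f r s = f` and `η f = f • η f = 0`), so `r eO = 0`.
`St_Rp` gives `Rp p ≤ Rˣ` for `p ∈ S'`.  `St_Cov` with `ι := {p ∈ S' | Rp p ≠ ⊤}` (torsion hypothesis: `St_Tor` and the second property of `Rp`; every `y ∈ P p` fixes every primitive) gives `u : Rˣ` outside these.  `v := u • η`.  `e₀ • v = u • η e₀ ≠ 0` (`e₀ ∈ O`), in particular `v ≠ 0`; `f • v = 0` for primitive `f ∉ O` (`f • η f' = f f' • η f' = 0`).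
Let `p ∈ S` with `P p` nontrivial on `V`.  If some `y ∈ P p` moves `e₀`: `St_Mov`, first alternative.  If some `y ∈ P p` is trivial on `R` and nontrivial on `V`: `St_Sc`.  Otherwise `p ∈ S'`: if `Rp p = ⊤`, `Star`; if not, `u ∉ Rp p` gives the first alternative. -/
def Doc_VLx : Prop := St_VL

/-! ## Final statements -/

/-- [Fin] hypotheses (h0 : St_Avg) (h1 : St_MC) (h2 : St_Nil).  The theorem (general form, nilpotent quotient, derived length at most 3). -/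
def St_Fin : Prop :=
  (∀ (G : Type) [Group G] [Finite G] (F M : Subgroup G), F.Normal → M.Normal → Group.IsNilpotent F →
    (∀ a ∈ M, ∀ b ∈ M, ⁅a, b⁆ ∈ F) →
    (∀ p : ℕ, p.Prime → Bur G p → ∀ P : Sylow p G, ∀ y ∈ (P : Subgroup G), ∀ g : G, ⁅y, g⁆ ∈ M) →
    ∃ g : G, (Rho G).ncard ≤ 3 * (Nat.card {h : G // IsConj g h}).primeFactors.card) ∧
  (∀ (G : Type) [Group G] [Finite G] (F M : Subgroup G) [F.Normal] [M.Normal], Group.IsNilpotent F →
    (∀ a ∈ M, ∀ b ∈ M, ⁅a, b⁆ ∈ F) → Group.IsNilpotent (G ⧸ M) →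
    ∃ g : G, (Rho G).ncard ≤ 3 * (Nat.card {h : G // IsConj g h}).primeFactors.card) ∧
  (∀ (G : Type) [Group G] [Finite G], derivedSeries G 3 = ⊥ →
    ∃ g : G, (Rho G).ncard ≤ 3 * (Nat.card {h : G // IsConj g h}).primeFactors.card)

end Pool.Agent.CCS
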