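import Mathlib
import Pool.Agent.CCS.Stmts

set_option autoImplicit false

/-!
# CCS: a simple module on which all commutators act trivially
-/

namespace Pool.Agent.CCS

open scoped commutatorElement

theorem thm_AbS : St_AbS := by
  intro Γ W _ _ _ hS hc y hy v hv g
  have hcomm : ∀ (a b : Γ) (w : W), a • b • w = b • a • w := by
    intro a b w
    have h1 : a * b = b * a * ⁅a⁻¹, b⁻¹⁆ := by
      rw [commutatorElement_def]; group
    calc a • b • w = (a * b) • w := (mul_smul a b w).symm
      _ = (b * a) • ⁅a⁻¹, b⁻¹⁆ • w := by rw [h1, mul_smul]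
      _ = b • a • w := by rw [hc, mul_smul]
  have h2 : (g⁻¹ * y * g) • v = y • v := by
    rw [mul_smul, mul_smul, hcomm y g v, ← mul_smul, inv_mul_cancel, one_smul]
  rw [h2]
  intro h3
  let C : AddSubgroup W :=
    { carrier := {w | y • w = w}
      add_mem' := by
        intro a b ha hb
        show y • (a + b) = a + b
        rw [smul_add]
        have ha' : y • a = a := ha
        have hb' : y • b = b := hb
        rw [ha', hb']
      zero_mem' := smul_zero y
      neg_mem' := by
        intro a ha
        show y • (-a) = -a
        rw [smul_neg]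
        have ha' : y • a = a := ha
        rw [ha'] }
  rcases hS.2 C (fun g w hw => by
    show y • g • w = g • w
    have hw' : y • w = w := hw
    rw [hcomm, hw']) with h | h
  · exact hv ((AddSubgroup.mem_bot).1 (h ▸ (show v ∈ C from h3)))
  · obtain ⟨w, hw⟩ := hy
    exact hw (show w ∈ C from h ▸ AddSubgroup.mem_top w)

end Pool.Agent.CCS
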