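import Mathlib
import Pool.Agent.CCS.Stmts

set_option autoImplicit false

/-!
# CCS: fixed elements of coprime automorphisms of a finite field (Artin)
-/

namespace Pool.Agent.CCS

open scoped commutatorElement

theorem thm_Art : St_Art := by
  intro E _ _ b y p n j hp hn hb hy hy1
  by_contra hc
  push Not at hc
  have : Finite (E ≃+* E) := Finite.of_injective (fun f : E ≃+* E => (f : E → E))
    DFunLike.coe_injective
  let B : Subgroup (E ≃+* E) := Subgroup.zpowers b
  have hfix : ∀ x : FixedPoints.subfield B E, y (x : E) = x := by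
    intro x
    apply hc
    exact x.2 ⟨b, Subgroup.mem_zpowers b⟩
  obtain ⟨g, hg⟩ := FixedPoints.toAlgAut_surjective B E
    (AlgEquiv.ofRingEquiv (R := FixedPoints.subfield B E) (f := y) (fun x => hfix x))
  have h1 : (g : E ≃+* E) = y := by
    ext e
    have := congrArg (fun f : E ≃ₐ[FixedPoints.subfield B E] E => f e) hg
    exact this
  have h2 : y ^ n = 1 := by
    have h3 : y ∈ Subgroup.zpowers b := h1 ▸ g.2
    obtain ⟨k, hk⟩ := Subgroup.mem_zpowers_iff.1 h3
    rw [← hk, ← zpow_natCast, ← zpow_mul, mul_comm, zpow_mul, zpow_natCast, hb, one_zpow]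
  have h4 : (p ^ j).Coprime n := Nat.Coprime.pow_left j ((Nat.Prime.coprime_iff_not_dvd hp).2 hn)
  have h5 := Nat.dvd_gcd (orderOf_dvd_of_pow_eq_one hy) (orderOf_dvd_of_pow_eq_one h2)
  rw [h4.gcd_eq_one, Nat.dvd_one, orderOf_eq_one_iff] at h5
  exact hy1 h5

end Pool.Agent.CCS
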