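import Mathlib
import Pool.Agent.CCS.Stmts

set_option autoImplicit false

/-!
# CCS Avd: class sizes and Sylow centralisers
-/

namespace Pool.Agent.CCS

open scoped commutatorElement

theorem Avd.card_eq {G : Type} [Group G] (x : G) :
    Nat.card {h : G // IsConj x h} = (Subgroup.centralizer {x}).index := by
  have h1 : Subgroup.centralizer {x} = (MulAction.stabilizer (ConjAct G) x).comap
      (ConjAct.toConjAct : G ≃* ConjAct G).toMonoidHom := by
    ext g
    rw [Subgroup.mem_centralizer_singleton_iff, Subgroup.mem_comap, MulAction.mem_stabilizer_iff]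
    change _ ↔ g * x * g⁻¹ = x
    rw [mul_inv_eq_iff_eq_mul]
  rw [h1, Subgroup.index_comap_of_surjective _ (MulEquiv.surjective _), MulAction.index_stabilizer,
    ← Nat.card_coe_set_eq]
  refine Nat.card_congr (Equiv.subtypeEquivRight fun h => ?_)
  rw [ConjAct.mem_orbit_conjAct]
  exact isConj_comm

theorem thm_Avd : St_Avd := by
  intro G _ _ p hp x
  have : Fact p.Prime := ⟨hp⟩
  rw [Avd.card_eq, ← not_iff_not, not_not]
  constructor
  · intro h
    set C := Subgroup.centralizer {x} with hC
    let Q : Sylow p C := default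
    have h2 : ((Q : Subgroup C).map C.subtype).index = (Q : Subgroup C).index * C.index :=
      Subgroup.index_map_subtype _
    have h3 : ¬ p ∣ ((Q : Subgroup C).map C.subtype).index := by
      rw [h2, hp.dvd_mul, not_or]
      exact ⟨Q.not_dvd_index, h⟩
    refine ⟨(Q.isPGroup'.map C.subtype).toSylow h3, ?_⟩
    intro y hy
    obtain ⟨z, -, rfl⟩ := Subgroup.mem_map.1 ((IsPGroup.mem_toSylow _ _).1 hy)
    exact (Subgroup.mem_centralizer_singleton_iff.1 z.2).symm
  · rintro ⟨P, hP⟩ h
    refine P.not_dvd_index (h.trans (Subgroup.index_dvd_of_le ?_))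
    intro y hy
    exact Subgroup.mem_centralizer_singleton_iff.2 (hP y hy).symm

end Pool.Agent.CCS
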