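import Mathlib
import Pool.Agent.CCS.Stmts

/-!
# CCS [Avg]: the averaging argument (helper25)
-/

set_option autoImplicit false

namespace Pool.Agent.CCS

open scoped commutatorElement

namespace Avg

variable {G : Type} [Group G]

lemma finite_Rho [Finite G] : (Rho G).Finite := by
  have h1 : Rho G = ⋃ x : G, ((Nat.card {h : G // IsConj x h}).primeFactors : Set ℕ) := by
    ext p
    simp [Rho]
  rw [h1]
  exact Set.finite_iUnion fun x => Finset.finite_toSet _

lemma prime_Rho {p : ℕ} (hp : p ∈ Rho G) : p.Prime := by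
  obtain ⟨x, hx⟩ := hp
  exact (Nat.mem_primeFactors.1 hx).1

lemma mem_pf [Finite G] (h0 : St_Avd) {p : ℕ} (hp : p.Prime) {x : G} (h : ¬ Avd G p x) :
    p ∈ (Nat.card {h : G // IsConj x h}).primeFactors := by
  haveI : Nonempty {h : G // IsConj x h} := ⟨⟨x, IsConj.refl x⟩⟩
  exact Nat.mem_primeFactors.2 ⟨hp, (h0 G p hp x).2 h, Nat.card_pos.ne'⟩

end Avg

open Classical in
theorem thm_Avg (h0 : St_Avd) : St_Avg := by
  intro G _ _ H x hyp
  haveI : Fintype G := Fintype.ofFinite G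
  obtain ⟨R, hR⟩ : ∃ R : Finset ℕ, ∀ p, p ∈ R ↔ p ∈ Rho G :=
    ⟨Avg.finite_Rho.toFinset, fun p => Set.Finite.mem_toFinset _⟩
  have hcard : (Rho G).ncard = R.card := by
    have h1 : Rho G = (R : Set ℕ) := by
      ext p
      exact (hR p).symm
    rw [h1, Set.ncard_coe_finset]
  obtain ⟨R1, hR1⟩ : ∃ R1, R1 = R.filter (fun p => ¬ Avd G p x) := ⟨_, rfl⟩
  obtain ⟨R2, hR2⟩ : ∃ R2, R2 = R.filter (fun p => Avd G p x) := ⟨_, rfl⟩
  have hsum : R.card = R2.card + R1.card := by
    rw [hR1, hR2, Finset.card_filter_add_card_filter_not]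
  have c1 : R1.card ≤ (Nat.card {h : G // IsConj x h}).primeFactors.card := by
    apply Finset.card_le_card
    intro p hp
    rw [hR1, Finset.mem_filter] at hp
    exact Avg.mem_pf h0 (Avg.prime_Rho ((hR p).1 hp.1)) hp.2
  obtain ⟨Hs, hHs⟩ : ∃ Hs : Finset G, Hs = Finset.univ.filter (fun h => h ∈ H) := ⟨_, rfl⟩
  have cH : Nat.card H = Hs.card := by
    rw [hHs, Nat.card_eq_fintype_card, Fintype.card_subtype]
  have cA : ∀ p, Nat.card {h : G // h ∈ H ∧ Avd G p h} =
      (Hs.filter (fun h => Avd G p h)).card := by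
    intro p
    rw [Nat.card_eq_fintype_card, Fintype.card_subtype, hHs, Finset.filter_filter]
  have hhalf : ∀ p ∈ R2, Hs.card ≤ 2 * (Hs.filter (fun h => ¬ Avd G p h)).card := by
    intro p hp
    rw [hR2, Finset.mem_filter] at hp
    have h1 := (hyp p ((hR p).1 hp.1)).resolve_left (not_not.2 hp.2)
    rw [cH, cA] at h1
    have h2 : (Hs.filter (fun h => Avd G p h)).card + (Hs.filter (fun h => ¬ Avd G p h)).card =
        Hs.card := Finset.card_filter_add_card_filter_not _
    omega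
  have hdc : ∑ h ∈ Hs, (R2.filter (fun p => ¬ Avd G p h)).card =
      ∑ p ∈ R2, (Hs.filter (fun h => ¬ Avd G p h)).card := by
    simp only [Finset.card_filter]
    exact Finset.sum_comm
  obtain ⟨h, hh, hc⟩ : ∃ h ∈ Hs, R2.card ≤ 2 * (R2.filter (fun p => ¬ Avd G p h)).card := by
    by_contra hcon
    push Not at hcon
    have hne : Hs.Nonempty := ⟨1, by
      rw [hHs, Finset.mem_filter]
      exact ⟨Finset.mem_univ _, H.one_mem⟩⟩
    have h1 : ∑ h ∈ Hs, 2 * (R2.filter (fun p => ¬ Avd G p h)).card < ∑ h ∈ Hs, R2.card :=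
      Finset.sum_lt_sum_of_nonempty hne hcon
    have h2 : ∑ p ∈ R2, Hs.card ≤ ∑ p ∈ R2, 2 * (Hs.filter (fun h => ¬ Avd G p h)).card :=
      Finset.sum_le_sum hhalf
    rw [← Finset.mul_sum, hdc, Finset.sum_const, smul_eq_mul] at h1
    rw [← Finset.mul_sum, Finset.sum_const, smul_eq_mul, mul_comm R2.card] at h2
    omega
  have c2 : (R2.filter (fun p => ¬ Avd G p h)).card ≤
      (Nat.card {h' : G // IsConj h h'}).primeFactors.card := by
    apply Finset.card_le_card
    intro p hp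
    rw [Finset.mem_filter, hR2, Finset.mem_filter] at hp
    exact Avg.mem_pf h0 (Avg.prime_Rho ((hR p).1 hp.1.1)) hp.2
  rw [hcard]
  by_cases hle : (Nat.card {h' : G // IsConj x h'}).primeFactors.card ≤
      (Nat.card {h' : G // IsConj h h'}).primeFactors.card
  · exact ⟨h, by omega⟩
  · exact ⟨x, by omega⟩

end Pool.Agent.CCS
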