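import Mathlib
import Pool.Agent.CCS.Stmts

set_option autoImplicit false

/-!
# CCS: module BQ, Schur-Zassenhaus in the normaliser of a Sylow subgroup
-/

namespace Pool.Agent.CCS

open scoped commutatorElement

namespace BQ

variable {G : Type} [Group G]

theorem cop {K A : Subgroup G} (h : KA G K A) : (Nat.card K).Coprime (Nat.card A) := by
  by_contra hc
  obtain ⟨r, hr, h1, h2⟩ := Nat.Prime.not_coprime_iff_dvd.mp hc
  by_cases hb : Bur G r
  · exact h.kb r hr hb h1
  · exact h.ab r hr hb h2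

theorem compl {K A : Subgroup G} (hn : K.Normal) (h1 : K ⊓ A = ⊥) (h2 : K ⊔ A = ⊤) :
    K.IsComplement' A := by
  refine Subgroup.isComplement'_of_disjoint_and_mul_eq_univ (disjoint_iff.mpr h1) ?_
  rw [← Subgroup.normal_mul, h2]; rfl

theorem dec {K A : Subgroup G} (hn : K.Normal) (h2 : K ⊔ A = ⊤) (g : G) :
    ∃ k ∈ K, ∃ x ∈ A, g = k * x := by
  have h3 : g ∈ (↑(K ⊔ A) : Set G) := by rw [h2]; trivial
  rw [Subgroup.normal_mul] at h3
  obtain ⟨k, hk, x, hx, h4⟩ := h3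
  exact ⟨k, hk, x, hx, h4.symm⟩

theorem comm_mem {K A : Subgroup G} (h : KA G K A) (a b : G) : ⁅a, b⁆ ∈ K := by
  have := h.norm
  obtain ⟨k, hk, x, hx, rfl⟩ := dec h.norm h.sup a
  obtain ⟨l, hl, y, hy, rfl⟩ := dec h.norm h.sup b
  rw [← QuotientGroup.eq_one_iff]
  have hk1 : (k : G ⧸ K) = 1 := (QuotientGroup.eq_one_iff k).mpr hk
  have hl1 : (l : G ⧸ K) = 1 := (QuotientGroup.eq_one_iff l).mpr hl
  have hxy : (x : G ⧸ K) * (y : G ⧸ K) = (y : G ⧸ K) * (x : G ⧸ K) := by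
    rw [← QuotientGroup.mk_mul, ← QuotientGroup.mk_mul, h.comm x hx y hy]
  rw [commutatorElement_def, QuotientGroup.mk_mul, QuotientGroup.mk_mul, QuotientGroup.mk_mul,
    QuotientGroup.mk_inv, QuotientGroup.mk_inv, QuotientGroup.mk_mul, QuotientGroup.mk_mul,
    hk1, hl1, one_mul, one_mul, hxy]
  group

theorem mem_of_pow {K : Subgroup G} {y : G} {m n : ℕ} (hco : m.Coprime n) (h1 : y ^ m ∈ K)
    (h2 : y ^ n ∈ K) : y ∈ K := by
  have h3 : y = (y ^ m) ^ (Nat.gcdA m n) * (y ^ n) ^ (Nat.gcdB m n) := by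
    rw [← zpow_natCast, ← zpow_natCast, ← zpow_mul, ← zpow_mul, ← zpow_add,
      ← Nat.gcd_eq_gcd_ab, hco]
    simp
  rw [h3]
  exact K.mul_mem (K.zpow_mem h1 _) (K.zpow_mem h2 _)

theorem mem_conj {t : ℕ} [Fact t.Prime] (P : Sylow t G) (x y : G) :
    y ∈ ((x • P : Sylow t G) : Subgroup G) ↔ x⁻¹ * y * x ∈ (P : Subgroup G) := by
  rw [Sylow.coe_subgroup_smul, Subgroup.mem_pointwise_smul_iff_inv_smul_mem]
  rw [← map_inv, MulAut.smul_def, MulAut.conj_apply, inv_inv]

end BQ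

open BQ in
theorem thm_BQ : St_BQ := by
  intro G _ _ K A h t ht hnb T hcen
  classical
  have : Fact t.Prime := ⟨ht⟩
  have hKn := h.norm
  have hidx : K.index = Nat.card A := (compl h.norm h.inf h.sup).symm.index_eq_card
  have hta : ¬ t ∣ Nat.card A := h.ab t ht hnb
  -- `T ≤ K`
  have hTK : (T : Subgroup G) ≤ K := by
    intro y hy
    obtain ⟨k, hk⟩ := T.isPGroup' ⟨y, hy⟩
    have hk' : y ^ t ^ k = 1 := by simpa using congrArg Subtype.val hk
    have h1 : y ^ K.index ∈ K := K.pow_index_mem y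
    have hco : (t ^ k).Coprime K.index := Nat.Coprime.pow_left k
      ((Nat.Prime.coprime_iff_not_dvd ht).mpr (by rw [hidx]; exact hta))
    exact mem_of_pow hco (by rw [hk']; exact K.one_mem) h1
  set Ng : Subgroup G := Subgroup.normalizer ((T : Subgroup G) : Set G) with hNg
  have hN : Ng ⊔ K = ⊤ := Sylow.normalizer_sup_eq_top' T hTK
  have hNrm : ∀ g ∈ Ng, Nrm (T : Subgroup G) g := by
    intro g hg y hy
    exact (Subgroup.mem_normalizer_iff.mp hg y).mp hy
  -- Schur-Zassenhaus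
  have hidx' : (K.subgroupOf Ng).index = Nat.card A := by
    have h1 := Subgroup.relIndex_sup_right Ng K
    rw [hN, Subgroup.relIndex_top_right] at h1
    rw [← hidx, h1]
    rfl
  have hcard' : Nat.card (K.subgroupOf Ng) ∣ Nat.card K :=
    Subgroup.card_comap_dvd_of_injective K Ng.subtype Subtype.val_injective
  have hcop' : (Nat.card (K.subgroupOf Ng)).Coprime (K.subgroupOf Ng).index := by
    rw [hidx']
    exact Nat.Coprime.coprime_dvd_left hcard' (cop h)
  obtain ⟨B', hB'⟩ := Subgroup.exists_right_complement'_of_coprime hcop'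
  set B : Subgroup G := B'.map Ng.subtype with hB
  have hBNg : ∀ b ∈ B, b ∈ Ng := by
    rintro _ ⟨b, _, rfl⟩
    exact b.2
  have hKB : K ⊓ B = ⊥ := by
    rw [eq_bot_iff]
    rintro x ⟨hxK, hxB⟩
    obtain ⟨b, hb, rfl⟩ := hxB
    have h1 : b ∈ K.subgroupOf Ng ⊓ B' := ⟨hxK, hb⟩
    rw [disjoint_iff.mp hB'.disjoint] at h1
    rw [Subgroup.mem_bot] at h1 ⊢
    rw [h1]; rfl
  have hNdec : ∀ g ∈ Ng, ∃ k ∈ K, ∃ b ∈ B, g = k * b ∧ k ∈ Ng := by
    intro g hg
    obtain ⟨k, hk, b, hb, hkb⟩ := dec (inferInstance : (K.subgroupOf Ng).Normal)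
      hB'.sup_eq_top ⟨g, hg⟩
    exact ⟨k, hk, b, ⟨b, hb, rfl⟩, congrArg Subtype.val hkb, k.2⟩
  have hKB2 : K ⊔ B = ⊤ := by
    rw [eq_top_iff, ← hN]
    refine sup_le ?_ le_sup_left
    intro g hg
    obtain ⟨k, hk, b, hb, hgkb, _⟩ := hNdec g hg
    rw [hgkb]
    exact Subgroup.mul_mem _ (Subgroup.mem_sup_left hk) (Subgroup.mem_sup_right hb)
  have hcompl : K.IsComplement' B := compl hKn hKB hKB2
  have hBcard : Nat.card B = Nat.card A := by
    rw [← hidx]; exact hcompl.symm.index_eq_card.symm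
  have hBidx : B.index = Nat.card K := hcompl.index_eq_card
  have hBab : ∀ a ∈ B, ∀ b ∈ B, a * b = b * a := by
    intro a ha b hb
    have h1 : ⁅a, b⁆ ∈ K ⊓ B := by
      refine ⟨comm_mem h a b, ?_⟩
      rw [commutatorElement_def]
      exact B.mul_mem (B.mul_mem (B.mul_mem ha hb) (B.inv_mem ha)) (B.inv_mem hb)
    rw [hKB, Subgroup.mem_bot] at h1
    exact commutatorElement_eq_one_iff_mul_comm.mp h1
  -- some element of `B` does not centralise `T`
  have hex : ∃ b ∈ B, ¬ Cen (T : Subgroup G) b := by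
    unfold Bur at hnb
    push Not at hnb
    obtain ⟨P, g, hg1, hg2⟩ := hnb
    obtain ⟨x, hx⟩ := MulAction.exists_smul_eq G P T
    have hmem : ∀ y, y ∈ (T : Subgroup G) ↔ x⁻¹ * y * x ∈ (P : Subgroup G) := by
      intro y
      rw [← hx]
      exact mem_conj P x y
    have hmem2 : ∀ y, y ∈ (P : Subgroup G) → x * y * x⁻¹ ∈ (T : Subgroup G) := by
      intro y hy
      rw [hmem]
      have : x⁻¹ * (x * y * x⁻¹) * x = y := by group
      rwa [this]
    have h1 : x * g * x⁻¹ ∈ Ng := by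
      refine Subgroup.mem_normalizer_fintype ?_
      intro y hy
      have h2 := hg1 _ ((hmem y).mp hy)
      have h3 := hmem2 _ h2
      have h4 : x * g * x⁻¹ * y * (x * g * x⁻¹)⁻¹ = x * (g * (x⁻¹ * y * x) * g⁻¹) * x⁻¹ := by
        group
      rw [h4]
      exact h3
    by_contra hall
    push Not at hall
    obtain ⟨k, hk, b, hb, hkb, hkN⟩ := hNdec _ h1
    have hc1 := hcen k hk (hNrm k hkN)
    have hc2 := hall b hb
    apply hg2
    intro y hy
    have hyT := hmem2 y hy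
    have h5 : (k * b) * (x * y * x⁻¹) = (x * y * x⁻¹) * (k * b) := by
      rw [mul_assoc, hc2 _ hyT, ← mul_assoc, hc1 _ hyT, mul_assoc]
    rw [← hkb] at h5
    have h6 : g * y = x⁻¹ * ((x * g * x⁻¹) * (x * y * x⁻¹)) * x := by group
    have h7 : y * g = x⁻¹ * ((x * y * x⁻¹) * (x * g * x⁻¹)) * x := by group
    rw [h6, h7, h5]
  -- the centraliser in `B`
  let C : Subgroup B := (Subgroup.centralizer ((T : Subgroup G) : Set G)).comap B.subtype
  have hC : ∀ b : B, b ∈ C ↔ Cen (T : Subgroup G) (b : G) := by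
    intro b
    change (b : G) ∈ Subgroup.centralizer ((T : Subgroup G) : Set G) ↔ _
    rw [Subgroup.mem_centralizer_iff]
    constructor
    · intro h1 y hy; exact (h1 y hy).symm
    · intro h1 y hy; exact (h1 y hy).symm
  have hC1 : C.index ≠ 1 := by
    intro h1
    rw [Subgroup.index_eq_one] at h1
    obtain ⟨b, hb, hbc⟩ := hex
    apply hbc
    have : (⟨b, hb⟩ : B) ∈ C := by rw [h1]; trivial
    exact (hC _).mp this
  have hs : (C.index.minFac).Prime := Nat.minFac_prime hC1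
  have hsA : C.index.minFac ∣ Nat.card A := by
    rw [← hBcard]
    exact (Nat.minFac_dvd _).trans (Subgroup.index_dvd_card C)
  have : Fact (C.index.minFac).Prime := ⟨hs⟩
  have hbur : Bur G C.index.minFac := by
    by_contra hnb2
    exact h.ab _ hs hnb2 hsA
  have hsK : ¬ C.index.minFac ∣ Nat.card K := h.kb _ hs hbur
  let Q0 : Sylow C.index.minFac B := default
  have hQ0 : ¬ (Q0 : Subgroup B) ≤ C := by
    intro hle
    have h1 : C.index ∣ (Q0 : Subgroup B).index := Subgroup.index_dvd_of_le hle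
    exact Q0.not_dvd_index ((Nat.minFac_dvd _).trans h1)
  obtain ⟨y, hyQ, hyC⟩ := SetLike.not_le_iff_exists.mp hQ0
  have hp1 : IsPGroup C.index.minFac ((Q0 : Subgroup B).map B.subtype) :=
    Q0.isPGroup'.map B.subtype
  have hi1 : ¬ C.index.minFac ∣ ((Q0 : Subgroup B).map B.subtype).index := by
    rw [Subgroup.index_map_subtype, hBidx, hs.dvd_mul]
    push Not
    exact ⟨Q0.not_dvd_index, hsK⟩
  refine ⟨B, C.index.minFac, hp1.toSylow hi1, hs, hsA, ?_, ?_, ?_, hBab, hKB, hKB2, ?_⟩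
  · intro he
    apply hta
    rw [← he]
    exact hsA
  · rintro _ ⟨z, _, rfl⟩
    exact z.2
  · intro b hb
    exact hNrm b (hBNg b hb)
  · refine ⟨(y : G), ⟨y, hyQ, rfl⟩, ?_⟩
    intro hc
    exact hyC ((hC y).mpr hc)

end Pool.Agent.CCS
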