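import Mathlib
import Pool.Agent.CCS.Stmts

set_option autoImplicit false

/-!
# CCS: basic lemmas on primitive idempotents and the action of `Γ` on `R`
-/

namespace Pool.Agent.CCS.Bas

open scoped commutatorElement

variable {Γ R V : Type} [Group Γ]

theorem prm_ne_zero [CommRing R] {e : R} (he : Prm e) : e ≠ 0 := he.2.1

theorem prm_idem [CommRing R] {e : R} (he : Prm e) : e * e = e := he.1

/-- the action maps primitive idempotents to primitive idempotents -/
theorem prm_smul [CommRing R] [MulSemiringAction Γ R] (g : Γ) {e : R} (he : Prm e) : Prm (g • e) := by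
  refine ⟨?_, ?_, ?_⟩
  · rw [← smul_mul', he.1]
  · intro h
    exact he.2.1 ((smul_eq_zero_iff_eq g).1 h)
  · intro r
    rcases he.2.2 (g⁻¹ • r) with h | ⟨s, hs⟩
    · left
      have := congrArg (fun x => g • x) h
      simpa [smul_mul', smul_inv_smul] using this
    · right
      refine ⟨g • s, ?_⟩
      have := congrArg (fun x => g • x) hs
      simpa [smul_mul', smul_inv_smul] using this

theorem prm_smul_iff [CommRing R] [MulSemiringAction Γ R] (g : Γ) {e : R} : Prm (g • e) ↔ Prm e := by
  constructor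
  · intro h
    have := prm_smul g⁻¹ h
    rwa [inv_smul_smul] at this
  · exact prm_smul g

/-- distinct primitive idempotents are orthogonal -/
theorem prm_orth [CommRing R] {e e' : R} (he : Prm e) (he' : Prm e') (h : e ≠ e') : e * e' = 0 := by
  rcases he.2.2 e' with h1 | ⟨s, hs⟩
  · exact h1
  rcases he'.2.2 e with h2 | ⟨s', hs'⟩
  · rw [mul_comm]; exact h2
  exfalso
  apply h
  have h3 : e * e' = e := by
    calc e * e' = (e * e' * s) * e' := by rw [hs]
      _ = e * (e' * e') * s := by ring
      _ = e := by rw [he'.1, hs]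
  have h4 : e' * e = e' := by
    calc e' * e = (e' * e * s') * e := by rw [hs']
      _ = e' * (e * e) * s' := by ring
      _ = e' := by rw [he.1, hs']
  rw [← h3, mul_comm, h4]

/-- in the field `e R`, a product with a nonzero element acts injectively on `e V` -/
theorem prm_smul_ne_zero [CommRing R] [AddCommGroup V] [Module R V] {e : R} (he : Prm e) {r : R} (hr : e * r ≠ 0)
    {v : V} (hv : e • v ≠ 0) : r • e • v ≠ 0 := by
  intro h
  rcases he.2.2 r with h1 | ⟨s, hs⟩
  · exact hr h1
  apply hv
  calc e • v = (e * r * s) • v := by rw [hs]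
    _ = s • r • e • v := by rw [smul_smul, smul_smul]; congr 1; ring
    _ = 0 := by rw [h, smul_zero]

/-- an element of `e R` (or its `e`-part) is invertible or zero -/
theorem prm_inv [CommRing R] {e : R} (he : Prm e) {r : R} (hr : e * r ≠ 0) : ∃ s : R, e * r * s = e := by
  rcases he.2.2 r with h1 | h2
  · exact absurd h1 hr
  · exact h2

section rd

variable [CommRing R] [AddCommGroup V] [Module R V] [MulSemiringAction Γ R] [DistribMulAction Γ V]
  {M : Subgroup Γ} {lam : Γ → R}

/-- elements of `P` act on `R` centrally: if `y ∈ P` and conjugation of `P` is controlled by `M` -/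
theorem comm_smul (hR : RD Γ R V M lam) {P : Set Γ} (hP : Cj M P) {y : Γ} (hy : y ∈ P) (g : Γ) (r : R) :
    y • g • r = g • y • r := by
  obtain ⟨m, hm, hc⟩ := hP g
  have h1 : (g⁻¹ * y * g) • r = y • r := by
    rw [hc y hy, mul_smul, mul_smul, hR.triv m hm, hR.triv m⁻¹ (M.inv_mem hm)]
  calc y • g • r = g • (g⁻¹ * y * g) • r := by
        rw [smul_smul, smul_smul]; congr 1; group
    _ = g • y • r := by rw [h1]

theorem lam_one (hR : RD Γ R V M lam) : lam 1 = 1 := by
  have : lam 1 - 1 = 0 := by
    apply hR.faith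
    intro v
    rw [sub_smul, ← hR.lamv 1 M.one_mem, one_smul, one_smul, sub_self]
  exact sub_eq_zero.1 this

theorem lam_mul (hR : RD Γ R V M lam) {m m' : Γ} (hm : m ∈ M) (hm' : m' ∈ M) : lam (m * m') = lam m * lam m' := by
  have : lam (m * m') - lam m * lam m' = 0 := by
    apply hR.faith
    intro v
    rw [sub_smul, ← hR.lamv _ (M.mul_mem hm hm'), mul_smul, mul_smul, hR.lamv m' hm', hR.lamv m hm, sub_self]
  exact sub_eq_zero.1 this

theorem lam_mul_inv (hR : RD Γ R V M lam) {m : Γ} (hm : m ∈ M) : lam m * lam m⁻¹ = 1 := by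
  rw [← lam_mul hR hm (M.inv_mem hm), mul_inv_cancel, lam_one hR]

theorem lam_inv_mul (hR : RD Γ R V M lam) {m : Γ} (hm : m ∈ M) : lam m⁻¹ * lam m = 1 := by
  rw [mul_comm, lam_mul_inv hR hm]

theorem isUnit_lam (hR : RD Γ R V M lam) {m : Γ} (hm : m ∈ M) : IsUnit (lam m) :=
  IsUnit.of_mul_eq_one _ (lam_mul_inv hR hm)

theorem lam_conj (hR : RD Γ R V M lam) (hM : M.Normal) {m : Γ} (hm : m ∈ M) (g : Γ) :
    lam (g * m * g⁻¹) = g • lam m := by
  have : lam (g * m * g⁻¹) - g • lam m = 0 := by
    apply hR.faith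
    intro v
    rw [sub_smul, ← hR.lamv _ (hM.conj_mem m hm g), sub_eq_zero]
    have h1 : v = g • g⁻¹ • v := by rw [smul_inv_smul]
    rw [mul_smul, mul_smul, hR.lamv m hm, hR.comp, smul_inv_smul]
  exact sub_eq_zero.1 this

end rd

end Pool.Agent.CCS.Bas
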