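import Mathlib
import Pool.Agent.CCS.Stmts

/-!
# CCS, module Cnt: the counting lemma
-/

set_option autoImplicit false

namespace Pool.Agent.CCS

open scoped commutatorElement

namespace Cnt

theorem nat_card {Γ : Type} [Fintype Γ] (Q : Γ → Prop) [DecidablePred Q] :
    Nat.card {x : Γ // Q x} = (Finset.univ.filter Q).card := by
  rw [Nat.card_eq_fintype_card, Fintype.card_subtype]

variable {Γ : Type} [Group Γ]

section fin

variable [Finite Γ]

/-- `|M| |D| ≤ |M ∩ D| |H|` -/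
theorem card_le (M H D : Subgroup Γ) (hMH : M ≤ H) (hDH : D ≤ H) :
    Nat.card M * Nat.card D ≤ Nat.card (M ⊓ D : Subgroup Γ) * Nat.card H := by
  have h1 : Nat.card (M ⊓ D : Subgroup Γ) * M.relIndex D = Nat.card D := by
    have h := Subgroup.relIndex_mul_relIndex (⊥ : Subgroup Γ) (M ⊓ D) D bot_le inf_le_right
    rwa [Subgroup.relIndex_bot_left, Subgroup.relIndex_bot_left, Subgroup.inf_relIndex_right] at h
  have h2 : Nat.card M * M.relIndex H = Nat.card H := by
    have h := Subgroup.relIndex_mul_relIndex (⊥ : Subgroup Γ) M H bot_le hMH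
    rwa [Subgroup.relIndex_bot_left, Subgroup.relIndex_bot_left] at h
  have h3 : M.relIndex D ≤ M.relIndex H := by
    refine Subgroup.relIndex_le_of_le_right hDH ?_
    intro h0
    rw [h0, mul_zero] at h2
    exact Nat.card_pos.ne h2
  calc Nat.card M * Nat.card D = Nat.card M * (Nat.card (M ⊓ D : Subgroup Γ) * M.relIndex D) := by
        rw [h1]
    _ ≤ Nat.card M * (Nat.card (M ⊓ D : Subgroup Γ) * M.relIndex H) := by gcongr
    _ = Nat.card (M ⊓ D : Subgroup Γ) * Nat.card H := by rw [← h2]; ring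

/-- a proper subgroup has at most half the size -/
theorem two_le (C E : Subgroup Γ) (hCE : C ≤ E) {m : Γ} (hm : m ∈ E) (hmC : m ∉ C) :
    2 * Nat.card C ≤ Nat.card E := by
  have h2 : Nat.card C * C.relIndex E = Nat.card E := by
    have h := Subgroup.relIndex_mul_relIndex (⊥ : Subgroup Γ) C E bot_le hCE
    rwa [Subgroup.relIndex_bot_left, Subgroup.relIndex_bot_left] at h
  have h3 : C.relIndex E ≠ 0 := by
    intro h0
    rw [h0, mul_zero] at h2
    exact Nat.card_pos.ne h2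
  have h4 : C.relIndex E ≠ 1 := by
    intro h1
    exact hmC (Subgroup.relIndex_eq_one.1 h1 hm)
  have h5 : 2 ≤ C.relIndex E := by omega
  rw [← h2, mul_comm]
  exact Nat.mul_le_mul_left _ h5

end fin

/-- the subgroup of the elements of `M` whose commutator with `z` is in `Z` -/
def Esub (M Z : Subgroup Γ) (z : Γ) (hn : M.Normal) (hab : ∀ a ∈ M, ∀ b ∈ M, a * b = b * a) :
    Subgroup Γ where
  carrier := {m | m ∈ M ∧ ⁅z, m⁆ ∈ Z}
  one_mem' := ⟨M.one_mem, by
    rw [commutatorElement_one_right]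
    exact Z.one_mem⟩
  mul_mem' := by
    rintro a b ⟨ha, ha'⟩ ⟨hb, hb'⟩
    refine ⟨M.mul_mem ha hb, ?_⟩
    have h1 : ⁅z, b⁆ ∈ M := by
      rw [commutatorElement_def]
      exact M.mul_mem (hn.conj_mem b hb z) (M.inv_mem hb)
    have h2 : ⁅z, a * b⁆ = ⁅z, a⁆ * ⁅z, b⁆ := by
      have h3 : ⁅z, a * b⁆ = ⁅z, a⁆ * (a * ⁅z, b⁆ * a⁻¹) := by
        simp only [commutatorElement_def]
        group
      rw [h3, hab a ha _ h1, mul_inv_cancel_right]
    rw [h2]
    exact Z.mul_mem ha' hb'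
  inv_mem' := by
    rintro a ⟨ha, ha'⟩
    refine ⟨M.inv_mem ha, ?_⟩
    have h1 : ⁅z, a⁆ ∈ M := by
      rw [commutatorElement_def]
      exact M.mul_mem (hn.conj_mem a ha z) (M.inv_mem ha)
    have h3 : ⁅z, a⁻¹⁆ = a⁻¹ * ⁅z, a⁆⁻¹ * a := by
      simp only [commutatorElement_def]
      group
    rw [h3, hab _ (M.inv_mem ha) _ (M.inv_mem h1), inv_mul_cancel_right]
    exact Z.inv_mem ha'

theorem mem_Esub (M Z : Subgroup Γ) (z : Γ) (hn : M.Normal)
    (hab : ∀ a ∈ M, ∀ b ∈ M, a * b = b * a) (m : Γ) :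
    m ∈ Esub M Z z hn hab ↔ m ∈ M ∧ ⁅z, m⁆ ∈ Z := Iff.rfl

/-- the lower bound for the number of the conjugating elements -/
theorem low [Finite Γ] (M H : Subgroup Γ) (P : Set Γ) (hM : M.Normal) (hH : H.Normal) (hMH : M ≤ H)
    (hab : ∀ a ∈ M, ∀ b ∈ M, a * b = b * a) (hCj : Cj M P) (hS : Star M H P) (x g : Γ)
    (hx : x ∈ H) (hg : ∀ y ∈ P, (g⁻¹ * y * g) * x = x * (g⁻¹ * y * g)) :
    2 * Nat.card (M ⊓ (H ⊓ Subgroup.centralizer P) : Subgroup Γ) ≤
      Nat.card {m : Γ // m ∈ M ∧ m * x * m⁻¹ ∈ H ⊓ Subgroup.centralizer P} := by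
  obtain ⟨m, hm, hmy⟩ := hCj g
  have hz : m * x * m⁻¹ ∈ H := hH.conj_mem x hx m
  have hzc : ∀ y ∈ P, (m * x * m⁻¹) * y = y * (m * x * m⁻¹) := by
    intro y hy
    have h1 := hg y hy
    rw [hmy y hy] at h1
    have h2 : y * (m * x * m⁻¹) = m * ((m⁻¹ * y * m) * x) * m⁻¹ := by group
    rw [h2, h1]
    group
  obtain ⟨z, hzdef⟩ : ∃ z, z = m * x * m⁻¹ := ⟨_, rfl⟩
  rw [← hzdef] at hz hzc
  have hzC : z ∈ Subgroup.centralizer P := by
    rw [Subgroup.mem_centralizer_iff]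
    intro y hy
    exact (hzc y hy).symm
  set Z : Subgroup Γ := Subgroup.centralizer P with hZ
  have hCE : M ⊓ (H ⊓ Z) ≤ Esub M Z z hM hab := by
    intro c hc
    refine ⟨hc.1, ?_⟩
    rw [commutatorElement_def]
    exact Z.mul_mem (Z.mul_mem (Z.mul_mem hzC hc.2.2) (Z.inv_mem hzC)) (Z.inv_mem hc.2.2)
  obtain ⟨m1, hm1, ⟨y1, hy1, hmy1⟩, hm1c⟩ := hS z hz hzc
  have h1 : m1 ∈ Esub M Z z hM hab := by
    refine ⟨hm1, ?_⟩
    rw [hZ, Subgroup.mem_centralizer_iff]
    intro y hy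
    exact (hm1c y hy).symm
  have h2 : m1 ∉ M ⊓ (H ⊓ Z) := by
    intro h
    have h3 : m1 ∈ Z := h.2.2
    rw [hZ, Subgroup.mem_centralizer_iff] at h3
    exact hmy1 (h3 y1 hy1).symm
  refine (two_le _ _ hCE h1 h2).trans ?_
  refine Nat.card_le_card_of_injective (fun e : Esub M Z z hM hab => (⟨e.1 * m, ?_⟩ :
    {m : Γ // m ∈ M ∧ m * x * m⁻¹ ∈ H ⊓ Z})) ?_
  · obtain ⟨e, he, hez⟩ := e
    refine ⟨M.mul_mem he hm, ?_⟩
    have h3 : e * m * x * (e * m)⁻¹ = ⁅z, e⁆⁻¹ * z := by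
      rw [hzdef, commutatorElement_def]
      group
    have h4 : ⁅z, e⁆ ∈ M := by
      rw [commutatorElement_def]
      exact M.mul_mem (hM.conj_mem e he z) (M.inv_mem he)
    change e * m * x * (e * m)⁻¹ ∈ H ⊓ Z
    rw [h3]
    exact ⟨H.mul_mem (H.inv_mem (hMH h4)) hz, Z.mul_mem (Z.inv_mem hez) hzC⟩
  · intro a b hab'
    have h3 : a.1 * m = b.1 * m := congrArg Subtype.val hab'
    exact Subtype.ext (mul_right_cancel h3)

end Cnt

open Cnt

/-- `St_Cnt` -/
theorem thm_Cnt : St_Cnt := by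
  classical
  intro Γ _ _ M H P hM hH hMH hab hCj hS
  have := Fintype.ofFinite Γ
  set D : Subgroup Γ := H ⊓ Subgroup.centralizer P with hD
  set C : Subgroup Γ := M ⊓ D with hC
  -- the sets
  set HF : Finset Γ := Finset.univ.filter (fun x => x ∈ H) with hHF
  set MF : Finset Γ := Finset.univ.filter (fun x => x ∈ M) with hMF
  set XF : Finset Γ := Finset.univ.filter (fun x => x ∈ H ∧
    ∃ g : Γ, ∀ y ∈ P, (g⁻¹ * y * g) * x = x * (g⁻¹ * y * g)) with hXF
  have cX : Nat.card {x : Γ // x ∈ H ∧ ∃ g : Γ, ∀ y ∈ P,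
      (g⁻¹ * y * g) * x = x * (g⁻¹ * y * g)} = XF.card := nat_card _
  have cH : Nat.card H = HF.card := nat_card (fun x => x ∈ H)
  have cM : Nat.card M = MF.card := nat_card (fun x => x ∈ M)
  have hsum : ∑ x ∈ HF, (MF.filter (fun m => m * x * m⁻¹ ∈ D)).card = Nat.card M * Nat.card D := by
    have h1 := Finset.sum_card_bipartiteAbove_eq_sum_card_bipartiteBelow (s := HF) (t := MF)
      (fun x m => m * x * m⁻¹ ∈ D)
    have h2 : ∀ m ∈ MF, (Finset.bipartiteBelow (fun x m => m * x * m⁻¹ ∈ D) HF m).card =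
        Nat.card D := by
      intro m _
      rw [show Nat.card D = (Finset.univ.filter (fun x => x ∈ D)).card from
        nat_card (fun x => x ∈ D)]
      refine Finset.card_nbij' (fun x => m * x * m⁻¹) (fun x => m⁻¹ * x * m) ?_ ?_ ?_ ?_
      · intro x hx
        rw [Finset.mem_coe, Finset.mem_bipartiteBelow] at hx
        simpa using hx.2
      · intro x hx
        have hx' : x ∈ D := by simpa using hx
        rw [Finset.mem_coe, Finset.mem_bipartiteBelow]
        refine ⟨?_, ?_⟩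
        · rw [hHF, Finset.mem_filter]
          refine ⟨Finset.mem_univ _, ?_⟩
          have h3 := hH.conj_mem x hx'.1 m⁻¹
          rwa [inv_inv] at h3
        · have h3 : m * (m⁻¹ * x * m) * m⁻¹ = x := by group
          rw [h3]
          exact hx'
      · intro x _
        change m⁻¹ * (m * x * m⁻¹) * m = x
        group
      · intro x _
        change m * (m⁻¹ * x * m) * m⁻¹ = x
        group
    rw [cM]
    refine Eq.trans ?_ (h1.trans ?_)
    · rfl
    · rw [Finset.sum_congr rfl h2, Finset.sum_const, smul_eq_mul]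
  have hlow : ∀ x ∈ XF, 2 * Nat.card C ≤ (MF.filter (fun m => m * x * m⁻¹ ∈ D)).card := by
    intro x hx
    rw [hXF, Finset.mem_filter] at hx
    obtain ⟨-, hxH, g, hg⟩ := hx
    have h1 := low M H P hM hH hMH hab hCj hS x g hxH hg
    refine h1.trans (le_of_eq ?_)
    rw [nat_card, hMF, Finset.filter_filter]
  have hXH : XF ⊆ HF := by
    intro x hx
    rw [hXF, Finset.mem_filter] at hx
    rw [hHF, Finset.mem_filter]
    exact ⟨hx.1, hx.2.1⟩
  have h1 : XF.card * (2 * Nat.card C) ≤ Nat.card C * Nat.card H := by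
    calc XF.card * (2 * Nat.card C) = ∑ x ∈ XF, 2 * Nat.card C := by
          rw [Finset.sum_const, smul_eq_mul]
      _ ≤ ∑ x ∈ XF, (MF.filter (fun m => m * x * m⁻¹ ∈ D)).card := Finset.sum_le_sum hlow
      _ ≤ ∑ x ∈ HF, (MF.filter (fun m => m * x * m⁻¹ ∈ D)).card :=
          Finset.sum_le_sum_of_subset hXH
      _ = Nat.card M * Nat.card D := hsum
      _ ≤ Nat.card C * Nat.card H := card_le M H D hMH inf_le_left
  have h2 : 0 < Nat.card C := Nat.card_pos
  rw [cX]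
  have h3 : Nat.card C * (2 * XF.card) ≤ Nat.card C * Nat.card H := by
    refine le_trans (le_of_eq ?_) h1
    ring
  exact Nat.le_of_mul_le_mul_left h3 h2

end Pool.Agent.CCS
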