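import Mathlib
import Pool.Agent.CCS.Stmts

set_option autoImplicit false

/-!
# CCS: the counting lemma in `G ⧸ F`
-/

namespace Pool.Agent.CCS

open scoped commutatorElement

namespace CntG

variable {G : Type} [Group G]

theorem inf_eq {K A F : Subgroup G} (h : K ⊓ A = ⊥) (hF : F ≤ K) {a : G} (ha : a ∈ A) (haF : a ∈ F) : a = 1 := by
  have : a ∈ K ⊓ A := ⟨hF haF, ha⟩
  rw [h, Subgroup.mem_bot] at this
  exact this

theorem pel_map {A F : Subgroup G} [F.Normal] {p : ℕ} {y : G} (hy : PEl A p y) :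
    PEl (A.map (QuotientGroup.mk' F)) p (QuotientGroup.mk y) := by
  obtain ⟨hA, k, hk⟩ := hy
  refine ⟨⟨y, hA, rfl⟩, k, ?_⟩
  rw [← QuotientGroup.mk_pow, hk, QuotientGroup.mk_one]

theorem pel_lift {K A F : Subgroup G} [F.Normal] (h : K ⊓ A = ⊥) (hF : F ≤ K) {p : ℕ} {y : G ⧸ F}
    (hy : PEl (A.map (QuotientGroup.mk' F)) p y) : ∃ y' : G, PEl A p y' ∧ QuotientGroup.mk y' = y := by
  obtain ⟨⟨a, ha, rfl⟩, k, hk⟩ := hy
  refine ⟨a, ⟨ha, k, ?_⟩, rfl⟩
  apply inf_eq h hF (A.pow_mem ha _)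
  rw [← QuotientGroup.eq_one_iff, QuotientGroup.mk_pow]
  exact hk

open scoped Pointwise in
theorem conj_syl [Finite G] {K A : Subgroup G} (h : KA G K A) {p : ℕ} (hp : p.Prime) (hB : Bur G p) (Q : Sylow p G) :
    ∃ g : G, ∀ y : G, PEl A p y → g⁻¹ * y * g ∈ (Q : Subgroup G) := by
  have := Fact.mk hp
  obtain ⟨P, hP⟩ := h.syl p hp hB
  obtain ⟨g, hg⟩ := MulAction.exists_smul_eq G P Q
  refine ⟨g⁻¹, fun y hy => ?_⟩
  rw [← hg]
  have h1 : y ∈ (P : Subgroup G) := (hP y).2 hy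
  have h3 := Subgroup.smul_mem_pointwise_smul y (MulAut.conj g) (P : Subgroup G) h1
  have h4 : g⁻¹⁻¹ * y * g⁻¹ = MulAut.conj g • y := by simp
  rw [h4]
  exact h3

end CntG

open CntG in
theorem thm_CntG (h0 : St_Cnt) (h1 : St_Conj) : St_CntG := by
  intro G _ _ K A F H _ hKA hFN hHn hKH hNF p hp hB hStar
  have hNK : NN K A ≤ K := inf_le_left
  have hFK : F ≤ K := hFN.trans hNK
  have := hKA.norm
  have hNn : (NN K A).Normal := by unfold NN; infer_instance
  have hMn : ((NN K A).map (QuotientGroup.mk' F)).Normal := hNn.map _ (QuotientGroup.mk'_surjective F)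
  have hHn' : (H.map (QuotientGroup.mk' F)).Normal := hHn.map _ (QuotientGroup.mk'_surjective F)
  have hMH : (NN K A).map (QuotientGroup.mk' F) ≤ H.map (QuotientGroup.mk' F) :=
    Subgroup.map_mono (hNK.trans hKH)
  have hMc : ∀ a ∈ (NN K A).map (QuotientGroup.mk' F), ∀ b ∈ (NN K A).map (QuotientGroup.mk' F),
      a * b = b * a := by
    rintro _ ⟨a, ha, rfl⟩ _ ⟨b, hb, rfl⟩
    rw [← commutatorElement_eq_one_iff_mul_comm, ← map_commutatorElement]
    exact (QuotientGroup.eq_one_iff _).2 (hNF a ha b hb)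
  have hCj : Cj ((NN K A).map (QuotientGroup.mk' F)) {y : G ⧸ F | PEl (A.map (QuotientGroup.mk' F)) p y} := by
    intro g
    obtain ⟨g, rfl⟩ := QuotientGroup.mk_surjective g
    obtain ⟨m, hm, hc⟩ := h1 G K A hKA p hp hB g
    refine ⟨QuotientGroup.mk m, ⟨m, hm, rfl⟩, ?_⟩
    intro y hy
    obtain ⟨y', hy', rfl⟩ := pel_lift hKA.inf hFK hy
    have := congrArg (fun z : G => (QuotientGroup.mk z : G ⧸ F)) (hc y' hy')
    simpa using this
  have key := h0 (G ⧸ F) ((NN K A).map (QuotientGroup.mk' F)) (H.map (QuotientGroup.mk' F))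
    {y : G ⧸ F | PEl (A.map (QuotientGroup.mk' F)) p y} hMn hHn' hMH hMc hCj hStar
  set X : Set (G ⧸ F) := {x | x ∈ H.map (QuotientGroup.mk' F) ∧ ∃ g : G ⧸ F,
    ∀ y ∈ {y : G ⧸ F | PEl (A.map (QuotientGroup.mk' F)) p y}, (g⁻¹ * y * g) * x = x * (g⁻¹ * y * g)} with hX
  have hcX : Nat.card {x : G ⧸ F // x ∈ H.map (QuotientGroup.mk' F) ∧ ∃ g : G ⧸ F,
    ∀ y ∈ {y : G ⧸ F | PEl (A.map (QuotientGroup.mk' F)) p y}, (g⁻¹ * y * g) * x = x * (g⁻¹ * y * g)} = Nat.card X := rfl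
  rw [hcX] at key
  -- the counted elements
  have h2 : Nat.card {h : G // h ∈ H ∧ Avd G p h} ≤ Nat.card F * Nat.card X := by
    rw [← QuotientGroup.card_preimage_mk]
    apply Nat.card_mono (Set.toFinite _)
    rintro h ⟨hH, Q, hQ⟩
    refine ⟨⟨h, hH, rfl⟩, ?_⟩
    obtain ⟨g, hg⟩ := conj_syl hKA hp hB Q
    refine ⟨QuotientGroup.mk g, fun y hy => ?_⟩
    obtain ⟨y', hy', rfl⟩ := pel_lift hKA.inf hFK hy
    have h3 := congrArg (fun z : G => (QuotientGroup.mk z : G ⧸ F)) (hQ _ (hg y' hy'))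
    simpa using h3.symm
  have h3 : Nat.card H = Nat.card F * Nat.card (H.map (QuotientGroup.mk' F)) := by
    have e1 : (QuotientGroup.mk ⁻¹' ((H.map (QuotientGroup.mk' F) : Subgroup (G ⧸ F)) : Set (G ⧸ F)) : Set G) = H := by
      have h4 : (H.map (QuotientGroup.mk' F)).comap (QuotientGroup.mk' F) = H := by
        rw [QuotientGroup.comap_map_mk', sup_eq_right]
        exact hFK.trans hKH
      have := congrArg (fun z : Subgroup G => (z : Set G)) h4
      exact this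
    have e2 := QuotientGroup.card_preimage_mk F ((H.map (QuotientGroup.mk' F) : Subgroup (G ⧸ F)) : Set (G ⧸ F))
    rw [e1] at e2
    exact e2
  calc 2 * Nat.card {h : G // h ∈ H ∧ Avd G p h} ≤ 2 * (Nat.card F * Nat.card X) := Nat.mul_le_mul_left 2 h2
    _ = Nat.card F * (2 * Nat.card X) := by ring
    _ ≤ Nat.card F * Nat.card (H.map (QuotientGroup.mk' F)) := Nat.mul_le_mul_left _ key
    _ = Nat.card H := h3.symm

end Pool.Agent.CCS
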