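import Mathlib
import Pool.Agent.CCS.Stmts

/-!
# CCS [Conj]: conjugation of the `p`-elements of `A` is controlled by `N`
-/

set_option autoImplicit false

namespace Pool.Agent.CCS

open scoped commutatorElement

/-- [Conj] -/
theorem thm_Conj : St_Conj := by
  intro G _ _ K A hKA p hp hB g
  haveI : Fact p.Prime := ⟨hp⟩
  haveI := hKA.norm
  obtain ⟨P, hP⟩ := hKA.syl p hp hB
  have hPR : (P : Subgroup G) ≤ Subgroup.normalClosure (A : Set G) := by
    intro y hy
    exact Subgroup.subset_normalClosure ((hP y).mp hy).1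
  have hF := Sylow.normalizer_sup_eq_top' P hPR
  have hg : g ∈ (Subgroup.normalizer (P : Set G)) ⊔ Subgroup.normalClosure (A : Set G) := by
    rw [hF]
    exact Subgroup.mem_top g
  obtain ⟨c, hc, r, hr, hcr⟩ := Subgroup.mem_sup_of_normal_right.mp hg
  have hcen : Cen (P : Subgroup G) c := hB P c fun y hy => (Subgroup.mem_normalizer_iff.mp hc y).mp hy
  have hr' : r ∈ A ⊔ K := by
    rw [sup_comm, hKA.sup]
    exact Subgroup.mem_top r
  obtain ⟨a, ha, n, hn, han⟩ := Subgroup.mem_sup_of_normal_right.mp hr'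
  refine ⟨n, ⟨hn, ?_⟩, fun y hy => ?_⟩
  · have h1 : n = a⁻¹ * r := by rw [← han, inv_mul_cancel_left]
    rw [h1]
    exact Subgroup.mul_mem _ (Subgroup.inv_mem _ (Subgroup.subset_normalClosure ha)) hr
  · have hyP : y ∈ (P : Subgroup G) := (hP y).mpr hy
    have h1 := hcen y hyP
    have h2 := hKA.comm a ha y hy.1
    rw [← hcr, ← han]
    have h3 : c⁻¹ * y * c = y := by
      rw [mul_assoc, ← h1, inv_mul_cancel_left]
    have h4 : a⁻¹ * y * a = y := by
      rw [mul_assoc, ← h2, inv_mul_cancel_left]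
    calc (c * (a * n))⁻¹ * y * (c * (a * n)) = n⁻¹ * (a⁻¹ * (c⁻¹ * y * c) * a) * n := by group
      _ = n⁻¹ * y * n := by rw [h3, h4]

end Pool.Agent.CCS
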