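import Mathlib
import Pool.Agent.CCS.Stmts

set_option autoImplicit false

namespace Pool.Agent.CCS

open scoped commutatorElement

namespace Cop

/-- conjugation by a normalising element, as an endomorphism of `T` -/
def cjh {G : Type} [Group G] (T : Subgroup G) (q : G) (h : Nrm T q) : T →* T where
  toFun x := ⟨q * (x : G) * q⁻¹, h x x.2⟩
  map_one' := by
    apply Subtype.ext
    simp
  map_mul' x y := by
    apply Subtype.ext
    simp [mul_assoc]

theorem comm_mem {G : Type} [Group G] (T Q : Subgroup G) (hN : ∀ q ∈ Q, Nrm T q) :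
    ⁅T, Q⁆ ≤ T := by
  rw [Subgroup.commutator_le]
  intro x hx q hq
  have h1 : q * x⁻¹ * q⁻¹ ∈ T := hN q hq x⁻¹ (T.inv_mem hx)
  have h2 : ⁅x, q⁆ = x * (q * x⁻¹ * q⁻¹) := by
    rw [commutatorElement_def]; group
  rw [h2]
  exact T.mul_mem hx h1

theorem part1 {G : Type} [Group G] [Finite G] (T Q : Subgroup G)
    (hT : ∀ a ∈ T, ∀ b ∈ T, a * b = b * a) (hN : ∀ q ∈ Q, Nrm T q)
    (hc : (Nat.card T).Coprime (Nat.card Q)) :
    ∀ x ∈ T, ∃ c ∈ T, ∃ y ∈ ⁅T, Q⁆, x = c * y ∧ Cen Q c := by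
  intro x hx
  let _ : CommGroup T :=
    { (inferInstance : Group T) with
      mul_comm := fun a b => Subtype.ext (hT a a.2 b b.2) }
  have _ : Fintype Q := Fintype.ofFinite Q
  obtain ⟨z, hz⟩ := (powCoprime hc).surjective ⟨x, hx⟩
  have hz' : z ^ Nat.card Q = (⟨x, hx⟩ : T) := hz
  let θ : T := ∏ q : Q, cjh T (q : G) (hN q q.2) z
  let y : T := ∏ q : Q, z * (cjh T (q : G) (hN q q.2) z)⁻¹
  have hmul : z ^ Nat.card Q = θ * y := by
    have : y = z ^ Nat.card Q * θ⁻¹ := by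
      show (∏ q : Q, z * (cjh T (q : G) (hN q q.2) z)⁻¹) = _
      rw [Finset.prod_mul_distrib, Finset.prod_inv_distrib, Finset.prod_const,
        Finset.card_univ, Nat.card_eq_fintype_card]
    rw [this, mul_comm θ, mul_assoc, inv_mul_cancel, mul_one]
  have hy : y ∈ (⁅T, Q⁆).subgroupOf T := by
    apply Subgroup.prod_mem
    intro q _
    rw [Subgroup.mem_subgroupOf]
    have h1 : ((z * (cjh T (q : G) (hN q q.2) z)⁻¹ : T) : G) = ⁅(z : G), (q : G)⁆ := by
      show (z : G) * ((q : G) * (z : G) * (q : G)⁻¹)⁻¹ = _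
      rw [commutatorElement_def]; group
    rw [h1]
    exact Subgroup.commutator_mem_commutator z.2 q.2
  have hθ : ∀ r : Q, cjh T (r : G) (hN r r.2) θ = θ := by
    intro r
    show cjh T (r : G) (hN r r.2) (∏ q : Q, cjh T (q : G) (hN q q.2) z) = _
    rw [map_prod]
    apply Fintype.prod_equiv (Equiv.mulLeft r)
    intro q
    apply Subtype.ext
    show (r : G) * ((q : G) * (z : G) * (q : G)⁻¹) * (r : G)⁻¹ =
      ((r : G) * (q : G)) * (z : G) * ((r : G) * (q : G))⁻¹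
    group
  refine ⟨θ, θ.2, y, hy, ?_, ?_⟩
  · have := congrArg (fun t : T => (t : G)) (hz'.symm.trans hmul)
    exact this
  · intro r hr
    have h1 := congrArg (fun t : T => (t : G)) (hθ ⟨r, hr⟩)
    have h2 : r * (θ : G) * r⁻¹ = (θ : G) := h1
    calc (θ : G) * r = (r * (θ : G) * r⁻¹) * r := by rw [h2]
      _ = r * (θ : G) := by group

theorem part2 {G : Type} [Group G] [Finite G] (T Q : Subgroup G)
    (hT : ∀ a ∈ T, ∀ b ∈ T, a * b = b * a) (hN : ∀ q ∈ Q, Nrm T q)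
    (hc : (Nat.card T).Coprime (Nat.card Q)) :
    ⁅T, Q⁆ ≤ ⁅⁅T, Q⁆, Q⁆ := by
  rw [Subgroup.commutator_le]
  intro x hx q hq
  obtain ⟨c, hcT, y, hy, hxy, hcen⟩ := part1 T Q hT hN hc x hx
  have hyT : y ∈ T := comm_mem T Q hN hy
  have h1 : ⁅y, q⁆ ∈ T := comm_mem T Q hN (Subgroup.commutator_mem_commutator hyT hq)
  have hcq : c * q = q * c := hcen q hq
  have hcq' : c⁻¹ * q⁻¹ = q⁻¹ * c⁻¹ := by
    rw [← mul_inv_rev, ← mul_inv_rev, hcq]
  have h2 : ⁅x, q⁆ = c * ⁅y, q⁆ * c⁻¹ := by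
    rw [hxy, commutatorElement_def, commutatorElement_def]
    calc c * y * q * (c * y)⁻¹ * q⁻¹ = c * y * q * y⁻¹ * (c⁻¹ * q⁻¹) := by group
      _ = c * y * q * y⁻¹ * (q⁻¹ * c⁻¹) := by rw [hcq']
      _ = c * (y * q * y⁻¹ * q⁻¹) * c⁻¹ := by group
  have h3 : c * ⁅y, q⁆ * c⁻¹ = ⁅y, q⁆ := by
    rw [hT c hcT _ h1]; group
  rw [h2, h3]
  exact Subgroup.commutator_mem_commutator hy hq

end Cop

/-- [Cop] coprime action on an abelian group. -/
theorem thm_Cop : St_Cop := by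
  intro G _ _ T Q hT hN hc
  exact ⟨Cop.part1 T Q hT hN hc, Cop.part2 T Q hT hN hc⟩

end Pool.Agent.CCS
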