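import Mathlib
import Pool.Agent.CCS.Stmts

set_option autoImplicit false

/-!
# CCS: the covering lemma
-/

namespace Pool.Agent.CCS

open scoped commutatorElement Pointwise

namespace Cov

/-- An element outside `R` has a power of prime power order outside `R`. -/
theorem exists_prime {W : Type} [CommGroup W] [Finite W] (R : Subgroup W) (hR : R ≠ ⊤) :
    ∃ (l j : ℕ) (w : W), l.Prime ∧ w ^ (l ^ j) = 1 ∧ w ∉ R := by
  by_contra hcon
  push Not at hcon
  apply hR
  rw [eq_top_iff]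
  intro w _
  by_contra hw
  have h1 : orderOf (w : W ⧸ R) ≠ 1 := by
    intro h
    rw [orderOf_eq_one_iff, QuotientGroup.eq_one_iff] at h
    exact hw h
  obtain ⟨q, hq, hqd⟩ := Nat.exists_prime_and_dvd h1
  have hne : orderOf w ≠ 0 := (orderOf_pos w).ne'
  obtain ⟨v, m, hm, hvm⟩ := Nat.exists_eq_pow_mul_and_not_dvd hne q hq.ne_one
  have h2 : (w ^ m) ^ (q ^ v) = 1 := by
    rw [← pow_mul, mul_comm, ← hvm, pow_orderOf_eq_one]
  have h3 : w ^ m ∈ R := hcon q v (w ^ m) hq h2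
  have h4 : orderOf (w : W ⧸ R) ∣ m := by
    apply orderOf_dvd_of_pow_eq_one
    rw [← QuotientGroup.mk_pow, QuotientGroup.eq_one_iff]
    exact h3
  exact hm (hqd.trans h4)

/-- the `l`-part of `W` -/
def Lp (W : Type) [CommGroup W] (l : ℕ) : Subgroup W where
  carrier := {w | ∃ j : ℕ, w ^ (l ^ j) = 1}
  one_mem' := ⟨0, one_pow _⟩
  mul_mem' := by
    rintro a b ⟨i, hi⟩ ⟨j, hj⟩
    refine ⟨i + j, ?_⟩
    rw [mul_pow, pow_add, pow_mul, hi, one_pow, one_mul, mul_comm (l ^ i), pow_mul, hj, one_pow]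
  inv_mem' := by
    rintro a ⟨i, hi⟩
    exact ⟨i, by rw [inv_pow, hi, inv_one]⟩

/-- the covering lemma for one prime -/
theorem one_prime {W ι : Type} [CommGroup W] [Finite W] (R : ι → Subgroup W)
    (p : ι → ℕ) (hp : Function.Injective p) (hpp : ∀ i, (p i).Prime) (l : ℕ) (hl : l.Prime)
    (s : Finset ι) (hs : ∀ i ∈ s, p i ≤ l) (hw : ∀ i ∈ s, ∃ w ∈ Lp W l, w ∉ R i) :
    ∃ u ∈ Lp W l, ∀ i ∈ s, u ∉ R i := by
  classical
  by_contra hcon
  push Not at hcon
  have hcov : ⋃ i ∈ s, (1 : Lp W l) • (((R i).subgroupOf (Lp W l) : Subgroup (Lp W l)) : Set (Lp W l)) =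
      Set.univ := by
    rw [Set.eq_univ_iff_forall]
    rintro ⟨u, hu⟩
    obtain ⟨i, hi, hui⟩ := hcon u hu
    simp only [one_smul, Set.mem_iUnion]
    exact ⟨i, hi, hui⟩
  obtain ⟨i, hi, -, hidx⟩ := Subgroup.exists_index_le_card_of_leftCoset_cover hcov
  have hcard : s.card ≤ l - 1 := by
    have h1 : (s.image p).card = s.card := Finset.card_image_of_injective s hp
    have h2 : s.image p ⊆ Finset.Icc 2 l := by
      intro q hq
      obtain ⟨i, hi, rfl⟩ := Finset.mem_image.1 hq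
      exact Finset.mem_Icc.2 ⟨(hpp i).two_le, hs i hi⟩
    have h3 := Finset.card_le_card h2
    rw [h1, Nat.card_Icc] at h3
    omega
  obtain ⟨w, hwL, hwR⟩ := hw i hi
  have hne1 : ((R i).subgroupOf (Lp W l)).index ≠ 1 := by
    intro h
    rw [Subgroup.index_eq_one] at h
    apply hwR
    have h2 : (⟨w, hwL⟩ : Lp W l) ∈ (R i).subgroupOf (Lp W l) := by
      rw [h]
      exact Subgroup.mem_top _
    exact h2
  obtain ⟨q, hq, hqd⟩ := Nat.exists_prime_and_dvd hne1
  have hqW : q ∣ Nat.card (Lp W l) := hqd.trans (Subgroup.index_dvd_card _)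
  have := Fact.mk hq
  obtain ⟨x, hx⟩ := exists_prime_orderOf_dvd_card' q hqW
  obtain ⟨j, hj⟩ := x.2
  have h3 : orderOf x ∣ l ^ j := orderOf_dvd_of_pow_eq_one (Subtype.ext hj)
  rw [hx] at h3
  have h4 : q = l := (Nat.prime_dvd_prime_iff_eq hq hl).1 (hq.dvd_of_dvd_pow h3)
  rw [h4] at hqd
  have h5 : l ≤ ((R i).subgroupOf (Lp W l)).index :=
    Nat.le_of_dvd (Nat.pos_of_ne_zero Subgroup.index_ne_zero_of_finite) hqd
  have h6 := hl.two_le
  omega

end Cov

/-- **[Cov]** the covering lemma. -/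
theorem thm_Cov : St_Cov := by
  intro W ι _ _ _ R p hp hpp hR htor
  classical
  have := Fintype.ofFinite ι
  have h1 : ∀ i, ∃ (l j : ℕ) (w : W), l.Prime ∧ w ^ (l ^ j) = 1 ∧ w ∉ R i := fun i =>
    Cov.exists_prime (R i) (hR i)
  choose l j w hl hw hwR using h1
  have hpl : ∀ i, p i ≤ l i := by
    intro i
    by_contra hlt
    push Not at hlt
    exact hwR i (htor i (l i) (j i) (hl i) hlt (w i) (hw i))
  have h2 : ∀ q : ℕ, ∃ u : W, q.Prime → ((∃ J : ℕ, u ^ (q ^ J) = 1) ∧ ∀ i, l i = q → u ∉ R i) := by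
    intro q
    by_cases hq : q.Prime
    · obtain ⟨u, hu, huR⟩ := Cov.one_prime R p hp hpp q hq (Finset.univ.filter fun i => l i = q)
        (by
          intro i hi
          rw [Finset.mem_filter] at hi
          rw [← hi.2]
          exact hpl i)
        (by
          intro i hi
          rw [Finset.mem_filter] at hi
          refine ⟨w i, ⟨j i, ?_⟩, hwR i⟩
          rw [← hi.2]
          exact hw i)
      refine ⟨u, fun _ => ⟨hu, fun i hi => huR i ?_⟩⟩
      rw [Finset.mem_filter]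
      exact ⟨Finset.mem_univ i, hi⟩
    · exact ⟨1, fun h => absurd h hq⟩
  choose u hu using h2
  have h3 : ∀ q : ℕ, ∃ J : ℕ, q.Prime → u q ^ (q ^ J) = 1 := by
    intro q
    by_cases hq : q.Prime
    · obtain ⟨J, hJ⟩ := (hu q hq).1
      exact ⟨J, fun _ => hJ⟩
    · exact ⟨0, fun h => absurd h hq⟩
  choose J hJ using h3
  have hprime : ∀ q ∈ Finset.univ.image l, q.Prime := by
    intro q hq
    obtain ⟨i, _, rfl⟩ := Finset.mem_image.1 hq
    exact hl i
  refine ⟨∏ q ∈ Finset.univ.image l, u q, fun i hi => ?_⟩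
  have hli : l i ∈ Finset.univ.image l := Finset.mem_image_of_mem l (Finset.mem_univ i)
  rw [← Finset.mul_prod_erase _ _ hli] at hi
  obtain ⟨n, hn⟩ : ∃ n : ℕ, n = ∏ q ∈ (Finset.univ.image l).erase (l i), q ^ J q := ⟨_, rfl⟩
  have h4 : (∏ q ∈ (Finset.univ.image l).erase (l i), u q) ^ n = 1 := by
    rw [← Finset.prod_pow]
    apply Finset.prod_eq_one
    intro q hq
    obtain ⟨m, hm⟩ : q ^ J q ∣ n := by
      rw [hn]
      exact Finset.dvd_prod_of_mem _ hq
    rw [hm, pow_mul, hJ q (hprime q (Finset.mem_of_mem_erase hq)), one_pow]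
  have h5 : u (l i) ^ n ∈ R i := by
    have h6 := (R i).pow_mem hi n
    rwa [mul_pow, h4, mul_one] at h6
  have hcop : Nat.Coprime n (l i ^ J (l i)) := by
    apply Nat.Coprime.pow_right
    rw [hn]
    apply Nat.Coprime.prod_left
    intro q hq
    apply Nat.Coprime.pow_left
    exact (Nat.coprime_primes (hprime q (Finset.mem_of_mem_erase hq)) (hl i)).2
      (Finset.ne_of_mem_erase hq)
  have h7 : orderOf ((u (l i) : W) : W ⧸ R i) ∣ n := by
    apply orderOf_dvd_of_pow_eq_one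
    rw [← QuotientGroup.mk_pow, QuotientGroup.eq_one_iff]
    exact h5
  have h8 : orderOf ((u (l i) : W) : W ⧸ R i) ∣ l i ^ J (l i) := by
    apply orderOf_dvd_of_pow_eq_one
    rw [← QuotientGroup.mk_pow, hJ (l i) (hl i), QuotientGroup.mk_one]
  have h9 := Nat.eq_one_of_dvd_coprimes hcop h7 h8
  rw [orderOf_eq_one_iff, QuotientGroup.eq_one_iff] at h9
  exact (hu (l i) (hl i)).2 i rfl h9

end Pool.Agent.CCS
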