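import Mathlib
import Pool.Agent.CCS.Stmts

/-!
# CCS [Cpl]: complements modulo `F ∩ Φ(G)` (helper25)
-/

set_option autoImplicit false

namespace Pool.Agent.CCS

open scoped commutatorElement

namespace Cpl

variable {G : Type} [Group G]

lemma prod {U L : Subgroup G} (hU : U.Normal) (h : U ⊔ L = ⊤) (g : G) :
    ∃ u ∈ U, ∃ l ∈ L, g = u * l := by
  have h1 : g ∈ (↑(U ⊔ L) : Set G) := by
    rw [h]
    exact Set.mem_univ g
  rw [Subgroup.normal_mul] at h1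
  obtain ⟨u, hu, l, hl, e⟩ := Set.mem_mul.1 h1
  exact ⟨u, hu, l, hl, e.symm⟩

lemma normal_of {U L W : Subgroup G} (hU : U.Normal) (h : U ⊔ L = ⊤)
    (h1 : ∀ u ∈ U, ∀ w ∈ W, u * w * u⁻¹ ∈ W) (h2 : ∀ l ∈ L, ∀ w ∈ W, l * w * l⁻¹ ∈ W) :
    W.Normal := by
  constructor
  intro w hw g
  obtain ⟨u, hu, l, hl, rfl⟩ := prod hU h g
  have h3 : u * l * w * (u * l)⁻¹ = u * (l * w * l⁻¹) * u⁻¹ := by group
  rw [h3]
  exact h1 u hu _ (h2 l hl w hw)

end Cpl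

theorem thm_Cpl : St_Cpl := by
  intro G _ _ F hF hcomm U hU hZU hUF
  obtain ⟨Z, hZ⟩ : ∃ Z, Z = F ⊓ frattini G := ⟨_, rfl⟩
  rw [← hZ] at hZU ⊢
  have hZF : Z ≤ F := by rw [hZ]; exact inf_le_left
  have hZf : Z ≤ frattini G := by rw [hZ]; exact inf_le_right
  have hcz : ∀ a ∈ F, ∀ b ∈ F, ⁅a, b⁆ ∈ Z := by
    intro a ha b hb
    rw [hZ]
    refine ⟨?_, hcomm a ha b hb⟩
    rw [commutatorElement_def]
    exact F.mul_mem (F.mul_mem (F.mul_mem ha hb) (F.inv_mem ha)) (F.inv_mem hb)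
  -- a minimal supplement
  obtain ⟨L, ⟨hZL, hUL⟩, hmin⟩ := (wellFounded_lt : WellFounded ((· < ·) : Subgroup G → Subgroup G → Prop)).has_min
    {L | Z ≤ L ∧ U ⊔ L = ⊤} ⟨⊤, le_top, sup_top_eq U⟩
  have hmin' : ∀ L' : Subgroup G, L' ≤ L → Z ≤ L' → U ⊔ L' = ⊤ → L' = L := by
    intro L' h1 h2 h3
    by_contra hne
    exact hmin L' ⟨h2, h3⟩ (lt_of_le_of_ne h1 hne)
  -- conjugation by elements of `U`
  have hconj : ∀ u ∈ U, ∀ w ∈ F, u * w * u⁻¹ = ⁅u, w⁆ * w := by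
    intro u _ w _
    rw [commutatorElement_def]
    group
  have hDn : (U ⊓ L).Normal := by
    refine Cpl.normal_of hU hUL ?_ ?_
    · intro u hu w hw
      rw [hconj u hu w (hUF hw.1)]
      have h1 := hcz u (hUF hu) w (hUF hw.1)
      exact ⟨U.mul_mem (hZU h1) hw.1, L.mul_mem (hZL h1) hw.2⟩
    · intro l hl w hw
      exact ⟨hU.conj_mem w hw.1 l, L.mul_mem (L.mul_mem hl hw.2) (L.inv_mem hl)⟩
  have hDf : U ⊓ L ≤ frattini G := by
    unfold frattini Order.radical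
    refine le_iInf₂ fun Q hQ => ?_
    by_contra hcon
    have h1 : (U ⊓ L) ⊔ Q = ⊤ := by
      have h2 : Q < (U ⊓ L) ⊔ Q := by
        refine lt_of_le_of_ne le_sup_right fun h3 => hcon ?_
        rw [h3]
        exact le_sup_left
      exact hQ.2 _ h2
    have hZQ : Z ≤ Q := hZf.trans (frattini_le_coatom hQ)
    have h2 : U ⊔ (L ⊓ Q) = ⊤ := by
      rw [eq_top_iff, ← hUL]
      refine sup_le le_sup_left fun l hl => ?_
      obtain ⟨d, hd, q, hq, rfl⟩ := Cpl.prod hDn h1 l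
      refine Subgroup.mul_mem _ (Subgroup.mem_sup_left hd.1) (Subgroup.mem_sup_right ⟨?_, hq⟩)
      have h3 : q = d⁻¹ * (d * q) := by group
      rw [h3]
      exact L.mul_mem (L.inv_mem hd.2) hl
    have h3 := hmin' _ inf_le_left (le_inf hZL hZQ) h2
    apply hcon
    have h4 : L ≤ Q := by
      rw [← h3]
      exact inf_le_right
    exact inf_le_right.trans h4
  refine ⟨F ⊓ L, ?_, le_inf hZF hZL, inf_le_left, ?_, ?_⟩
  · refine Cpl.normal_of hU hUL ?_ ?_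
    · intro u hu w hw
      rw [hconj u hu w hw.1]
      have h1 := hcz u (hUF hu) w hw.1
      exact ⟨F.mul_mem (hZF h1) hw.1, L.mul_mem (hZL h1) hw.2⟩
    · intro l hl w hw
      exact ⟨hF.conj_mem w hw.1 l, L.mul_mem (L.mul_mem hl hw.2) (L.inv_mem hl)⟩
  · refine le_antisymm (sup_le hUF inf_le_left) fun f hf => ?_
    obtain ⟨u, hu, l, hl, rfl⟩ := Cpl.prod hU hUL f
    refine Subgroup.mul_mem _ (Subgroup.mem_sup_left hu) (Subgroup.mem_sup_right ⟨?_, hl⟩)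
    have h3 : l = u⁻¹ * (u * l) := by group
    rw [h3]
    exact F.mul_mem (F.inv_mem (hUF hu)) hf
  · refine le_antisymm ?_ (le_inf hZU (le_inf hZF hZL))
    intro x hx
    have h1 : x ∈ frattini G := hDf ⟨hx.1, hx.2.2⟩
    rw [hZ]
    exact ⟨hx.2.1, h1⟩

end Pool.Agent.CCS
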