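import Mathlib
import Pool.Agent.CCS.Stmts

/-!
# CCS Dec: decomposition of `F / Z` into simple modules (helper56)
-/

set_option autoImplicit false

namespace Pool.Agent.CCS

open scoped commutatorElement

/-- [Dec] -/
theorem thm_Dec (h0 : St_Cpl) (h1 : St_Vm) (h2 : St_SS) : St_Dec := by
  intro G _ _ F hFn hF
  have hZn : (F ⊓ frattini G).Normal := inferInstance
  have hcF : ∀ a ∈ F, ∀ b ∈ F, ⁅a, b⁆ ∈ F ⊓ frattini G := by
    intro a ha b hb
    refine ⟨?_, hF a ha b hb⟩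
    rw [commutatorElement_def]
    exact F.mul_mem (F.mul_mem (F.mul_mem ha hb) (F.inv_mem ha)) (F.inv_mem hb)
  obtain ⟨V, iV, fV, aV, φ, p1, p2, p3, p4⟩ := h1 G F (F ⊓ frattini G) inf_le_left hcF
  have q1 : φ 1 = 0 := (p3 1 F.one_mem).mpr (F ⊓ frattini G).one_mem
  have q2 : ∀ x ∈ F, φ x⁻¹ = -φ x := by
    intro x hx
    have e1 := p1 x hx x⁻¹ (F.inv_mem hx)
    rw [mul_inv_cancel, q1] at e1
    exact (neg_eq_of_add_eq_zero_right e1.symm).symm
  have hcompl : ∀ U : AddSubgroup V, Inv (G ⧸ F) U →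
      ∃ W : AddSubgroup V, Inv (G ⧸ F) W ∧ U ⊓ W = ⊥ ∧ U ⊔ W = ⊤ := by
    intro U hU
    let U' : Subgroup G :=
      { carrier := {x | x ∈ F ∧ φ x ∈ U}
        mul_mem' := fun {x y} hx hy => ⟨F.mul_mem hx.1 hy.1, by
          rw [p1 x hx.1 y hy.1]
          exact U.add_mem hx.2 hy.2⟩
        one_mem' := ⟨F.one_mem, by
          rw [q1]
          exact U.zero_mem⟩
        inv_mem' := fun {x} hx => ⟨F.inv_mem hx.1, by
          rw [q2 x hx.1]
          exact U.neg_mem hx.2⟩ }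
    have hU'n : U'.Normal := by
      constructor
      intro x hx g
      refine ⟨hFn.conj_mem x hx.1 g, ?_⟩
      rw [p2 x hx.1 g]
      exact hU _ _ hx.2
    have hZU' : F ⊓ frattini G ≤ U' := by
      intro x hx
      refine ⟨hx.1, ?_⟩
      rw [(p3 x hx.1).mpr hx]
      exact U.zero_mem
    obtain ⟨W', w1, w2, w3, w4, w5⟩ := h0 G F hFn hF U' hU'n hZU' fun x hx => hx.1
    let W : AddSubgroup V :=
      { carrier := {v | ∃ x ∈ W', φ x = v}
        add_mem' := by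
          rintro _ _ ⟨x, hx, rfl⟩ ⟨y, hy, rfl⟩
          exact ⟨x * y, W'.mul_mem hx hy, p1 x (w3 hx) y (w3 hy)⟩
        zero_mem' := ⟨1, W'.one_mem, q1⟩
        neg_mem' := by
          rintro _ ⟨x, hx, rfl⟩
          exact ⟨x⁻¹, W'.inv_mem hx, q2 x (w3 hx)⟩ }
    refine ⟨W, ?_, ?_, ?_⟩
    · rintro γ _ ⟨x, hx, rfl⟩
      obtain ⟨g, rfl⟩ := QuotientGroup.mk_surjective γ
      exact ⟨g * x * g⁻¹, w1.conj_mem x hx g, p2 x (w3 hx) g⟩
    · rw [eq_bot_iff]
      rintro _ ⟨hv, x, hx, rfl⟩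
      have hxU : x ∈ U' := ⟨w3 hx, hv⟩
      have hxZ : x ∈ F ⊓ frattini G := by
        rw [← w5]
        exact ⟨hxU, hx⟩
      exact (AddSubgroup.mem_bot).mpr ((p3 x (w3 hx)).mpr hxZ)
    · rw [eq_top_iff]
      intro v _
      obtain ⟨x, hx, rfl⟩ := p4 v
      rw [← w4] at hx
      obtain ⟨u, hu, w, hw, rfl⟩ := Subgroup.mem_sup_of_normal_right.mp hx
      rw [p1 u hu.1 w (w3 hw)]
      exact AddSubgroup.add_mem_sup hu.2 ⟨w, hw, rfl⟩
  obtain ⟨n, V', i1, i2, i3, e, s1, s2, s3, s4, s5⟩ := h2 (G ⧸ F) V hcompl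
  refine ⟨n, V', i1, i2, i3, fun i x => e i (φ x), s1, ?_, ?_, ?_, ?_⟩
  · intro i x hx y hy
    change e i (φ (x * y)) = _
    rw [p1 x hx y hy, s2]
  · intro i x hx g
    change e i (φ (g * x * g⁻¹)) = _
    rw [p2 x hx g, s3]
  · intro x hx
    constructor
    · intro h
      exact (p3 x hx).mp (s4 _ h)
    · intro h i
      change e i (φ x) = 0
      rw [(p3 x hx).mpr h]
      have e1 := s2 i 0 0
      rw [add_zero] at e1
      exact left_eq_add.mp e1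
  · intro v
    obtain ⟨w, hw⟩ := s5 v
    obtain ⟨x, hx, rfl⟩ := p4 w
    exact ⟨x, hx, hw⟩

end Pool.Agent.CCS
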