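import Mathlib
import Pool.Agent.CCS.Stmts

set_option autoImplicit false

/-!
# CCS: module Eta, invariant vectors in `f V` for a primitive idempotent `f`
-/

namespace Pool.Agent.CCS

open scoped commutatorElement

namespace Eta

variable {A R V : Type} [Group A] [CommRing R] [AddCommGroup V] [Module R V]
  [MulSemiringAction A R] [DistribMulAction A V]

/-- the annihilator of `f` -/
def Ann (f : R) : Ideal R := LinearMap.ker (LinearMap.mulLeft R f)

theorem mem_Ann (f r : R) : r ∈ Ann f ↔ f * r = 0 := Iff.rfl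

theorem max_Ann {f : R} (hf : Prm f) : (Ann f).IsMaximal := by
  rw [Ideal.isMaximal_iff]
  refine ⟨?_, ?_⟩
  · rw [mem_Ann, mul_one]
    exact hf.2.1
  · intro J x hJ hx hxJ
    rw [mem_Ann] at hx
    rcases hf.2.2 x with h | ⟨s, hs⟩
    · exact absurd h hx
    · have h1 : (1 - x * s) ∈ J := by
        apply hJ
        rw [mem_Ann, mul_sub, mul_one, ← mul_assoc, hs, sub_self]
      have h2 := J.add_mem h1 (J.mul_mem_right s hxJ)
      rwa [sub_add_cancel] at h2

/-- `f V` -/
def Fix (V : Type) [AddCommGroup V] [Module R V] (f : R) : Submodule R V :=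
  LinearMap.ker (LinearMap.lsmul R V f - LinearMap.id)

theorem mem_Fix (f : R) (v : V) : v ∈ Fix V f ↔ f • v = v := by
  rw [Fix, LinearMap.mem_ker, LinearMap.sub_apply, sub_eq_zero]
  rfl

theorem comap_le {f : R} (hfa : ∀ a : A, a • f = f) (a : A) :
    Ann f ≤ Ideal.comap (MulSemiringAction.toRingHom A R a) (Ann f) := by
  intro r hr
  rw [mem_Ann] at hr
  rw [Ideal.mem_comap, mem_Ann]
  change f * (a • r) = 0
  calc f * (a • r) = (a • f) * (a • r) := by rw [hfa a]
    _ = a • (f * r) := by rw [smul_mul']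
    _ = 0 := by rw [hr, smul_zero]

/-- the action on the quotient -/
@[reducible] def act {f : R} (hfa : ∀ a : A, a • f = f) : MulSemiringAction A (R ⧸ Ann f) where
  smul a x := Ideal.quotientMap (Ann f) (MulSemiringAction.toRingHom A R a) (comap_le hfa a) x
  one_smul := by
    rintro ⟨r⟩
    change (Ideal.Quotient.mk (Ann f) ((1 : A) • r)) = Ideal.Quotient.mk (Ann f) r
    rw [one_smul]
  mul_smul := by
    rintro a b ⟨r⟩
    change (Ideal.Quotient.mk (Ann f) ((a * b) • r)) = Ideal.Quotient.mk (Ann f) (a • b • r)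
    rw [mul_smul]
  smul_zero := fun a => map_zero _
  smul_add := fun a x y => map_add _ x y
  smul_one := fun a => map_one _
  smul_mul := fun a x y => map_mul _ x y

theorem act_mk {f : R} (hfa : ∀ a : A, a • f = f) (a : A) (r : R) :
    (act hfa).smul a (Ideal.Quotient.mk (Ann f) r) = Ideal.Quotient.mk (Ann f) (a • r) := rfl

/-- the action on `f V` -/
@[reducible] def act2 {f : R} (hc : ∀ (g : A) (r : R) (v : V), g • (r • v) = (g • r) • (g • v))
    (hfa : ∀ a : A, a • f = f) : DistribMulAction A (Fix V f) where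
  smul a v := ⟨a • (v : V), by
    rw [mem_Fix]
    have h := (mem_Fix f (v : V)).1 v.2
    calc f • a • (v : V) = (a • f) • (a • (v : V)) := by rw [hfa a]
      _ = a • (v : V) := by rw [← hc, h]⟩
  one_smul := fun v => Subtype.ext (one_smul A (v : V))
  mul_smul := fun a b v => Subtype.ext (mul_smul a b (v : V))
  smul_zero := fun a => Subtype.ext (smul_zero a)
  smul_add := fun a v w => Subtype.ext (smul_add a (v : V) (w : V))

theorem tor (V : Type) [AddCommGroup V] [Module R V] (f : R) :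
    Module.IsTorsionBySet R (Fix V f) (Ann f : Set R) := by
  rintro ⟨v, hv⟩ ⟨r, hr⟩
  apply Subtype.ext
  change r • v = 0
  have h1 : f * r = 0 := hr
  have h2 := (mem_Fix f v).1 hv
  rw [← h2, smul_smul, mul_comm, h1, zero_smul]

theorem main (h0 : St_Hil) [Finite A] {f : R} (hf : Prm f)
    (hc : ∀ (g : A) (r : R) (v : V), g • (r • v) = (g • r) • (g • v))
    (hfa : ∀ a : A, a • f = f)
    (htr : ∀ a : A, (∀ r : R, a • (f * r) = f * r) → ∀ v : V, a • v = v)
    (hv : ∃ v : V, f • v ≠ 0) :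
    ∃ η : V, f • η = η ∧ η ≠ 0 ∧ ∀ a : A, a • η = η := by
  have hm := max_Ann hf
  let iF : Field (R ⧸ Ann f) := Ideal.Quotient.field (Ann f)
  let iM : Module (R ⧸ Ann f) (Fix V f) := (tor V f).module
  let iA := act hfa
  let iB := act2 (V := V) hc hfa
  have key := h0 (R ⧸ Ann f) (Fix V f) A ?_ ?_ ?_
  · obtain ⟨⟨u, hu⟩, h1, h2⟩ := key
    refine ⟨u, (mem_Fix f u).1 hu, fun h => h1 (Subtype.ext h), fun a => ?_⟩
    exact congrArg Subtype.val (h2 a)
  · rintro a ⟨r⟩ ⟨u, hu⟩
    apply Subtype.ext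
    exact hc a r u
  · intro a ha
    rintro ⟨u, hu⟩
    apply Subtype.ext
    refine htr a (fun r => ?_) u
    have h3 := ha (Ideal.Quotient.mk (Ann f) r)
    have h4 : Ideal.Quotient.mk (Ann f) (a • r) = Ideal.Quotient.mk (Ann f) r := h3
    rw [Ideal.Quotient.eq, mem_Ann, mul_sub, sub_eq_zero] at h4
    rw [smul_mul', hfa a, h4]
  · obtain ⟨v, hv⟩ := hv
    refine ⟨⟨f • v, ?_⟩, fun h => hv (congrArg Subtype.val h)⟩
    rw [mem_Fix, smul_smul, hf.1]

end Eta

theorem thm_Eta (h0 : St_Hil) : St_Eta := by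
  intro Γ R V _ _ _ _ _ _ _ A' hc f hf hfa htr hv
  obtain ⟨η, h1, h2, h3⟩ := Eta.main (A := A') (R := R) (V := V) h0 hf (fun g r v => hc g r v)
    (fun a => hfa a a.2) (fun a h => htr a a.2 h) hv
  exact ⟨η, h1, h2, fun a ha => h3 ⟨a, ha⟩⟩

end Pool.Agent.CCS
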