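import Mathlib
import Pool.Agent.CCS.Stmts

set_option autoImplicit false

/-!
# CCS FAb: a nilpotent normal subgroup is abelian modulo the Frattini subgroup
-/

namespace Pool.Agent.CCS

open scoped commutatorElement

theorem FAb.coatom {F : Type} [Group F] [Finite F] (hF : Group.IsNilpotent F) (Q : Subgroup F)
    (hQ : IsCoatom Q) (x y : F) : ⁅x, y⁆ ∈ Q := by
  have hQn : Q.Normal :=
    (Group.isNilpotent_of_finite_tfae (G := F)).out 0 2 rfl rfl |>.mp hF Q hQ
  have hnt : Nontrivial (F ⧸ Q) := QuotientGroup.nontrivial_iff.2 hQ.1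
  have hlt : commutator (F ⧸ Q) < ⊤ := Group.IsSolvable.commutator_lt_top_of_nontrivial _
  have hle : Q ≤ (commutator (F ⧸ Q)).comap (QuotientGroup.mk' Q) := by
    conv_lhs => rw [← QuotientGroup.ker_mk' Q]
    exact Subgroup.ker_le_comap _ _
  have hne : (commutator (F ⧸ Q)).comap (QuotientGroup.mk' Q) ≠ ⊤ := by
    intro h
    have h2 := Subgroup.map_comap_eq_self_of_surjective (QuotientGroup.mk'_surjective Q)
      (commutator (F ⧸ Q))
    rw [h, Subgroup.map_top_of_surjective _ (QuotientGroup.mk'_surjective Q)] at h2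
    exact hlt.ne h2.symm
  have heq : (commutator (F ⧸ Q)).comap (QuotientGroup.mk' Q) = Q :=
    (hQ.le_iff.1 hle).resolve_left hne
  rw [← heq, Subgroup.mem_comap, map_commutatorElement, commutator_def]
  exact Subgroup.commutator_mem_commutator (Subgroup.mem_top _) (Subgroup.mem_top _)

theorem thm_FAb : St_FAb := by
  intro G _ _ F hF hn a ha b hb
  simp only [frattini, Order.radical, Subgroup.mem_iInf]
  intro L hL
  by_contra hab
  have hL : IsCoatom L := hL
  have hD : (⁅F, F⁆ : Subgroup G).Normal := Subgroup.commutator_normal F F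
  have htop : ⁅F, F⁆ ⊔ L = ⊤ := by
    refine hL.2 _ (lt_of_le_of_ne le_sup_right fun h => hab ?_)
    rw [h]
    exact Subgroup.mem_sup_left (Subgroup.commutator_mem_commutator ha hb)
  have hH : L.subgroupOf F ≠ ⊤ := by
    intro h
    have h2 : F ≤ L := Subgroup.subgroupOf_eq_top.1 h
    exact hab (Subgroup.commutator_le.1 (le_refl ⁅L, L⁆ |>.trans L.commutator_le_self) a (h2 ha) b
      (h2 hb))
  obtain ⟨Q, hQ, hHQ⟩ := (eq_top_or_exists_le_coatom (L.subgroupOf F)).resolve_left hH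
  have hDQ : ⁅F, F⁆ ≤ Q.map F.subtype := by
    rw [Subgroup.commutator_le]
    intro g₁ h₁ g₂ h₂
    exact ⟨⁅⟨g₁, h₁⟩, ⟨g₂, h₂⟩⁆, FAb.coatom hn Q hQ _ _, rfl⟩
  refine hQ.1 (top_le_iff.1 fun f _ => ?_)
  have hf : (f : G) ∈ ⁅F, F⁆ ⊔ L := by rw [htop]; exact Subgroup.mem_top _
  obtain ⟨d, hd, l, hl, hdl⟩ := Subgroup.mem_sup_of_normal_left.1 hf
  have hdF : d ∈ F := Subgroup.commutator_le_self F hd
  have hlF : l ∈ F := by
    have : l = d⁻¹ * f := by rw [← hdl]; group
    rw [this]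
    exact F.mul_mem (F.inv_mem hdF) f.2
  obtain ⟨d', hd', hdd'⟩ := hDQ hd
  have hl' : (⟨l, hlF⟩ : F) ∈ Q := hHQ (Subgroup.mem_subgroupOf.2 hl)
  have hf' : f = d' * ⟨l, hlF⟩ := by
    apply Subtype.ext
    rw [← hdl, ← hdd']
    rfl
  rw [hf']
  exact Q.mul_mem hd' hl'

end Pool.Agent.CCS
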