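import Mathlib
import Pool.Agent.CCS.Stmts

set_option autoImplicit false

/-!
# CCS: module FF, the choice of the subgroup `F`
-/

namespace Pool.Agent.CCS

open scoped commutatorElement

namespace FF

private theorem cmul {G : Type} [Group G] (a b f : G) :
    ⁅a * b, f⁆ = a * ⁅b, f⁆ * a⁻¹ * ⁅a, f⁆ := by
  simp only [commutatorElement_def]
  group

private theorem cinv {G : Type} [Group G] (a f : G) : ⁅a⁻¹, f⁆ = a⁻¹ * ⁅a, f⁆⁻¹ * a⁻¹⁻¹ := by
  simp only [commutatorElement_def]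
  group

private theorem cconj {G : Type} [Group G] (g a f : G) :
    ⁅g * a * g⁻¹, f⁆ = g * ⁅a, g⁻¹ * f * g⁻¹⁻¹⁆ * g⁻¹ := by
  simp only [commutatorElement_def]
  group

/-- the elements of `N` acting trivially on `F / Z` -/
private def CC {G : Type} [Group G] (N F Z : Subgroup G) (hZ : Z.Normal) : Subgroup G where
  carrier := {n | n ∈ N ∧ ∀ f ∈ F, ⁅n, f⁆ ∈ Z}
  one_mem' := ⟨N.one_mem, fun f _ => by
    rw [commutatorElement_one_left]
    exact Z.one_mem⟩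
  mul_mem' := by
    rintro a b ⟨ha, ha'⟩ ⟨hb, hb'⟩
    refine ⟨N.mul_mem ha hb, fun f hf => ?_⟩
    rw [cmul]
    exact Z.mul_mem (hZ.conj_mem _ (hb' f hf) a) (ha' f hf)
  inv_mem' := by
    rintro a ⟨ha, ha'⟩
    refine ⟨N.inv_mem ha, fun f hf => ?_⟩
    rw [cinv]
    exact hZ.conj_mem _ (Z.inv_mem (ha' f hf)) _

end FF

open FF in
theorem thm_FF (h0 : St_Gas) (h1 : St_FAb) : St_FF := by
  intro G _ _ N F₀ M₀ hN hF₀ hM₀ hNM hnil hab
  have hfin : Finite (Subgroup G) := inferInstance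
  let S : Set (Subgroup G) := {X | X.Normal ∧ N ⊓ F₀ ≤ X ∧ X ≤ N ∧ Group.IsNilpotent X}
  have hSne : S.Nonempty := by
    refine ⟨N ⊓ F₀, Subgroup.normal_inf_normal N F₀, le_rfl, inf_le_left, ?_⟩
    rw [Subgroup.isNilpotent_iff_lowerCentralSeries] at hnil ⊢
    obtain ⟨n, hn⟩ := hnil
    refine ⟨n, ?_⟩
    rw [eq_bot_iff, ← hn]
    exact Subgroup.lowerCentralSeries_mono n inf_le_right
  obtain ⟨F, hFS, hFmax⟩ := S.toFinite.exists_maximal hSne
  obtain ⟨hFn, hF1, hFN, hFnil⟩ := hFS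
  have hcomm : ∀ a ∈ N, ∀ b ∈ N, ⁅a, b⁆ ∈ F := by
    intro a ha b hb
    apply hF1
    refine ⟨?_, hab a (hNM ha) b (hNM hb)⟩
    rw [commutatorElement_def]
    exact N.mul_mem (N.mul_mem (N.mul_mem ha hb) (N.inv_mem ha)) (N.inv_mem hb)
  refine ⟨F, hFn, hFN, hFnil, hcomm, ?_⟩
  have hZ : (F ⊓ frattini G).Normal := inferInstance
  have hFC : F ≤ CC N F (F ⊓ frattini G) hZ := by
    intro a ha
    refine ⟨hFN ha, fun b hb => ⟨?_, h1 G F hFn hFnil a ha b hb⟩⟩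
    rw [commutatorElement_def]
    exact F.mul_mem (F.mul_mem (F.mul_mem ha hb) (F.inv_mem ha)) (F.inv_mem hb)
  have hCn : (CC N F (F ⊓ frattini G) hZ).Normal := by
    refine ⟨?_⟩
    rintro a ⟨ha, ha'⟩ g
    refine ⟨hN.conj_mem a ha g, fun f hf => ?_⟩
    rw [cconj]
    exact hZ.conj_mem _ (ha' _ (hFn.conj_mem f hf g⁻¹)) g
  have hCnil : Group.IsNilpotent (CC N F (F ⊓ frattini G) hZ) := by
    refine h0 G (CC N F (F ⊓ frattini G) hZ) (F ⊓ frattini G) inf_le_right ?_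
    rw [Subgroup.isNilpotent_iff_lowerCentralSeries]
    refine ⟨2, ?_⟩
    rw [← Subgroup.map_lowerCentralSeries, Subgroup.map_eq_bot_iff, QuotientGroup.ker_mk']
    change ⁅⁅CC N F (F ⊓ frattini G) hZ, CC N F (F ⊓ frattini G) hZ⁆,
      CC N F (F ⊓ frattini G) hZ⁆ ≤ F ⊓ frattini G
    rw [Subgroup.commutator_le]
    intro x hx y hy
    have hxF : x ∈ F := by
      have h2 : ⁅CC N F (F ⊓ frattini G) hZ, CC N F (F ⊓ frattini G) hZ⁆ ≤ F := by
        rw [Subgroup.commutator_le]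
        intro a ha b hb
        exact hcomm a ha.1 b hb.1
      exact h2 hx
    rw [← commutatorElement_inv]
    exact (F ⊓ frattini G).inv_mem (hy.2 x hxF)
  intro n hn hn'
  have hCS : CC N F (F ⊓ frattini G) hZ ∈ S :=
    ⟨hCn, hF1.trans hFC, fun a ha => ha.1, hCnil⟩
  exact hFmax hCS hFC ⟨hn, hn'⟩

end Pool.Agent.CCS
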