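import Mathlib
import Pool.Agent.CCS.Stmts

set_option autoImplicit false

/-!
# CCS: the final statements
-/

namespace Pool.Agent.CCS

open scoped commutatorElement

theorem thm_Fin (h0 : St_Avg) (h1 : St_MC) (h2 : St_Nil) : St_Fin := by
  have A1 : ∀ (G : Type) [Group G] [Finite G] (F M : Subgroup G), F.Normal → M.Normal → Group.IsNilpotent F →
    (∀ a ∈ M, ∀ b ∈ M, ⁅a, b⁆ ∈ F) →
    (∀ p : ℕ, p.Prime → Bur G p → ∀ P : Sylow p G, ∀ y ∈ (P : Subgroup G), ∀ g : G, ⁅y, g⁆ ∈ M) →
    ∃ g : G, (Rho G).ncard ≤ 3 * (Nat.card {h : G // IsConj g h}).primeFactors.card := by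
    intro G _ _ F M hF hM hn hab hP
    obtain ⟨H, x, hx⟩ := h1 G F M hF hM hn hab hP
    exact h0 G H x hx
  have A2 : ∀ (G : Type) [Group G] [Finite G] (F M : Subgroup G) [F.Normal] [M.Normal], Group.IsNilpotent F →
    (∀ a ∈ M, ∀ b ∈ M, ⁅a, b⁆ ∈ F) → Group.IsNilpotent (G ⧸ M) →
    ∃ g : G, (Rho G).ncard ≤ 3 * (Nat.card {h : G // IsConj g h}).primeFactors.card := by
    intro G _ _ F M _ _ hn hab hM
    exact A1 G F M inferInstance inferInstance hn hab fun p hp hB P y hy g => h2 G M hM p hp hB P y hy g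
  refine ⟨A1, A2, ?_⟩
  intro G _ _ hder
  have hcomm : ∀ a ∈ derivedSeries G 2, ∀ b ∈ derivedSeries G 2, a * b = b * a := by
    intro a ha b hb
    have h3 : ⁅a, b⁆ ∈ derivedSeries G 3 := Subgroup.commutator_mem_commutator ha hb
    rw [hder, Subgroup.mem_bot, commutatorElement_eq_one_iff_mul_comm] at h3
    exact h3
  have hn : Group.IsNilpotent (derivedSeries G 2) := by
    letI : CommGroup (derivedSeries G 2) :=
      { (inferInstance : Group (derivedSeries G 2)) with
        mul_comm := fun a b => Subtype.ext (hcomm a a.2 b b.2) }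
    exact CommGroup.isNilpotent
  refine A2 G (derivedSeries G 2) (derivedSeries G 1) hn ?_ ?_
  · intro a ha b hb
    exact Subgroup.commutator_mem_commutator ha hb
  · letI : CommGroup (G ⧸ derivedSeries G 1) :=
      { (inferInstance : Group (G ⧸ derivedSeries G 1)) with
        mul_comm := by
          intro a b
          obtain ⟨a, rfl⟩ := QuotientGroup.mk_surjective a
          obtain ⟨b, rfl⟩ := QuotientGroup.mk_surjective b
          have h3 : ⁅a⁻¹, b⁻¹⁆ ∈ derivedSeries G 1 :=
            Subgroup.commutator_mem_commutator (Subgroup.mem_top _) (Subgroup.mem_top _)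
          change (QuotientGroup.mk (a * b) : G ⧸ derivedSeries G 1) = QuotientGroup.mk (b * a)
          rw [QuotientGroup.eq]
          have h4 : (a * b)⁻¹ * (b * a) = ⁅b⁻¹, a⁻¹⁆ := by rw [commutatorElement_def]; group
          rw [h4]
          exact Subgroup.commutator_mem_commutator (Subgroup.mem_top _) (Subgroup.mem_top _) }
    exact CommGroup.isNilpotent

end Pool.Agent.CCS
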