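import Mathlib
import Pool.Agent.CCS.Stmts

set_option autoImplicit false

/-!
# CCS, module Fix: a fixed unit whose component is not fixed (helper67)
-/

namespace Pool.Agent.CCS

open scoped commutatorElement

namespace Fix

variable {Γ R : Type} [Group Γ] [CommRing R] [MulSemiringAction Γ R]

private theorem prm_smul (g : Γ) {e : R} (he : Prm e) : Prm (g • e) := by
  refine ⟨?_, ?_, ?_⟩
  · rw [← smul_mul', he.1]
  · intro h
    exact he.2.1 ((smul_eq_zero_iff_eq g).1 h)
  · intro r
    rcases he.2.2 (g⁻¹ • r) with h | ⟨s, hs⟩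
    · left
      have h1 := congrArg (fun x => g • x) h
      simp only [smul_mul', smul_inv_smul, smul_zero] at h1
      exact h1
    · right
      refine ⟨g • s, ?_⟩
      have h1 := congrArg (fun x => g • x) hs
      simp only [smul_mul', smul_inv_smul] at h1
      exact h1

/-- the ideal of the elements killed by `e` -/
private def II (e : R) : Ideal R where
  carrier := {r | e * r = 0}
  add_mem' := by
    intro a b ha hb
    change e * (a + b) = 0
    rw [mul_add, show e * a = 0 from ha, show e * b = 0 from hb, add_zero]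
  zero_mem' := mul_zero e
  smul_mem' := by
    intro c x hx
    change e * (c * x) = 0
    rw [mul_left_comm, show e * x = 0 from hx, mul_zero]

private theorem mem_II (e r : R) : r ∈ II e ↔ e * r = 0 := Iff.rfl

private theorem II_max {e : R} (he : Prm e) : (II e).IsMaximal := by
  rw [Ideal.isMaximal_iff]
  constructor
  · rw [mem_II, mul_one]
    exact he.2.1
  · intro J x hJ hx hxJ
    rw [mem_II] at hx
    rcases he.2.2 x with h | ⟨s, hs⟩
    · exact absurd h hx
    · have h1 : 1 - e ∈ J := by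
        apply hJ
        rw [mem_II, mul_sub, mul_one, he.1, sub_self]
      have h2 : e ∈ J := by
        rw [← hs, mul_comm e x, mul_assoc]
        exact J.mul_mem_right _ hxJ
      have h3 := J.add_mem h1 h2
      rw [sub_add_cancel] at h3
      exact h3

private theorem II_le {e : R} (g : Γ) (hg : g • e = e) :
    II e ≤ (II e).comap (MulSemiringAction.toRingHom Γ R g) := by
  intro r hr
  rw [Ideal.mem_comap, mem_II]
  change e * (g • r) = 0
  rw [mem_II] at hr
  have h1 : g • (e * r) = e * (g • r) := by rw [smul_mul', hg]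
  rw [← h1, hr, smul_zero]

/-- the homomorphism of the quotient -/
private noncomputable def ho {e : R} (g : Γ) (hg : g • e = e) : R ⧸ II e →+* R ⧸ II e :=
  Ideal.quotientMap (II e) (MulSemiringAction.toRingHom Γ R g) (II_le g hg)

private theorem ho_mk {e : R} (g : Γ) (hg : g • e = e) (r : R) :
    ho g hg (Ideal.Quotient.mk (II e) r) = Ideal.Quotient.mk (II e) (g • r) :=
  Ideal.quotientMap_mk

private theorem inv_fix {e : R} (g : Γ) (hg : g • e = e) : g⁻¹ • e = e := by
  rw [inv_smul_eq_iff, hg]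

/-- the automorphism of the quotient -/
private noncomputable def au {e : R} (g : Γ) (hg : g • e = e) : R ⧸ II e ≃+* R ⧸ II e where
  toFun := ho g hg
  invFun := ho g⁻¹ (inv_fix g hg)
  left_inv := by
    intro x
    obtain ⟨r, rfl⟩ := Ideal.Quotient.mk_surjective x
    rw [ho_mk, ho_mk, inv_smul_smul]
  right_inv := by
    intro x
    obtain ⟨r, rfl⟩ := Ideal.Quotient.mk_surjective x
    rw [ho_mk, ho_mk, smul_inv_smul]
  map_mul' := map_mul _
  map_add' := map_add _

private theorem au_mk {e : R} (g : Γ) (hg : g • e = e) (r : R) :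
    au g hg (Ideal.Quotient.mk (II e) r) = Ideal.Quotient.mk (II e) (g • r) := ho_mk g hg r

private theorem au_pow {e : R} (g : Γ) (hg : g • e = e) (m : ℕ) (r : R) :
    (au g hg ^ m) (Ideal.Quotient.mk (II e) r) = Ideal.Quotient.mk (II e) (g ^ m • r) := by
  induction m with
  | zero => rw [pow_zero, pow_zero, one_smul]; rfl
  | succ m ih =>
    rw [pow_succ', RingAut.mul_apply, ih, au_mk, smul_smul, ← pow_succ']

private theorem au_one {e : R} (g : Γ) (hg : g • e = e) (m : ℕ) (hm : g ^ m = 1) :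
    au g hg ^ m = 1 := by
  apply RingEquiv.ext
  intro x
  obtain ⟨r, rfl⟩ := Ideal.Quotient.mk_surjective x
  rw [au_pow, hm, one_smul]
  rfl

/-- the element `r₀` -/
private theorem exr [Finite R] (h1 : St_Art) (y b : Γ) (e : R) (p n j : ℕ) (hp : p.Prime)
    (hn : ¬ p ∣ n) (hb : b ^ n = 1) (hy : y ^ (p ^ j) = 1) (he : Prm e) (hbe : b • e = e)
    (hye : y • e = e) (hr : ∃ r : R, y • (e * r) ≠ e * r) :
    ∃ r : R, e * (b • r) = e * r ∧ e * (y • r) ≠ e * r := by
  have hmax := II_max he
  let _ := Ideal.Quotient.field (II e)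
  have hfin : Finite (R ⧸ II e) := Finite.of_surjective _ (Ideal.Quotient.mk_surjective (I := II e))
  have hne : au y hye ≠ 1 := by
    intro h0
    obtain ⟨r, hr⟩ := hr
    apply hr
    have h2 := RingEquiv.congr_fun h0 (Ideal.Quotient.mk (II e) r)
    rw [au_mk] at h2
    have h3 : Ideal.Quotient.mk (II e) (y • r) = Ideal.Quotient.mk (II e) r := h2
    rw [Ideal.Quotient.eq, mem_II, mul_sub, sub_eq_zero] at h3
    rw [smul_mul', hye, h3]
  obtain ⟨x, hx1, hx2⟩ := h1 (R ⧸ II e) (au b hbe) (au y hye) p n j hp hn (au_one b hbe n hb)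
    (au_one y hye (p ^ j) hy) hne
  obtain ⟨r, rfl⟩ := Ideal.Quotient.mk_surjective x
  rw [au_mk, Ideal.Quotient.eq, mem_II, mul_sub, sub_eq_zero] at hx1
  rw [au_mk, Ne, Ideal.Quotient.eq, mem_II, mul_sub, sub_eq_zero] at hx2
  exact ⟨r, hx1, hx2⟩

end Fix

theorem thm_Fix (h0 : St_Prx) (h1 : St_Art) : St_Fix := by
  intro Γ R _ _ _ _ _ y z e p n j hp hn hz hy he hye hr
  classical
  have hn0 : 1 ≤ n := by
    rcases Nat.eq_zero_or_pos n with h | h
    · exact absurd (h ▸ dvd_zero p) hn
    · exact h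
  have hex : ∃ k, 1 ≤ k ∧ z ^ k • e = e := ⟨n, hn0, by rw [hz, one_smul]⟩
  obtain ⟨k, hk1, hke, hmin⟩ : ∃ k, 1 ≤ k ∧ z ^ k • e = e ∧
      ∀ m, m < k → ¬ (1 ≤ m ∧ z ^ m • e = e) :=
    ⟨Nat.find hex, (Nat.find_spec hex).1, (Nat.find_spec hex).2, fun m hm => Nat.find_min hex hm⟩
  obtain ⟨r₀, hr1, hr2⟩ := Fix.exr h1 y (z ^ k) e p n j hp hn
    (by rw [← pow_mul, mul_comm, pow_mul, hz, one_pow]) hy he hke hye hr
  obtain ⟨Ω, hΩ1, hΩ2, -⟩ := h0 R
  -- orthogonality
  have horth : ∀ i < k, ∀ m < k, i ≠ m → (z ^ i • e) * (z ^ m • e) = 0 := by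
    have key : ∀ i m, i < m → m < k → z ^ i • e ≠ z ^ m • e := by
      intro i m him hmk h
      apply hmin (m - i) (by omega)
      refine ⟨by omega, ?_⟩
      have h2 : z ^ m = z ^ i * z ^ (m - i) := by rw [← pow_add]; congr 1; omega
      rw [h2, mul_smul] at h
      exact (smul_left_cancel (z ^ i) h).symm
    intro i hi m hm him
    refine hΩ2 _ ((hΩ1 _).2 (Fix.prm_smul _ he)) _ ((hΩ1 _).2 (Fix.prm_smul _ he)) ?_
    rcases lt_or_gt_of_ne him with h | h
    · exact key i m h hm
    · exact (key m i h hi).symm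
  -- the sums
  obtain ⟨s, hs⟩ : ∃ s : R → R, ∀ r, s r = ∑ i ∈ Finset.range k, z ^ i • r := ⟨_, fun _ => rfl⟩
  have hsm : ∀ r r' : R, s (e * r) * s (e * r') = s (e * r * (e * r')) := by
    intro r r'
    rw [hs, hs, hs, Finset.sum_mul_sum]
    refine Finset.sum_congr rfl fun i hi => ?_
    rw [Finset.sum_eq_single i]
    · rw [← smul_mul']
    · intro m hm hmi
      have h2 := horth i (Finset.mem_range.1 hi) m (Finset.mem_range.1 hm) hmi.symm
      rw [smul_mul', smul_mul']
      calc z ^ i • e * z ^ i • r * (z ^ m • e * z ^ m • r') =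
          (z ^ i • e * z ^ m • e) * (z ^ i • r * z ^ m • r') := by ring
        _ = 0 := by rw [h2, zero_mul]
    · intro h
      exact absurd hi h
  have hse : ∀ r : R, e * s (e * r) = e * r := by
    intro r
    rw [hs, Finset.mul_sum, Finset.sum_eq_single 0]
    · rw [pow_zero, one_smul, ← mul_assoc, he.1]
    · intro m hm hm0
      have h2 := horth 0 (by omega) m (Finset.mem_range.1 hm) hm0.symm
      rw [pow_zero, one_smul] at h2
      rw [smul_mul', ← mul_assoc, h2, zero_mul]
    · intro h
      exact absurd (Finset.mem_range.2 (by omega)) h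
  have hsz : ∀ r : R, z ^ k • r = r → z • s r = s r := by
    intro r h
    rw [hs, Finset.smul_sum]
    have h2 : ∑ i ∈ Finset.range k, z • z ^ i • r = ∑ i ∈ Finset.range k, z ^ (i + 1) • r := by
      refine Finset.sum_congr rfl fun i _ => ?_
      rw [smul_smul, ← pow_succ']
    rw [h2]
    have h3 := Finset.sum_range_succ (fun i => z ^ i • r) k
    rw [Finset.sum_range_succ', h, pow_zero, one_smul] at h3
    exact add_right_cancel h3
  have hr0 : e * r₀ ≠ 0 := by
    intro h
    apply hr2
    have h2 : y • (e * r₀) = e * (y • r₀) := by rw [smul_mul', hye]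
    rw [← h2, h, smul_zero]
  obtain ⟨t, ht⟩ : ∃ t, e * r₀ * t = e := by
    rcases he.2.2 r₀ with h | h
    · exact absurd h hr0
    · exact h
  have hee : s e = s (e * 1) := by rw [mul_one]
  have e1 : s (e * r₀) * s (e * t) = s e := by
    rw [hsm]
    congr 1
    calc e * r₀ * (e * t) = (e * e) * r₀ * t := by ring
      _ = e := by rw [he.1, ht]
  have e2 : ∀ r, s (e * r) * s e = s (e * r) := by
    intro r
    rw [hee, hsm]
    congr 1
    calc e * r * (e * 1) = (e * e) * r := by ring
      _ = e * r := by rw [he.1]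
  have e3 : s e * s e = s e := by
    have h2 := e2 1
    rw [← hee] at h2
    exact h2
  have huv : (s (e * r₀) + (1 - s e)) * (s (e * t) + (1 - s e)) = 1 := by
    calc (s (e * r₀) + (1 - s e)) * (s (e * t) + (1 - s e)) =
        s (e * r₀) * s (e * t) + (s (e * r₀) - s (e * r₀) * s e) + (s (e * t) - s (e * t) * s e) +
          (1 - 2 * s e + s e * s e) := by ring
      _ = 1 := by rw [e1, e2, e2, e3]; ring
  refine ⟨Units.mkOfMulEqOne _ _ huv, ?_, ?_⟩
  · rw [Units.val_mkOfMulEqOne, smul_add, smul_sub, smul_one, hsz e hke, hsz (e * r₀)]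
    rw [smul_mul', hke, hr1]
  · rw [Units.val_mkOfMulEqOne]
    have h2 : e * (s (e * r₀) + (1 - s e)) = e * r₀ := by
      rw [mul_add, hse, hee, mul_sub, hse, mul_one, sub_self, add_zero]
    rw [h2, smul_mul', hye]
    exact hr2

end Pool.Agent.CCS
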