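import Mathlib
import Pool.Agent.CCS.Stmts

/-!
# CCS/Gas (helper55): the lemma of Gaschuetz
-/

set_option autoImplicit false

namespace Pool.Agent.CCS

open scoped commutatorElement

namespace Gas

/-- the relative index of a subgroup of `K`, taken in `K` -/
theorem relIndex_map {G : Type} [Group G] (K : Subgroup G) (Q : Subgroup K) :
    (Q.map K.subtype).relIndex K = Q.index := by
  rw [Subgroup.relIndex, Subgroup.subgroupOf, Subgroup.comap_map_eq_self_of_injective K.subtype_injective]

end Gas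

open Gas in
/-- `St_Gas`. -/
theorem thm_Gas : St_Gas := by
  intro G _ _ X Z _ _ hZ hN
  have hker : (QuotientGroup.mk' Z).ker = Z := QuotientGroup.ker_mk' Z
  refine ((Group.isNilpotent_of_finite_tfae (G := X)).out 0 3 rfl rfl).2 ?_
  intro q hq P
  have hSn := ((Group.isNilpotent_of_finite_tfae (G := X.map (QuotientGroup.mk' Z))).out 0 3 rfl rfl).1 hN q hq
  let S : Sylow q (X.map (QuotientGroup.mk' Z)) := default
  have hSchar : (S : Subgroup (X.map (QuotientGroup.mk' Z))).Characteristic :=
    Sylow.characteristic_of_normal S (hSn S)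
  have hXn : (X.map (QuotientGroup.mk' Z)).Normal :=
    Subgroup.Normal.map inferInstance _ (QuotientGroup.mk'_surjective Z)
  set S' : Subgroup (G ⧸ Z) := (S : Subgroup (X.map (QuotientGroup.mk' Z))).map
    (X.map (QuotientGroup.mk' Z)).subtype with hS'
  have hS'n : S'.Normal := ConjAct.normal_of_characteristic_of_normal
  have hS'X : S' ≤ X.map (QuotientGroup.mk' Z) := Subgroup.map_subtype_le _
  set Y : Subgroup G := S'.comap (QuotientGroup.mk' Z) ⊓ X with hY
  have hYn : Y.Normal := Subgroup.normal_inf_normal _ _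
  have hYmap : Y.map (QuotientGroup.mk' Z) = S' := by
    ext s
    constructor
    · rintro ⟨y, hy, rfl⟩
      exact hy.1
    · intro hs
      obtain ⟨x, hx, rfl⟩ := hS'X hs
      exact ⟨x, ⟨hs, hx⟩, rfl⟩
  let Q : Sylow q Y := default
  set Q' : Subgroup G := (Q : Subgroup Y).map Y.subtype with hQ'
  have hQY : Q' ≤ Y := Subgroup.map_subtype_le _
  have hfr := Sylow.normalizer_sup_eq_top Q
  have hQi : ¬ q ∣ Q'.relIndex Y := by
    rw [hQ', relIndex_map]
    exact Q.not_dvd_index
  -- the image of `Q` is `S'`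
  have hS'p : IsPGroup q S' := S.isPGroup'.map _
  have h1 : (Q'.map (QuotientGroup.mk' Z)).relIndex S' = 1 := by
    obtain ⟨n, hn⟩ := IsPGroup.iff_card.1 hS'p
    have h2 : (Q'.map (QuotientGroup.mk' Z)).relIndex S' ∣ q ^ n := by
      rw [← hn]
      exact Subgroup.relIndex_dvd_card _ _
    have h3 : (Q'.map (QuotientGroup.mk' Z)).relIndex S' ∣ Q'.relIndex Y := by
      rw [← hYmap, ← Subgroup.relIndex_comap]
      exact Subgroup.relIndex_dvd_of_le_left _ (Subgroup.le_comap_map _ _)
    obtain ⟨k, -, hk⟩ := (Nat.dvd_prime_pow hq.out).1 h2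
    rcases Nat.eq_zero_or_pos k with h0 | h0
    · rw [hk, h0, pow_zero]
    · exfalso
      apply hQi
      refine dvd_trans ?_ h3
      rw [hk]
      exact dvd_pow_self q h0.ne'
  have h2 : S' ≤ Q'.map (QuotientGroup.mk' Z) := Subgroup.relIndex_eq_one.1 h1
  have h3 : Y ≤ Q' ⊔ Z := by
    intro y hy
    have h4 : y ∈ (Q'.map (QuotientGroup.mk' Z)).comap (QuotientGroup.mk' Z) := h2 hy.1
    rwa [Subgroup.comap_map_eq, hker] at h4
  have hle : Q' ≤ Subgroup.normalizer (Q' : Set G) := Subgroup.le_normalizer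
  have h4 : Subgroup.normalizer (Q' : Set G) ⊔ frattini G = ⊤ := by
    rw [eq_top_iff]
    calc (⊤ : Subgroup G) = Subgroup.normalizer (Q' : Set G) ⊔ Y := hfr.symm
      _ ≤ Subgroup.normalizer (Q' : Set G) ⊔ (Q' ⊔ Z) := sup_le_sup_left h3 _
      _ ≤ Subgroup.normalizer (Q' : Set G) ⊔ frattini G :=
        sup_le le_sup_left (sup_le (hle.trans le_sup_left) (hZ.trans le_sup_right))
  have hQn : Q'.Normal := Subgroup.normalizer_eq_top_iff.1 (frattini_nongenerating h4)
  -- the Sylow subgroups of `X`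
  have hYX : Y ≤ X := inf_le_right
  have h5 : Y.relIndex X = (S : Subgroup (X.map (QuotientGroup.mk' Z))).index := by
    rw [hY, Subgroup.inf_relIndex_right, Subgroup.relIndex_comap, hS', relIndex_map]
  have h6 : ¬ q ∣ (Q'.subgroupOf X).index := by
    change ¬ q ∣ Q'.relIndex X
    rw [← Subgroup.relIndex_mul_relIndex Q' Y X hQY hYX, hq.out.dvd_mul]
    rintro (h | h)
    · exact hQi h
    · rw [h5] at h
      exact S.not_dvd_index h
  have hQp : IsPGroup q Q' := Q.isPGroup'.map _
  have h7 : IsPGroup q (Q'.subgroupOf X) := hQp.comap_subtype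
  have h8 : (Q'.subgroupOf X).Normal := inferInstance
  have h9 : ((h7.toSylow h6 : Sylow q X) : Subgroup X).Normal := h8
  have hu := Sylow.unique_of_normal _ h9
  have h10 : P = h7.toSylow h6 := hu.instSubsingleton.elim _ _
  rw [h10]
  exact h9

end Pool.Agent.CCS
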