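import Mathlib
import Pool.Agent.CCS.Stmts

set_option autoImplicit false

/-!
# CCS HH: the subgroup `H = K A_S`
-/

namespace Pool.Agent.CCS

open scoped commutatorElement

namespace HH

variable {G : Type} [Group G]

theorem mkA {K A : Subgroup G} (hN : K.Normal) (hsup : K ⊔ A = ⊤) (g : G) :
    ∃ a ∈ A, (QuotientGroup.mk' K) g = (QuotientGroup.mk' K) a := by
  have hg : g ∈ K ⊔ A := by rw [hsup]; exact Subgroup.mem_top _
  obtain ⟨k, hk, a, ha, hka⟩ := Subgroup.mem_sup_of_normal_left.1 hg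
  refine ⟨a, ha, ?_⟩
  have h1 : (QuotientGroup.mk' K) k = 1 := by
    rwa [← MonoidHom.mem_ker, QuotientGroup.ker_mk']
  rw [← hka, map_mul, h1, one_mul]

theorem comm_mem {K A : Subgroup G} (hN : K.Normal) (hsup : K ⊔ A = ⊤)
    (hc : ∀ a ∈ A, ∀ b ∈ A, a * b = b * a) (g h : G) : ⁅g, h⁆ ∈ K := by
  obtain ⟨a, ha, hga⟩ := mkA hN hsup g
  obtain ⟨b, hb, hhb⟩ := mkA hN hsup h
  rw [← QuotientGroup.ker_mk' K, MonoidHom.mem_ker, map_commutatorElement, hga, hhb,
    ← map_commutatorElement, commutatorElement_eq_one_iff_mul_comm.2 (hc a ha b hb), map_one]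

/-- the elements of `A` whose order involves only primes in `S` -/
def A0 (A : Subgroup G) (hc : ∀ a ∈ A, ∀ b ∈ A, a * b = b * a) (S : Set ℕ) : Subgroup G where
  carrier := {a | a ∈ A ∧ ∀ p : ℕ, p.Prime → p ∣ orderOf a → p ∈ S}
  one_mem' := ⟨A.one_mem, fun p hp h => by
    rw [orderOf_one] at h
    exact absurd (Nat.dvd_one.1 h) hp.one_lt.ne'⟩
  mul_mem' := fun {a b} ha hb => ⟨A.mul_mem ha.1 hb.1, fun p hp h => by
    have hab : Commute a b := hc a ha.1 b hb.1
    rcases hp.dvd_mul.1 (h.trans hab.orderOf_mul_dvd_mul_orderOf) with h1 | h1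
    · exact ha.2 p hp h1
    · exact hb.2 p hp h1⟩
  inv_mem' := fun {a} ha => ⟨A.inv_mem ha.1, fun p hp h => by
    rw [orderOf_inv] at h
    exact ha.2 p hp h⟩

theorem mem_A0 {A : Subgroup G} {hc : ∀ a ∈ A, ∀ b ∈ A, a * b = b * a} {S : Set ℕ} {a : G} :
    a ∈ A0 A hc S ↔ a ∈ A ∧ ∀ p : ℕ, p.Prime → p ∣ orderOf a → p ∈ S := Iff.rfl

end HH

theorem thm_HH : St_HH := by
  intro G _ _ K A hKA S
  have hN : K.Normal := hKA.norm
  have hcm := HH.comm_mem hN hKA.sup hKA.comm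
  have hHn : (K ⊔ HH.A0 A hKA.comm S).Normal := by
    refine ⟨fun h hh g => ?_⟩
    have h1 : g * h * g⁻¹ = ⁅g, h⁆ * h := by rw [commutatorElement_def]; group
    rw [h1]
    exact Subgroup.mul_mem _ (Subgroup.mem_sup_left (hcm g h)) hh
  refine ⟨K ⊔ HH.A0 A hKA.comm S, hHn, le_sup_left, ?_, ?_⟩
  · intro p hp hpS Q
    have : Fact p.Prime := ⟨hp⟩
    by_cases hB : Bur G p
    · obtain ⟨P, hP⟩ := hKA.syl p hp hB
      have hPH : (P : Subgroup G) ≤ K ⊔ HH.A0 A hKA.comm S := by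
        intro y hy
        obtain ⟨hyA, k, hk⟩ := (hP y).1 hy
        refine Subgroup.mem_sup_right (HH.mem_A0.2 ⟨hyA, fun q hq hqy => ?_⟩)
        have h2 : q ∣ p ^ k := hqy.trans (orderOf_dvd_of_pow_eq_one hk)
        have h3 : q = p := (Nat.prime_dvd_prime_iff_eq hq hp).1 (hq.dvd_of_dvd_pow h2)
        rw [h3]
        exact hpS
      obtain ⟨g, hg⟩ := MulAction.exists_smul_eq G P Q
      intro y hy
      rw [← hg, Sylow.coe_subgroup_smul, Subgroup.mem_smul_pointwise_iff_exists] at hy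
      obtain ⟨x, hx, rfl⟩ := hy
      exact hHn.conj_mem x (hPH hx) g
    · intro y hy
      refine Subgroup.mem_sup_left ?_
      obtain ⟨a, ha, hya⟩ := HH.mkA hN hKA.sup y
      obtain ⟨k, hk⟩ := Q.isPGroup' ⟨y, hy⟩
      have hk' : y ^ (p ^ k) = 1 := congrArg Subtype.val hk
      rw [← QuotientGroup.ker_mk' K, MonoidHom.mem_ker, ← orderOf_eq_one_iff]
      have h1 : orderOf ((QuotientGroup.mk' K) y) ∣ p ^ k :=
        (orderOf_map_dvd _ y).trans (orderOf_dvd_of_pow_eq_one hk')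
      have h2 : orderOf ((QuotientGroup.mk' K) y) ∣ Nat.card A := by
        rw [hya]
        exact (orderOf_map_dvd _ a).trans (A.orderOf_dvd_natCard ha)
      have h3 : Nat.Coprime (p ^ k) (Nat.card A) :=
        Nat.Coprime.pow_left k ((Nat.Prime.coprime_iff_not_dvd hp).2 (hKA.ab p hp hB))
      exact Nat.eq_one_of_dvd_coprimes h3 h1 h2
  · intro p hp hB hpS hdvd
    have : Fact p.Prime := ⟨hp⟩
    obtain ⟨x, hx⟩ := exists_prime_orderOf_dvd_card' p hdvd
    have hxo : orderOf (x : G) = p := by rw [Subgroup.orderOf_coe, hx]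
    obtain ⟨k, hk, a, ha, hka⟩ := Subgroup.mem_sup_of_normal_left.1 x.2
    have h1 : (QuotientGroup.mk' K) k = 1 := by
      rwa [← MonoidHom.mem_ker, QuotientGroup.ker_mk']
    have h2 : (QuotientGroup.mk' K) (x : G) = (QuotientGroup.mk' K) a := by
      rw [← hka, map_mul, h1, one_mul]
    have h3 : orderOf ((QuotientGroup.mk' K) (x : G)) ∣ p := by
      conv_rhs => rw [← hxo]
      exact orderOf_map_dvd _ _
    rcases (Nat.dvd_prime hp).1 h3 with h4 | h4
    · rw [orderOf_eq_one_iff, ← MonoidHom.mem_ker, QuotientGroup.ker_mk'] at h4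
      refine hKA.kb p hp hB ?_
      rw [← hxo]
      exact K.orderOf_dvd_natCard h4
    · have h5 : p ∣ orderOf a := by
        conv_lhs => rw [← h4, h2]
        exact orderOf_map_dvd _ _
      exact hpS ((HH.mem_A0.1 ha).2 p hp h5)

end Pool.Agent.CCS
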