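import Mathlib
import Pool.Agent.CCS.Stmts

/-!
# CCS: Hilbert 90 for a semilinear action (helper81)
-/

set_option autoImplicit false

namespace Pool.Agent.CCS

open scoped commutatorElement

theorem thm_Hil : St_Hil := by
  intro E U A _ _ _ _ _ _ _ hsl hker hex
  obtain ⟨u, hu⟩ := hex
  classical
  let g : A → (E →* E) := fun a => (MulSemiringAction.toRingHom A E a : E →+* E).toMonoidHom
  have hg : ∀ (a : A) (x : E), g a x = a • x := fun a x => rfl
  let B : Set (E →* E) := Set.range g
  haveI hBf : Finite B := (Set.finite_range g).to_subtype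
  haveI : Fintype B := Fintype.ofFinite B
  let s : B → A := fun σ => σ.2.choose
  have hs : ∀ σ : B, g (s σ) = σ.1 := fun σ => σ.2.choose_spec
  have hEq : ∀ a a' : A, g a = g a' → ∀ w : U, a • w = a' • w := by
    intro a a' h w
    have h1 : ∀ x : E, (a⁻¹ * a') • x = x := by
      intro x
      have h3 : a' • x = a • x := (DFunLike.congr_fun h x).symm
      rw [mul_smul, h3, inv_smul_smul]
    have h2 := hker _ h1 w
    rw [mul_smul, inv_smul_eq_iff] at h2
    exact h2.symm
  let T : U → U := fun w => ∑ σ : B, s σ • w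
  have hT : ∀ (a : A) (w : U), a • T w = T w := by
    intro a w
    let τ : B → B := fun σ => ⟨g (a * s σ), ⟨_, rfl⟩⟩
    have hτ : Function.Injective τ := by
      intro σ σ' h
      have h1 : g (a * s σ) = g (a * s σ') := congrArg Subtype.val h
      apply Subtype.ext
      rw [← hs σ, ← hs σ']
      ext x
      have h2 : (a * s σ) • x = (a * s σ') • x := DFunLike.congr_fun h1 x
      rw [mul_smul, mul_smul] at h2
      exact smul_left_cancel a h2
    have hτb : Function.Bijective τ := Finite.injective_iff_bijective.1 hτ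
    change a • ∑ σ : B, s σ • w = ∑ σ : B, s σ • w
    rw [Finset.smul_sum, ← hτb.sum_comp (fun σ => s σ • w)]
    refine Finset.sum_congr rfl fun σ _ => ?_
    rw [← mul_smul]
    exact hEq _ _ (hs (τ σ)).symm w
  by_contra hcon
  have h0 : ∀ w, T w = 0 := by
    intro w
    by_contra h
    exact hcon ⟨T w, h, fun a => hT a w⟩
  let σ₀ : B := ⟨g 1, ⟨1, rfl⟩⟩
  have hne : s σ₀ • u ≠ 0 := by
    intro h
    have h1 : (s σ₀)⁻¹ • (s σ₀ • u) = 0 := by rw [h, smul_zero]
    rw [inv_smul_smul] at h1
    exact hu h1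
  obtain ⟨φ, hφ⟩ : ∃ φ : Module.Dual E U, φ (s σ₀ • u) ≠ 0 := by
    by_contra h
    push Not at h
    exact hne ((Module.forall_dual_apply_eq_zero_iff E _).1 h)
  have hli : LinearIndependent E (fun σ : B => ((σ : E →* E) : E → E)) :=
    (linearIndependent_monoidHom E E).comp (fun σ : B => (σ : E →* E)) Subtype.val_injective
  have hsum : ∑ σ : B, φ (s σ • u) • ((σ : E →* E) : E → E) = 0 := by
    funext x
    have h1 := congrArg φ (h0 (x • u))
    rw [map_zero] at h1
    change φ (∑ σ : B, s σ • (x • u)) = 0 at h1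
    rw [map_sum] at h1
    rw [Finset.sum_apply]
    change _ = 0
    rw [← h1]
    refine Finset.sum_congr rfl fun σ _ => ?_
    have h2 : (σ : E →* E) x = s σ • x := by
      rw [← hs σ]
      exact hg _ _
    have h3 : φ ((s σ • x) • (s σ • u)) = (s σ • x) • φ (s σ • u) := φ.map_smul _ _
    rw [hsl, Pi.smul_apply, h2, h3, smul_eq_mul, smul_eq_mul, mul_comm]
  exact hφ (Fintype.linearIndependent_iff.1 hli (fun σ => φ (s σ • u)) hsum σ₀)

end Pool.Agent.CCS
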