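import Mathlib
import Pool.Agent.CCS.Stmts

set_option autoImplicit false

/-!
# CCS: the intersection of the normal complements of the Burnside primes
-/

namespace Pool.Agent.CCS

open scoped commutatorElement

private theorem ka0_normal {G : Type} [Group G] [Finite G] {p : ℕ} (hp : p.Prime) (hB : Bur G p) :
    ∃ N : Subgroup G, N.Normal ∧ (∀ a b : G, ⁅a, b⁆ ∈ N) ∧ ¬ p ∣ Nat.card N ∧
      ∃ k : ℕ, N.index = p ^ k := by
  have : Fact p.Prime := ⟨hp⟩
  obtain ⟨P⟩ : Nonempty (Sylow p G) := inferInstance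
  have hP : Subgroup.normalizer (P : Subgroup G) ≤ Subgroup.centralizer ((P : Subgroup G) : Set G) := by
    intro g hg
    rw [Subgroup.mem_centralizer_iff]
    intro y hy
    have h1 : Nrm (P : Subgroup G) g := fun z hz => (Subgroup.mem_normalizer_iff.1 hg z).1 hz
    exact (hB P g h1 y hy).symm
  refine ⟨(MonoidHom.transferSylow P hP).ker, MonoidHom.normal_ker _, fun a b => ?_,
    MonoidHom.not_dvd_card_ker_transferSylow P hP, ?_⟩
  · rw [MonoidHom.mem_ker, map_commutatorElement, commutatorElement_eq_one_iff_mul_comm]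
    apply Subtype.ext
    have h2 : ∀ x y : (P : Subgroup G), (x : G) * y = y * x := fun x y => by
      have h3 := hP (Subgroup.le_normalizer x.2)
      rw [Subgroup.mem_centralizer_iff] at h3
      exact (h3 y y.2).symm
    exact h2 _ _
  · rw [(MonoidHom.ker_transferSylow_isComplement' P hP).symm.index_eq_card]
    exact IsPGroup.iff_card.1 P.2

theorem thm_KA0 : St_KA0 := by
  intro G _ _
  classical
  let ι := {p : ℕ // p ∈ (Nat.card G).primeFactors ∧ Bur G p}
  have hι : ∀ i : ι, i.1.Prime := fun i => Nat.prime_of_mem_primeFactors i.2.1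
  choose N hN hc hd hk using fun i : ι => ka0_normal (hι i) i.2.2
  refine ⟨⨅ i, N i, ?_, fun a b => ?_, fun p hp hB => ?_, fun q hq hB hdv => ?_⟩
  · exact Subgroup.normal_iInf_normal hN
  · rw [Subgroup.mem_iInf]
    exact fun i => hc i a b
  · by_cases h : p ∣ Nat.card G
    · have h1 : p ∈ (Nat.card G).primeFactors :=
        Nat.mem_primeFactors.2 ⟨hp, h, Nat.card_pos.ne'⟩
      intro h2
      exact hd ⟨p, h1, hB⟩ (h2.trans (Subgroup.card_dvd_of_le (iInf_le _ _)))
    · exact fun h2 => h (h2.trans (Subgroup.card_subgroup_dvd_card _))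
  · have : (⨅ i, N i).Normal := Subgroup.normal_iInf_normal hN
    have : Fact q.Prime := ⟨hq⟩
    have h1 : q ∣ Nat.card (G ⧸ (⨅ i, N i)) := hdv
    obtain ⟨x, hx⟩ := exists_prime_orderOf_dvd_card' q h1
    obtain ⟨g, rfl⟩ := QuotientGroup.mk_surjective x
    have h2 : g ∉ ⨅ i, N i := by
      intro h3
      rw [(QuotientGroup.eq_one_iff g).2 h3, orderOf_one] at hx
      exact hq.one_lt.ne hx
    apply h2
    have h3 : g ^ q ∈ ⨅ i, N i := by
      rw [← QuotientGroup.eq_one_iff, QuotientGroup.mk_pow, ← hx, pow_orderOf_eq_one]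
    rw [Subgroup.mem_iInf] at h3 ⊢
    intro i
    have h4 : i.1 ≠ q := by
      intro h5
      exact hB (h5 ▸ i.2.2)
    have := hN i
    obtain ⟨k, hk⟩ := hk i
    have h5 : g ^ (i.1 ^ k) ∈ N i := by
      rw [← hk]
      exact Subgroup.pow_index_mem (N i) g
    have h6 : (i.1 ^ k).Coprime q :=
      Nat.Coprime.pow_left k ((Nat.coprime_primes (hι i) hq).2 h4)
    rw [← QuotientGroup.eq_one_iff] at h5 ⊢
    have h7 := h3 i
    rw [← QuotientGroup.eq_one_iff] at h7
    rw [QuotientGroup.mk_pow] at h5 h7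
    have h8 := Nat.dvd_gcd (orderOf_dvd_of_pow_eq_one h5) (orderOf_dvd_of_pow_eq_one h7)
    rw [h6.gcd_eq_one, Nat.dvd_one, orderOf_eq_one_iff] at h8
    exact h8

end Pool.Agent.CCS
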