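import Mathlib
import Pool.Agent.CCS.Stmts

/-!
# CCS KAx: the Schur-Zassenhaus complement and its Sylow subgroups (helper56)
-/

set_option autoImplicit false

namespace Pool.Agent.CCS

open scoped commutatorElement

/-- [KAx] -/
theorem thm_KAx (h0 : St_KA0) : St_KAx := by
  intro G _ _
  obtain ⟨K, hK, hcm, hB, hnB⟩ := h0 G
  have := hK
  have hcop : Nat.Coprime (Nat.card K) K.index := Nat.coprime_of_dvd fun p hp h1 h2 => by
    by_cases hb : Bur G p
    · exact hB p hp hb h1
    · exact hnB p hp hb h2
  obtain ⟨A, hA⟩ := Subgroup.exists_right_complement'_of_coprime hcop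
  have hinf : K ⊓ A = ⊥ := disjoint_iff.mp hA.disjoint
  have hcomm : ∀ a ∈ A, ∀ b ∈ A, a * b = b * a := by
    intro a ha b hb
    have h1 : ⁅a, b⁆ ∈ K ⊓ A := by
      refine ⟨hcm a b, ?_⟩
      rw [commutatorElement_def]
      exact A.mul_mem (A.mul_mem (A.mul_mem ha hb) (A.inv_mem ha)) (A.inv_mem hb)
    rw [hinf, Subgroup.mem_bot, commutatorElement_eq_one_iff_mul_comm] at h1
    exact h1
  have hidx : K.index = Nat.card A := hA.symm.index_eq_card
  refine ⟨K, A, hK, hinf, hA.sup_eq_top, hcomm, hB, ?_, ?_⟩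
  · intro p hp hb h1
    rw [← hidx] at h1
    exact hnB p hp hb h1
  · intro p hp hb
    have : Fact p.Prime := ⟨hp⟩
    obtain ⟨S⟩ : Nonempty (Sylow p A) := inferInstance
    have hcard : Nat.card ((S : Subgroup A).map A.subtype) =
        p ^ (Nat.card G).factorization p := by
      have e1 : Nat.card ((S : Subgroup A).map A.subtype) = Nat.card S :=
        (Nat.card_congr ((S : Subgroup A).equivMapOfInjective A.subtype
          A.subtype_injective).toEquiv).symm
      have e2 : (Nat.card G).factorization p = (Nat.card A).factorization p := by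
        rw [← hA.card_mul_card, Nat.factorization_mul Nat.card_pos.ne' Nat.card_pos.ne',
          Finsupp.add_apply, Nat.factorization_eq_zero_of_not_dvd (hB p hp hb), zero_add]
      rw [e1, e2]
      exact S.card_eq_multiplicity
    refine ⟨Sylow.ofCard _ hcard, ?_⟩
    intro y
    change y ∈ (S : Subgroup A).map A.subtype ↔ _
    rw [Subgroup.mem_map]
    constructor
    · rintro ⟨a, ha, rfl⟩
      obtain ⟨k, hk⟩ := S.isPGroup' ⟨a, ha⟩
      refine ⟨a.2, k, ?_⟩
      have h2 : a ^ p ^ k = 1 := congrArg Subtype.val hk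
      change (a : G) ^ p ^ k = 1
      exact congrArg Subtype.val h2
    · rintro ⟨hy, k, hk⟩
      have hyk : (⟨y, hy⟩ : A) ^ p ^ k = 1 := Subtype.ext hk
      have hpg : IsPGroup p (Subgroup.zpowers (⟨y, hy⟩ : A)) := by
        rw [isPGroup_iff_pow_pow_eq_one]
        rintro ⟨g, n, rfl⟩
        refine ⟨k, Subtype.ext ?_⟩
        change ((⟨y, hy⟩ : A) ^ n) ^ p ^ k = 1
        rw [← zpow_natCast, ← zpow_mul, mul_comm, zpow_mul, zpow_natCast, hyk, one_zpow]
      obtain ⟨S', hS'⟩ := hpg.exists_le_sylow
      have hnorm : (S : Subgroup A).Normal := by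
        constructor
        intro n hn g
        have h3 : g * n = n * g := Subtype.ext (hcomm g g.2 n n.2)
        rw [h3, mul_inv_cancel_right]
        exact hn
      have := Sylow.unique_of_normal S hnorm
      have h4 : S' = S := Subsingleton.elim _ _
      rw [h4] at hS'
      exact ⟨⟨y, hy⟩, hS' (Subgroup.mem_zpowers _), rfl⟩

end Pool.Agent.CCS
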