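import Mathlib
import Pool.Agent.CCS.Stmts

set_option autoImplicit false

/-!
# CCS: the main claim (assembly)
-/

namespace Pool.Agent.CCS

open scoped commutatorElement

namespace MC

variable {G : Type} [Group G]

/-- a Sylow subgroup for a prime not dividing the index of a normal subgroup lies in it -/
theorem sylow_le [Finite G] {K : Subgroup G} (hK : K.Normal) {t : ℕ} (ht : t.Prime) (h : ¬ t ∣ K.index)
    (T : Sylow t G) : (T : Subgroup G) ≤ K := by
  intro y hy
  obtain ⟨k, hk⟩ := T.2 ⟨y, hy⟩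
  have hk' : y ^ (t ^ k) = 1 := by
    have := congrArg (fun z : (T : Subgroup G) => (z : G)) hk
    simpa using this
  rw [← QuotientGroup.eq_one_iff]
  have h1 : (QuotientGroup.mk y : G ⧸ K) ^ (t ^ k) = 1 := by
    rw [← QuotientGroup.mk_pow, hk', QuotientGroup.mk_one]
  have h2 : (QuotientGroup.mk y : G ⧸ K) ^ Nat.card (G ⧸ K) = 1 := pow_card_eq_one'
  have h3 : Nat.Coprime (t ^ k) (Nat.card (G ⧸ K)) := by
    apply Nat.Coprime.pow_left
    rw [Nat.Prime.coprime_iff_not_dvd ht]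
    exact h
  rw [← orderOf_eq_one_iff]
  exact Nat.eq_one_of_dvd_coprimes h3 (orderOf_dvd_of_pow_eq_one h1) (orderOf_dvd_of_pow_eq_one h2)

theorem KA_index [Finite G] {K A : Subgroup G} (h : KA G K A) : K.index = Nat.card A := by
  have hc : Subgroup.IsComplement' K A := by
    haveI := h.norm
    exact Subgroup.isComplement'_of_disjoint_and_mul_eq_univ (disjoint_iff.2 h.inf) (by
      rw [← Subgroup.normal_mul, h.sup]; rfl)
  exact hc.symm.index_eq_card

open scoped Pointwise in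
/-- every Sylow `p`-subgroup is conjugate to the group of the `p`-elements of `A` -/
theorem conj_syl [Finite G] {K A : Subgroup G} (h : KA G K A) {p : ℕ} (hp : p.Prime) (hB : Bur G p) (Q : Sylow p G) :
    ∃ g : G, (∀ y : G, PEl A p y → g⁻¹ * y * g ∈ (Q : Subgroup G)) ∧
      ∀ y' ∈ (Q : Subgroup G), ∃ y : G, PEl A p y ∧ y' = g⁻¹ * y * g := by
  haveI := Fact.mk hp
  obtain ⟨P, hP⟩ := h.syl p hp hB
  obtain ⟨g, hg⟩ := MulAction.exists_smul_eq G P Q
  refine ⟨g⁻¹, ?_, ?_⟩
  · intro y hy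
    rw [← hg]
    have h1 : y ∈ (P : Subgroup G) := (hP y).2 hy
    have h3 := Subgroup.smul_mem_pointwise_smul y (MulAut.conj g) (P : Subgroup G) h1
    have h4 : g⁻¹⁻¹ * y * g⁻¹ = MulAut.conj g • y := by simp
    rw [h4]
    exact h3
  · intro y' hy'
    rw [← hg] at hy'
    have h2 : y' ∈ MulAut.conj g • (P : Subgroup G) := hy'
    rw [Subgroup.mem_pointwise_smul_iff_inv_smul_mem] at h2
    refine ⟨(MulAut.conj g)⁻¹ • y', (hP _).1 h2, ?_⟩
    simp [mul_assoc]

section psi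

variable {F : Subgroup G} [F.Normal] {W : Type} [AddCommGroup W] [DistribMulAction (G ⧸ F) W] {ψ : G → W}

theorem psi_one (hadd : ∀ x ∈ F, ∀ y ∈ F, ψ (x * y) = ψ x + ψ y) : ψ 1 = 0 := by
  have := hadd 1 F.one_mem 1 F.one_mem
  simpa using this

theorem psi_inv (hadd : ∀ x ∈ F, ∀ y ∈ F, ψ (x * y) = ψ x + ψ y) {x : G} (hx : x ∈ F) : ψ x⁻¹ = - ψ x := by
  have := hadd x hx x⁻¹ (F.inv_mem hx)
  rw [mul_inv_cancel, psi_one hadd] at this
  exact (neg_eq_of_add_eq_zero_right this.symm).symm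

theorem psi_comm (hadd : ∀ x ∈ F, ∀ y ∈ F, ψ (x * y) = ψ x + ψ y)
    (heq : ∀ x ∈ F, ∀ g : G, ψ (g * x * g⁻¹) = (QuotientGroup.mk g : G ⧸ F) • ψ x) {f : G} (hf : f ∈ F) (y : G) :
    ψ ⁅y, f⁆ = (QuotientGroup.mk y : G ⧸ F) • ψ f - ψ f := by
  rw [commutatorElement_def, hadd _ (Subgroup.Normal.conj_mem ‹_› f hf y) _ (F.inv_mem hf), heq f hf y,
    psi_inv hadd hf, sub_eq_add_neg]

theorem psi_fix (heq : ∀ x ∈ F, ∀ g : G, ψ (g * x * g⁻¹) = (QuotientGroup.mk g : G ⧸ F) • ψ x) {x : G} (hx : x ∈ F)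
    {g : G} (h : x * g = g * x) : (QuotientGroup.mk g : G ⧸ F) • ψ x = ψ x := by
  rw [← heq x hx g, ← h, mul_assoc, mul_inv_cancel, mul_one]

end psi

theorem comm_mem {F : Subgroup G} (hF : F.Normal) {f : G} (hf : f ∈ F) (y : G) : ⁅y, f⁆ ∈ F := by
  rw [commutatorElement_def]
  exact F.mul_mem (hF.conj_mem f hf y) (F.inv_mem hf)

end MC

open MC in
theorem thm_MC (h0 : St_Rho0) (h1 : St_KAx) (h2 : St_NM) (h3 : St_FF) (h4 : St_FAb) (h5 : St_Dec) (h6 : St_PV)
    (h7 : St_Tau) (h8 : St_BQ) (h9 : St_QV) (h10 : St_Mt) (h11 : St_Tn) (h12 : St_AbS) (h13 : St_HH)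
    (h14 : St_VLG) : St_MC := by
  intro G _ _ F₀ M₀ hF0 hM0 hnil hab hP
  obtain ⟨K, A, hKA⟩ := h1 G
  have hNM : NN K A ≤ M₀ := h2 G K A M₀ hKA hM0 hP
  haveI hKn := hKA.norm
  haveI hNn : (NN K A).Normal := by unfold NN; infer_instance
  have hNK : NN K A ≤ K := inf_le_left
  obtain ⟨F, hFn, hFN, hFnil, hNF, hC⟩ := h3 G (NN K A) F₀ M₀ hNn hF0 hM0 hNM hnil hab
  haveI := hFn
  have hFab := h4 G F hFn hFnil
  obtain ⟨n, V, iV, iF, iA, ψ, hS, hadd, heq, hker, hsur⟩ := h5 G F hFab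
  haveI hZn : (F ⊓ frattini G).Normal := by infer_instance
  -- commutators and the action
  have hcm : ∀ y f : G, f ∈ F → (⁅y, f⁆ ∈ F ⊓ frattini G ↔
      ∀ i, (QuotientGroup.mk y : G ⧸ F) • ψ i f = ψ i f) := by
    intro y f hf
    rw [← hker _ (comm_mem hFn hf y)]
    refine forall_congr' fun i => ?_
    rw [psi_comm (hadd i) (heq i) hf y, sub_eq_zero]
  let S0 : Set ℕ := {s | Bur G s ∧ ∃ y, PEl A s y ∧ ∃ f ∈ F, (∀ k ∈ K, ⁅k, f⁆ ∈ F ⊓ frattini G) ∧
    ⁅y, f⁆ ∉ F ⊓ frattini G}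
  obtain ⟨H, hHn, hKH, hHS, hHB⟩ := h13 G K A hKA S0
  choose v hv0 hv using fun i => h14 G (V i) K A F H hKA hFN hHn hKH hNF (hS i)
  obtain ⟨x, hxF, hx⟩ := hsur v
  -- an element commuting with `x` fixes all `v i`
  have hfix : ∀ g : G, x * g = g * x → ∀ i, (QuotientGroup.mk g : G ⧸ F) • v i = v i := by
    intro g hg i
    rw [← hx i]
    exact psi_fix (heq i) hxF hg
  refine ⟨H, x, fun p hp => ?_⟩
  obtain ⟨hpp, hpG, hnc⟩ := h0 G p hp
  by_cases hB : Bur G p
  · by_cases hS0 : p ∈ S0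
    · -- (c)
      left
      rintro ⟨Q, hQ⟩
      obtain ⟨-, y, hy, f, hf, hfK, hyf⟩ := hS0
      rw [hcm y f hf] at hyf
      push Not at hyf
      obtain ⟨i, hi⟩ := hyf
      -- K acts trivially on V i
      have hKi : ∀ k ∈ K, ∀ w : V i, (QuotientGroup.mk k : G ⧸ F) • w = w := by
        let C : AddSubgroup (V i) :=
          { carrier := {w | ∀ k ∈ K, (QuotientGroup.mk k : G ⧸ F) • w = w}
            zero_mem' := by intro k _; exact smul_zero _
            add_mem' := by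
              intro a b ha hb k hk
              rw [smul_add, ha k hk, hb k hk]
            neg_mem' := by
              intro a ha k hk
              rw [smul_neg, ha k hk] }
        have hCi : Inv (G ⧸ F) C := by
          intro g w hw k hk
          obtain ⟨g, rfl⟩ := QuotientGroup.mk_surjective g
          have h1 := hw (g⁻¹ * k * g) (by simpa using hKn.conj_mem k hk g⁻¹)
          calc (QuotientGroup.mk k : G ⧸ F) • (QuotientGroup.mk g : G ⧸ F) • w
              = (QuotientGroup.mk g : G ⧸ F) • (QuotientGroup.mk (g⁻¹ * k * g) : G ⧸ F) • w := by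
                rw [smul_smul, smul_smul, ← QuotientGroup.mk_mul, ← QuotientGroup.mk_mul]
                congr 2; group
            _ = (QuotientGroup.mk g : G ⧸ F) • w := by rw [h1]
        have hfC : ψ i f ∈ C := fun k hk => (hcm k f hf).1 (hfK k hk) i
        rcases (hS i).2 C hCi with h | h
        · exfalso
          rw [h, AddSubgroup.mem_bot] at hfC
          apply hi
          rw [hfC, smul_zero]
        · intro k hk w
          have : w ∈ C := by rw [h]; exact AddSubgroup.mem_top w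
          exact this k hk
      have hcomm : ∀ a b : G ⧸ F, ∀ w : V i, ⁅a, b⁆ • w = w := by
        intro a b w
        obtain ⟨a, rfl⟩ := QuotientGroup.mk_surjective a
        obtain ⟨b, rfl⟩ := QuotientGroup.mk_surjective b
        have hab : ⁅a, b⁆ ∈ K := by
          -- G = K A
          have hdec : ∀ g : G, ∃ k ∈ K, ∃ a ∈ A, g = k * a := by
            intro g
            have hg : g ∈ K ⊔ A := by rw [hKA.sup]; exact Subgroup.mem_top g
            obtain ⟨k, hk, a, ha, rfl⟩ := Subgroup.mem_sup_of_normal_left.1 hg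
            exact ⟨k, hk, a, ha, rfl⟩
          obtain ⟨k, hk, a', ha', rfl⟩ := hdec a
          obtain ⟨l, hl, b', hb', rfl⟩ := hdec b
          rw [← QuotientGroup.eq_one_iff, commutatorElement_def]
          have e1 : (QuotientGroup.mk k : G ⧸ K) = 1 := (QuotientGroup.eq_one_iff k).2 hk
          have e2 : (QuotientGroup.mk l : G ⧸ K) = 1 := (QuotientGroup.eq_one_iff l).2 hl
          simp only [QuotientGroup.mk_mul, QuotientGroup.mk_inv, e1, e2, one_mul]
          rw [← QuotientGroup.mk_mul, ← QuotientGroup.mk_inv, ← QuotientGroup.mk_mul, hKA.comm a' ha' b' hb',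
            ← QuotientGroup.mk_inv, ← QuotientGroup.mk_mul]
          simp
        have := hKi _ hab w
        simpa [commutatorElement_def] using this
      obtain ⟨g, hg1, -⟩ := conj_syl hKA hpp hB Q
      have h2 := h12 (G ⧸ F) (V i) (hS i) hcomm (QuotientGroup.mk y) ⟨ψ i f, hi⟩ (v i) (hv0 i) (QuotientGroup.mk g)
      apply h2
      have h3 := hfix _ (hQ _ (hg1 y hy)) i
      simpa using h3
    · -- (d)
      have hpH : ¬ p ∣ Nat.card H := hHB p hpp hB hS0
      have hnt : ∃ y : G, PEl A p y ∧ ∃ f ∈ F, ⁅y, f⁆ ∉ F ⊓ frattini G := by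
        by_contra hcon
        push Not at hcon
        have hcen := h6 G K A F hKA hFn hFN hC p hpp hB hcon
        obtain ⟨P, hPA⟩ := hKA.syl p hpp hB
        obtain ⟨g, hg⟩ := hnc P
        apply hg
        intro y hy
        exact (hcen y ((hPA y).1 hy) g).symm
      obtain ⟨y, hy, f, hf, hyf⟩ := hnt
      rw [hcm y f hf] at hyf
      push Not at hyf
      obtain ⟨i, hi⟩ := hyf
      rcases hv i p hpp hB hpH ⟨y, hy, ψ i f, hi⟩ with h | h
      · left
        rintro ⟨Q, hQ⟩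
        obtain ⟨g, hg1, -⟩ := conj_syl hKA hpp hB Q
        obtain ⟨y', hy', hne⟩ := h g
        exact hne (hfix _ (hQ _ (hg1 y' hy')) i)
      · right; exact h
  · -- `p` not Burnside
    have hidx : ¬ p ∣ K.index := by rw [KA_index hKA]; exact hKA.ab p hpp hB
    obtain ⟨T⟩ : Nonempty (Sylow p G) := inferInstance
    have hTK : (T : Subgroup G) ≤ K := sylow_le hKn hpp hidx T
    by_cases hTF : (T : Subgroup G) ⊓ NN K A ≤ F
    · right
      refine h7 G p hpp T K H hKn hHn hTK hKH ?_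
      by_cases hk : ∀ k ∈ K, Nrm (T : Subgroup G) k → Cen (T : Subgroup G) k
      · obtain ⟨B, s, Q, hs, hsA, hst, hQB, hBT, hBc, hKB, hKB', y, hyQ, hyT⟩ := h8 G K A hKA p hpp hB T hk
        obtain ⟨f, hf, hfK, y', hy'Q, hy'f⟩ := h9 G K A F hKA hFn hFN hFnil p hpp hB T hTF hk B s Q hs hsA hst hQB hBT
          hBc hKB hKB' ⟨y, hyQ, hyT⟩
        have hsB : Bur G s := by
          by_contra hcon
          exact hKA.ab s hs hcon hsA
        obtain ⟨g, -, hg2⟩ := conj_syl hKA hs hsB Q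
        obtain ⟨y₁, hy₁, rfl⟩ := hg2 y' hy'Q
        have hsS : s ∈ S0 := by
          refine ⟨hsB, y₁, hy₁, g * f * g⁻¹, hFn.conj_mem f hf g, ?_, ?_⟩
          · intro k hk'
            have e : ⁅k, g * f * g⁻¹⁆ = g * ⁅g⁻¹ * k * g, f⁆ * g⁻¹ := by
              simp only [commutatorElement_def]; group
            rw [e]
            apply hZn.conj_mem
            apply hfK
            simpa using hKn.conj_mem k hk' g⁻¹
          · intro hcon
            apply hy'f
            have e : ⁅g⁻¹ * y₁ * g, f⁆ = g⁻¹ * ⁅y₁, g * f * g⁻¹⁆ * g⁻¹⁻¹ := by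
              simp only [commutatorElement_def]; group
            rw [e]
            exact hZn.conj_mem _ hcon g⁻¹
        exact ⟨y, hHS s hs hsS Q hyQ, hBT y (hQB hyQ), hyT⟩
      · push Not at hk
        obtain ⟨k, hkK, hk1, hk2⟩ := hk
        exact ⟨k, hKH hkK, hk1, hk2⟩
    · -- (a)
      left
      rintro ⟨Q, hQ⟩
      rw [SetLike.not_le_iff_exists] at hTF
      obtain ⟨m, ⟨hmT, hmN⟩, hmF⟩ := hTF
      have h1 : ∃ f ∈ F, ⁅m, f⁆ ∉ F ⊓ frattini G := by
        by_contra hcon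
        push Not at hcon
        exact hmF (hC m hmN hcon)
      obtain ⟨f, hf, hmf⟩ := h1
      rw [hcm m f hf] at hmf
      push Not at hmf
      obtain ⟨i, hi⟩ := hmf
      have hmp : ∃ k : ℕ, m ^ (p ^ k) = 1 := by
        obtain ⟨k, hk⟩ := T.2 ⟨m, hmT⟩
        refine ⟨k, ?_⟩
        have := congrArg (fun z : (T : Subgroup G) => (z : G)) hk
        simpa using this
      haveI hMn : ((NN K A).map (QuotientGroup.mk' F)).Normal :=
        hNn.map _ (QuotientGroup.mk'_surjective F)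
      obtain ⟨m', hm'N, ⟨k, hk⟩, hm'v⟩ := h10 (G ⧸ F) (V i) ((NN K A).map (QuotientGroup.mk' F)) p hMn (hS i)
        ⟨QuotientGroup.mk m, ⟨m, hmN, rfl⟩, by
          obtain ⟨k, hk⟩ := hmp
          exact ⟨k, by rw [← QuotientGroup.mk_pow, hk, QuotientGroup.mk_one]⟩, ψ i f, hi⟩ (v i) (hv0 i)
      obtain ⟨n₁, hn₁, rfl⟩ := hm'N
      have hn₁F : n₁ ^ (p ^ k) ∈ F := by
        rw [← QuotientGroup.eq_one_iff, QuotientGroup.mk_pow]
        exact hk
      obtain ⟨n', hn', hnF⟩ := h11 G (NN K A) F hNn hFn hFN hNF p hpp Q n₁ hn₁ ⟨k, hn₁F⟩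
      apply hm'v
      have h2 : (QuotientGroup.mk' F n₁ : G ⧸ F) = QuotientGroup.mk n' := by
        rw [QuotientGroup.mk'_apply]
        exact (QuotientGroup.eq.2 hnF).symm
      rw [h2]
      exact hfix _ (hQ _ hn'.1) i

end Pool.Agent.CCS
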