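import Mathlib
import Pool.Agent.CCS.Stmts
import Pool.Agent.CCS.Bas

/-!
# CCS [Mov]: primes moving `e₀` (helper25)

If `y • e₀ = h • e₀`, `h ∈ H`, then `y ^ j • e₀ = h ^ j • e₀`, so `h ^ (p ^ k)` fixes `e₀`, and `h` is a power of
`h ^ (p ^ k)`, as its order is prime to `p`.  (`St_Prx` is not used.)
-/

set_option autoImplicit false
set_option linter.unusedVariables false

namespace Pool.Agent.CCS

open scoped commutatorElement

theorem thm_Mov (h0 : St_Prx) : St_Mov := by
  intro Γ R V _ _ _ _ _ _ _ _ _ M H lam hR hH p k hp hpH P hP y hy hyk e₀ he₀ hye v hv hO g hg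
  -- `y • e₀` is not in the orbit
  have hclaim : ∀ h ∈ H, h • e₀ ≠ y • e₀ := by
    intro h hh hhe
    have hpow : ∀ j : ℕ, y ^ j • e₀ = h ^ j • e₀ := by
      intro j
      induction j with
      | zero => rw [pow_zero, pow_zero]
      | succ j ih =>
        rw [pow_succ', mul_smul, ih, Bas.comm_smul hR hP hy, ← hhe, pow_succ, mul_smul]
    have h1 : h ^ (p ^ k) • e₀ = e₀ := by
      rw [← hpow, hyk, one_smul]
    have hco : (p ^ k).Coprime (orderOf h) := by
      apply Nat.Coprime.pow_left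
      rw [hp.coprime_iff_not_dvd]
      intro h2
      apply hpH
      have h3 : orderOf (⟨h, hh⟩ : H) ∣ Nat.card H := orderOf_dvd_natCard _
      rw [Subgroup.orderOf_mk] at h3
      exact h2.trans h3
    obtain ⟨m, hm⟩ := exists_pow_eq_self_of_coprime hco
    have h2 : ∀ i : ℕ, (h ^ (p ^ k)) ^ i • e₀ = e₀ := by
      intro i
      induction i with
      | zero => rw [pow_zero, one_smul]
      | succ i ih => rw [pow_succ, mul_smul, h1, ih]
    apply hye
    rw [← hhe]
    have h3 := h2 m
    rw [hm] at h3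
    exact h3
  have hf : (y • e₀) • v = 0 := hO _ (Bas.prm_smul y he₀) hclaim
  obtain ⟨m, hm, hc⟩ := hP g
  rw [hc y hy, mul_smul, mul_smul] at hg
  have h1 : y • m • v = m • v := by
    have h2 := congrArg (fun x => m • x) hg
    simp only [smul_inv_smul] at h2
    exact h2
  have h2 : (y • e₀) • (m • v) = 0 := by
    rw [hR.lamv m hm, smul_comm, hf, smul_zero]
  have h3 : y • (e₀ • (m • v)) = 0 := by
    rw [hR.comp, h1, h2]
  have h4 : e₀ • (m • v) = 0 := (smul_eq_zero_iff_eq y).1 h3
  have h5 : m • (e₀ • v) = 0 := by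
    rw [hR.comp, hR.triv m hm, h4]
  exact hv ((smul_eq_zero_iff_eq m).1 h5)

end Pool.Agent.CCS
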