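import Mathlib
import Pool.Agent.CCS.Stmts

set_option autoImplicit false

/-!
# CCS Mt: the fixed points of the `t`-elements of a normal subgroup on a simple module
-/

namespace Pool.Agent.CCS

open scoped commutatorElement

theorem thm_Mt : St_Mt := by
  intro Γ W _ _ _ M t hM hS hex v hv
  let C : AddSubgroup W :=
    { carrier := {v | ∀ m ∈ M, (∃ k : ℕ, m ^ (t ^ k) = 1) → m • v = v}
      zero_mem' := fun m _ _ => smul_zero m
      add_mem' := fun {a b} ha hb m hm hk => by rw [smul_add, ha m hm hk, hb m hm hk]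
      neg_mem' := fun {a} ha m hm hk => by rw [smul_neg, ha m hm hk] }
  have hC : ∀ w : W, w ∈ C ↔ ∀ m ∈ M, (∃ k : ℕ, m ^ (t ^ k) = 1) → m • w = w := fun w => Iff.rfl
  have hinv : Inv Γ C := by
    intro g u hu
    rw [hC] at hu ⊢
    intro m hm hk
    obtain ⟨k, hk⟩ := hk
    have h1 : g⁻¹ * m * g ∈ M := by
      have := hM.conj_mem m hm g⁻¹
      rwa [inv_inv] at this
    have h2 : (g⁻¹ * m * g) ^ (t ^ k) = 1 := by
      have := conj_pow (i := t ^ k) (a := g⁻¹) (b := m)
      rw [inv_inv] at this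
      rw [this, hk, mul_one, inv_mul_cancel]
    have h3 := hu _ h1 ⟨k, h2⟩
    have h4 : m • g • u = g • (g⁻¹ * m * g) • u := by
      rw [smul_smul, smul_smul]
      congr 1
      group
    rw [h4, h3]
  rcases hS.2 C hinv with h | h
  · by_contra hcon
    push Not at hcon
    have : v ∈ C := (hC v).2 fun m hm hk => hcon m hm hk
    rw [h] at this
    exact hv ((AddSubgroup.mem_bot).1 this)
  · obtain ⟨m, hm, hk, w, hw⟩ := hex
    have : w ∈ C := by rw [h]; exact AddSubgroup.mem_top _
    exact absurd ((hC w).1 this m hm hk) hw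

end Pool.Agent.CCS
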