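import Mathlib
import Pool.Agent.CCS.Stmts

/-!
# CCS, module NM: `N ≤ M₀` by coprime orders
-/

set_option autoImplicit false

namespace Pool.Agent.CCS

open scoped commutatorElement

namespace NM

/-- elements which are central modulo `M` -/
def cen {G : Type} [Group G] (M : Subgroup G) [M.Normal] : Subgroup G :=
  (Subgroup.center (G ⧸ M)).comap (QuotientGroup.mk' M)

theorem mem_cen {G : Type} [Group G] (M : Subgroup G) [M.Normal] (x : G) :
    x ∈ cen M ↔ ∀ g : G, ⁅x, g⁆ ∈ M := by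
  unfold cen
  rw [Subgroup.mem_comap, Subgroup.mem_center_iff]
  constructor
  · intro h g
    rw [← QuotientGroup.eq_one_iff, commutatorElement_def]
    have h1 := h (QuotientGroup.mk' M g)
    simp only [QuotientGroup.mk'_apply] at h1
    rw [QuotientGroup.mk_mul, QuotientGroup.mk_mul, QuotientGroup.mk_mul, QuotientGroup.mk_inv,
      QuotientGroup.mk_inv, ← h1]
    group
  · intro h g
    obtain ⟨g, rfl⟩ := QuotientGroup.mk_surjective g
    have h1 := h g
    rw [← QuotientGroup.eq_one_iff, commutatorElement_def, QuotientGroup.mk_mul,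
      QuotientGroup.mk_mul, QuotientGroup.mk_mul, QuotientGroup.mk_inv, QuotientGroup.mk_inv] at h1
    simp only [QuotientGroup.mk'_apply]
    have h2 : (x : G ⧸ M) * (g : G ⧸ M) = (g : G ⧸ M) * (x : G ⧸ M) := by
      calc (x : G ⧸ M) * (g : G ⧸ M)
          = ((x : G ⧸ M) * (g : G ⧸ M) * (x : G ⧸ M)⁻¹ * (g : G ⧸ M)⁻¹) *
            ((g : G ⧸ M) * (x : G ⧸ M)) := by group
        _ = _ := by rw [h1, one_mul]
    exact h2.symm

theorem A_le {G : Type} [Group G] [Finite G] (K A M : Subgroup G) (hKA : KA G K A) [M.Normal]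
    (h : ∀ p : ℕ, p.Prime → Bur G p → ∀ P : Sylow p G, ∀ y ∈ (P : Subgroup G), ∀ g : G,
      ⁅y, g⁆ ∈ M) : A ≤ cen M := by
  intro a ha
  have hn : (cen M).Normal := by
    unfold cen
    infer_instance
  rw [← QuotientGroup.eq_one_iff]
  by_contra hne
  have h1 : orderOf (a : G ⧸ cen M) ≠ 1 := fun h2 => hne (orderOf_eq_one_iff.mp h2)
  obtain ⟨p, hp, hpd⟩ := Nat.exists_prime_and_dvd h1
  have hda : orderOf (a : G ⧸ cen M) ∣ orderOf a :=
    orderOf_map_dvd (QuotientGroup.mk' (cen M)) a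
  have hcard : orderOf a ∣ Nat.card A := by
    have h2 := orderOf_dvd_natCard (⟨a, ha⟩ : A)
    rwa [← Subgroup.orderOf_coe] at h2
  have hpA : p ∣ Nat.card A := (hpd.trans hda).trans hcard
  have hB : Bur G p := by
    by_contra hB
    exact hKA.ab p hp hB hpA
  obtain ⟨P, hP⟩ := hKA.syl p hp hB
  have hpos : orderOf a ≠ 0 := (orderOf_pos a).ne'
  obtain ⟨k, m, hm, hkm⟩ := Nat.exists_eq_pow_mul_and_not_dvd hpos p hp.ne_one
  have hy : PEl A p (a ^ m) := by
    refine ⟨A.pow_mem ha m, k, ?_⟩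
    rw [← pow_mul, mul_comm, ← hkm, pow_orderOf_eq_one]
  have hc : a ^ m ∈ cen M := (mem_cen M _).2 (h p hp hB P _ ((hP _).2 hy))
  have h3 : (a : G ⧸ cen M) ^ m = 1 := by
    rw [← QuotientGroup.mk_pow, QuotientGroup.eq_one_iff]
    exact hc
  exact hm (hpd.trans (orderOf_dvd_of_pow_eq_one h3))

end NM

open NM in
theorem thm_NM : St_NM := by
  intro G _ _ K A M hKA hM h
  have := hM
  have hA := A_le K A M hKA h
  have hcop : (Nat.card A).Coprime (Nat.card K) := by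
    refine Nat.coprime_of_dvd fun p hp h1 h2 => ?_
    by_cases hB : Bur G p
    · exact hKA.kb p hp hB h2
    · exact hKA.ab p hp hB h1
  have hnorm : (A ⊔ M).Normal := by
    refine ⟨fun x hx g => ?_⟩
    rw [Subgroup.mem_sup_of_normal_right] at hx ⊢
    obtain ⟨a, ha, m, hm, rfl⟩ := hx
    have h1 : ⁅a, g⁆ ∈ M := (mem_cen M a).1 (hA ha) g
    refine ⟨a, ha, a⁻¹ * (g * a * g⁻¹) * (g * m * g⁻¹), ?_, by group⟩
    refine M.mul_mem ?_ (hM.conj_mem m hm g)
    have h2 : a⁻¹ * (g * a * g⁻¹) = a⁻¹ * ⁅a, g⁆⁻¹ * a⁻¹⁻¹ := by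
      rw [commutatorElement_def]
      group
    rw [h2]
    exact hM.conj_mem _ (M.inv_mem h1) a⁻¹
  have hR : Subgroup.normalClosure (A : Set G) ≤ A ⊔ M :=
    Subgroup.normalClosure_le_normal (fun x hx => (le_sup_left : A ≤ A ⊔ M) hx)
  intro x hx
  unfold NN at hx
  rw [Subgroup.mem_inf] at hx
  have hx2 := hR hx.2
  rw [Subgroup.mem_sup_of_normal_right] at hx2
  obtain ⟨a, ha, m, hm, hxe⟩ := hx2
  have h1 : (x : G ⧸ M) = (a : G ⧸ M) := by
    rw [← hxe, QuotientGroup.mk_mul, (QuotientGroup.eq_one_iff m).2 hm, mul_one]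
  have h2 : orderOf (x : G ⧸ M) ∣ Nat.card A := by
    rw [h1]
    have h3 := orderOf_dvd_natCard (⟨a, ha⟩ : A)
    rw [← Subgroup.orderOf_coe] at h3
    exact (orderOf_map_dvd (QuotientGroup.mk' M) a).trans h3
  have h4 : orderOf (x : G ⧸ M) ∣ Nat.card K := by
    have h3 := orderOf_dvd_natCard (⟨x, hx.1⟩ : K)
    rw [← Subgroup.orderOf_coe] at h3
    exact (orderOf_map_dvd (QuotientGroup.mk' M) x).trans h3
  have h5 : orderOf (x : G ⧸ M) = 1 := Nat.eq_one_of_dvd_coprimes hcop h2 h4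
  exact (QuotientGroup.eq_one_iff x).1 (orderOf_eq_one_iff.1 h5)

end Pool.Agent.CCS
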