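import Mathlib
import Pool.Agent.CCS.Stmts

/-!
# CCS/Nil (helper55): Burnside primes and nilpotent quotients
-/

set_option autoImplicit false

namespace Pool.Agent.CCS

open scoped commutatorElement

/-- `St_Nil`. -/
theorem thm_Nil : St_Nil := by
  intro G _ _ M _ hnil p hp hB P y hy g
  have hpf : Fact p.Prime := ⟨hp⟩
  have hsurj : Function.Surjective (QuotientGroup.mk' M) := QuotientGroup.mk'_surjective M
  have htfae := ((Group.isNilpotent_of_finite_tfae (G := G ⧸ M)).out 0 3 rfl rfl).1 hnil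
  set P' : Sylow p (G ⧸ M) := P.mapSurjective hsurj with hP'
  have hP'c : (P' : Subgroup (G ⧸ M)) = (P : Subgroup G).map (QuotientGroup.mk' M) := Sylow.coe_mapSurjective hsurj P
  have hPn : (P' : Subgroup (G ⧸ M)).Normal := htfae p hpf P'
  -- `P` is abelian
  have hab : ∀ a ∈ (P : Subgroup G), ∀ b ∈ (P : Subgroup G), a * b = b * a := by
    intro a ha b hb
    have hN : Nrm (P : Subgroup G) a := fun z hz =>
      (P : Subgroup G).mul_mem ((P : Subgroup G).mul_mem ha hz) ((P : Subgroup G).inv_mem ha)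
    exact hB P a hN b hb
  have hab' : ∀ a ∈ (P' : Subgroup (G ⧸ M)), ∀ b ∈ (P' : Subgroup (G ⧸ M)), a * b = b * a := by
    intro a ha b hb
    rw [hP'c] at ha hb
    obtain ⟨a', ha', rfl⟩ := ha
    obtain ⟨b', hb', rfl⟩ := hb
    rw [← map_mul, ← map_mul, hab a' ha' b' hb']
  have hC : Subgroup.centralizer ((P' : Subgroup (G ⧸ M)) : Set (G ⧸ M)) = ⊤ := by
    rw [← Subgroup.index_eq_one, Nat.eq_one_iff_not_exists_prime_dvd]
    intro q hq hdvd
    have hqf : Fact q.Prime := ⟨hq⟩
    let Q : Sylow q (G ⧸ M) := default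
    have hQn : (Q : Subgroup (G ⧸ M)).Normal := htfae q hqf Q
    have hle : (Q : Subgroup (G ⧸ M)) ≤ Subgroup.centralizer ((P' : Subgroup (G ⧸ M)) : Set (G ⧸ M)) := by
      intro b hb
      rw [Subgroup.mem_centralizer_iff]
      intro a ha
      by_cases hpq : p = q
      · subst hpq
        have hu := Sylow.unique_of_normal P' hPn
        have h1 : Q = P' := hu.instSubsingleton.elim _ _
        rw [h1] at hb
        exact hab' a ha b hb
      · have hdis : Disjoint (P' : Subgroup (G ⧸ M)) (Q : Subgroup (G ⧸ M)) :=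
          IsPGroup.disjoint_of_ne p q hpq _ _ P'.isPGroup' Q.isPGroup'
        exact Subgroup.commute_of_normal_of_disjoint _ _ hPn hQn hdis a b ha hb
    exact Q.not_dvd_index (hdvd.trans (Subgroup.index_dvd_of_le hle))
  have hyP : QuotientGroup.mk' M y ∈ (P' : Subgroup (G ⧸ M)) := by
    rw [hP'c]
    exact Subgroup.mem_map_of_mem _ hy
  have hg : QuotientGroup.mk' M g ∈ Subgroup.centralizer ((P' : Subgroup (G ⧸ M)) : Set (G ⧸ M)) := by
    rw [hC]
    exact Subgroup.mem_top _
  have hcomm : QuotientGroup.mk' M y * QuotientGroup.mk' M g = QuotientGroup.mk' M g * QuotientGroup.mk' M y :=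
    (Subgroup.mem_centralizer_iff.1 hg) _ hyP
  have h1 : QuotientGroup.mk' M ⁅y, g⁆ = 1 := by
    rw [map_commutatorElement, commutatorElement_eq_one_iff_mul_comm]
    exact hcomm
  exact (QuotientGroup.eq_one_iff _).1 h1

end Pool.Agent.CCS
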