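import Mathlib
import Pool.Agent.CCS.Stmts

/-!
# CCS, module PV: `p`-elements of `A` acting trivially on `F / Z` are central
-/

set_option autoImplicit false

namespace Pool.Agent.CCS

open scoped commutatorElement

namespace PV

/-- the elements acting trivially on `F` modulo `Z` -/
def triv {G : Type} [Group G] (F Z : Subgroup G) (hF : F.Normal) (hZ : Z.Normal) : Subgroup G where
  carrier := {g | ∀ f ∈ F, ⁅g, f⁆ ∈ Z}
  mul_mem' := by
    intro a b ha hb f hf
    have h1 : ⁅a * b, f⁆ = (a * ⁅b, f⁆ * a⁻¹) * ⁅a, f⁆ := by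
      simp only [commutatorElement_def]
      group
    rw [h1]
    exact Z.mul_mem (hZ.conj_mem _ (hb f hf) a) (ha f hf)
  one_mem' := by
    intro f hf
    simp only [commutatorElement_def]
    simp [Z.one_mem]
  inv_mem' := by
    intro a ha f hf
    have h1 : ⁅a⁻¹, f⁆ = a⁻¹ * ⁅a, f⁆⁻¹ * a⁻¹⁻¹ := by
      simp only [commutatorElement_def]
      group
    rw [h1]
    exact hZ.conj_mem _ (Z.inv_mem (ha f hf)) a⁻¹

theorem triv_normal {G : Type} [Group G] (F Z : Subgroup G) (hF : F.Normal) (hZ : Z.Normal) :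
    (triv F Z hF hZ).Normal := by
  refine ⟨fun c hc g f hf => ?_⟩
  have h1 : ⁅g * c * g⁻¹, f⁆ = g * ⁅c, g⁻¹ * f * g⁻¹⁻¹⁆ * g⁻¹ := by
    simp only [commutatorElement_def]
    group
  rw [h1]
  exact hZ.conj_mem _ (hc _ (hF.conj_mem f hf g⁻¹)) g

end PV

open PV in
theorem thm_PV : St_PV := by
  intro G _ _ K A F hKA hF hFN hmax p hp hB hact y hy g
  have hK : K.Normal := hKA.norm
  have : Fact p.Prime := ⟨hp⟩
  obtain ⟨P, hP⟩ := hKA.syl p hp hB
  have hZ : (F ⊓ frattini G).Normal := by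
    have := hF
    infer_instance
  set Z := F ⊓ frattini G with hZdef
  have hPA : ∀ y ∈ (P : Subgroup G), y ∈ A := fun y hy => ((hP y).1 hy).1
  set D := Subgroup.normalClosure ((P : Subgroup G) : Set G) with hD
  have hPD : (P : Subgroup G) ≤ D := Subgroup.subset_normalClosure
  have hDC : D ≤ triv F Z hF hZ := by
    have := triv_normal F Z hF hZ
    refine Subgroup.normalClosure_le_normal fun y hy => ?_
    exact hact y ((hP y).1 hy)
  -- `K ⊔ P` is normal
  have hKP : (K ⊔ (P : Subgroup G)).Normal := by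
    refine ⟨fun x hx g => ?_⟩
    rw [Subgroup.mem_sup_of_normal_left] at hx ⊢
    obtain ⟨k, hk, y, hy, rfl⟩ := hx
    have hg : g ∈ K ⊔ A := by
      rw [hKA.sup]
      exact Subgroup.mem_top g
    rw [Subgroup.mem_sup_of_normal_left] at hg
    obtain ⟨k', hk', a, ha, rfl⟩ := hg
    refine ⟨(k' * a * k * (k' * a)⁻¹) * (k' * (y * k'⁻¹ * y⁻¹)), ?_, y, hy, ?_⟩
    · exact K.mul_mem (hK.conj_mem k hk _) (K.mul_mem hk' (hK.conj_mem _ (K.inv_mem hk') y))
    · have h1 : a * y * a⁻¹ = y := by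
        rw [hKA.comm a ha y (hPA y hy)]
        group
      calc (k' * a * k * (k' * a)⁻¹) * (k' * (y * k'⁻¹ * y⁻¹)) * y
          = (k' * a * k * (k' * a)⁻¹) * (k' * y * k'⁻¹) := by group
        _ = (k' * a * k * (k' * a)⁻¹) * (k' * (a * y * a⁻¹) * k'⁻¹) := by rw [h1]
        _ = k' * a * (k * y) * (k' * a)⁻¹ := by group
  have hDKP : D ≤ K ⊔ (P : Subgroup G) :=
    Subgroup.normalClosure_le_normal fun y hy =>
      (le_sup_right : (P : Subgroup G) ≤ K ⊔ (P : Subgroup G)) hy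
  have hDA : D ≤ Subgroup.normalClosure (A : Set G) :=
    Subgroup.normalClosure_mono fun y hy => hPA y hy
  have hX : ∀ x ∈ D, x ∈ K → x ∈ F := by
    intro x hxD hxK
    refine hmax x ?_ (hDC hxD)
    unfold NN
    exact ⟨hxK, hDA hxD⟩
  have hDn : D.Normal := Subgroup.normalClosure_normal
  have hfr : Subgroup.normalizer ((P : Subgroup G) : Set G) ⊔ D = ⊤ :=
    Sylow.normalizer_sup_eq_top' P hPD
  -- `P ⊔ Z` is normal
  have := hZ
  have hL : ((P : Subgroup G) ⊔ Z).Normal := by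
    refine ⟨fun l hl g => ?_⟩
    rw [Subgroup.mem_sup_of_normal_right] at hl
    obtain ⟨y, hy, z, hz, rfl⟩ := hl
    have hg : g ∈ Subgroup.normalizer ((P : Subgroup G) : Set G) ⊔ D := by
      rw [hfr]
      exact Subgroup.mem_top g
    rw [Subgroup.mem_sup_of_normal_right] at hg
    obtain ⟨n, hn, d, hd, rfl⟩ := hg
    have hd' : n * d * n⁻¹ ∈ D := hDn.conj_mem d hd n
    have hd'' := hDKP hd'
    rw [Subgroup.mem_sup_of_normal_left] at hd''
    obtain ⟨x, hx, w, hw, hxw⟩ := hd''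
    have hxF : x ∈ F := by
      refine hX x ?_ hx
      have h1 : x = n * d * n⁻¹ * w⁻¹ := by
        rw [← hxw]
        group
      rw [h1]
      exact D.mul_mem hd' (D.inv_mem (hPD hw))
    have hy' : n * y * n⁻¹ ∈ (P : Subgroup G) := (Subgroup.mem_normalizer_iff.1 hn y).1 hy
    have hv : w * (n * y * n⁻¹) * w⁻¹ ∈ (P : Subgroup G) :=
      (P : Subgroup G).mul_mem ((P : Subgroup G).mul_mem hw hy') ((P : Subgroup G).inv_mem hw)
    set v := w * (n * y * n⁻¹) * w⁻¹ with hvdef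
    have h2 : ⁅v⁻¹, x⁆ ∈ Z := hact v⁻¹ ((hP _).1 ((P : Subgroup G).inv_mem hv)) x hxF
    have h3 : n * d * (y * z) * (n * d)⁻¹ = v * (⁅v⁻¹, x⁆ * (n * d * z * (n * d)⁻¹)) := by
      have h4 : n * d = x * w * n := by
        rw [hxw]
        group
      rw [h4, hvdef, commutatorElement_def]
      group
    rw [h3]
    exact ((P : Subgroup G) ⊔ Z).mul_mem ((le_sup_left : (P : Subgroup G) ≤ _) hv)
      ((le_sup_right : Z ≤ (P : Subgroup G) ⊔ Z) (Z.mul_mem h2 (hZ.conj_mem z hz _)))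
  have hfr2 : Subgroup.normalizer ((P : Subgroup G) : Set G) ⊔ ((P : Subgroup G) ⊔ Z) = ⊤ := by
    have := hL
    exact Sylow.normalizer_sup_eq_top' P le_sup_left
  have hfr3 : Subgroup.normalizer ((P : Subgroup G) : Set G) ⊔ frattini G = ⊤ := by
    rw [← sup_assoc, sup_eq_left.2 (Subgroup.le_normalizer : (P : Subgroup G) ≤ _)] at hfr2
    refine le_antisymm le_top ?_
    rw [← hfr2]
    exact sup_le_sup_left inf_le_right _
  have hN : Subgroup.normalizer ((P : Subgroup G) : Set G) = ⊤ := frattini_nongenerating hfr3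
  have hgN : g ∈ Subgroup.normalizer ((P : Subgroup G) : Set G) := by
    rw [hN]
    exact Subgroup.mem_top g
  have hc := hB P g fun y hy => (Subgroup.mem_normalizer_iff.1 hgN y).1 hy
  exact (hc y ((hP y).2 hy)).symm

end Pool.Agent.CCS
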