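import Mathlib
import Pool.Agent.CCS.Stmts

set_option autoImplicit false

/-!
# CCS/Pow: an element lies in a subgroup if its powers of prime power order do (helper42, after the plan of helper22)
-/

namespace Pool.Agent.CCS

open scoped commutatorElement

theorem thm_Pow : St_Pow := by
  intro Γ _ _ a Ker h
  classical
  have hn : 0 < orderOf a := orderOf_pos a
  have hex : ∃ d : ℕ, 0 < d ∧ a ^ d ∈ Ker := ⟨orderOf a, hn, by rw [pow_orderOf_eq_one]; exact Ker.one_mem⟩
  obtain ⟨hd0, hd⟩ := Nat.find_spec hex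
  have hmin : ∀ m, 0 < m → a ^ m ∈ Ker → Nat.find hex ≤ m := fun m h1 h2 => Nat.find_min' hex ⟨h1, h2⟩
  generalize Nat.find hex = d at hd0 hd hmin
  have hdiv : ∀ m, a ^ m ∈ Ker → d ∣ m := by
    intro m hm
    have h1 : a ^ (m % d) ∈ Ker := by
      have h2 : a ^ (m % d) = a ^ m * ((a ^ d) ^ (m / d))⁻¹ := by
        rw [eq_mul_inv_iff_mul_eq, ← pow_mul, ← pow_add, Nat.mod_add_div]
      rw [h2]
      exact Ker.mul_mem hm (Ker.inv_mem (Ker.pow_mem hd _))
    by_contra hno
    have h3 : 0 < m % d := Nat.pos_of_ne_zero (fun h0 => hno (Nat.dvd_of_mod_eq_zero h0))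
    exact absurd (hmin _ h3 h1) (not_le.2 (Nat.mod_lt m hd0))
  by_cases h1 : d = 1
  · rw [h1, pow_one] at hd
    exact hd
  · exfalso
    have hq : (d.minFac).Prime := Nat.minFac_prime h1
    have hqd : d.minFac ∣ d := Nat.minFac_dvd d
    have hdn : d ∣ orderOf a := hdiv _ (by rw [pow_orderOf_eq_one]; exact Ker.one_mem)
    obtain ⟨v, m, hm, hnm⟩ := Nat.exists_eq_pow_mul_and_not_dvd hn.ne' d.minFac hq.ne_one
    have h2 : a ^ m ∈ Ker := by
      refine h d.minFac m hq (hqd.trans hdn) ⟨v, ?_⟩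
      rw [← pow_mul, mul_comm, ← hnm, pow_orderOf_eq_one]
    exact hm (hqd.trans (hdiv m h2))

end Pool.Agent.CCS
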