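import Mathlib
import Pool.Agent.CCS.Stmts

/-!
# CCS Prx: primitive idempotents of a finite reduced commutative ring (helper56)
-/

set_option autoImplicit false

namespace Pool.Agent.CCS

open scoped commutatorElement

private theorem prx_aux (R : Type) [CommRing R] (ι : Type) [Fintype ι] [DecidableEq ι]
    (K : ι → Type) [∀ i, CommRing (K i)] (hK : ∀ i, IsField (K i)) (φ : R ≃+* ∀ i, K i) :
    ∃ Ω : Finset R, (∀ e : R, e ∈ Ω ↔ Prm e) ∧
    (∀ e ∈ Ω, ∀ e' ∈ Ω, e ≠ e' → e * e' = 0) ∧ ∑ e ∈ Ω, e = 1 := by
  classical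
  have h10 : ∀ i, (1 : K i) ≠ 0 := by
    intro i h
    obtain ⟨x, y, hxy⟩ := (hK i).exists_pair_ne
    exact hxy (by rw [← mul_one x, ← mul_one y, h, mul_zero, mul_zero])
  have hinj : ∀ x y : R, (∀ j, φ x j = φ y j) → x = y := fun x y h =>
    φ.injective (funext h)
  obtain ⟨e, he⟩ : ∃ e : ι → R, ∀ i, φ (e i) = Pi.single i 1 :=
    ⟨fun i => φ.symm (Pi.single i 1), fun i => φ.apply_symm_apply _⟩
  have hee : ∀ i, φ (e i) i = 1 := fun i => by rw [he, Pi.single_eq_same]
  have hne : ∀ i j, j ≠ i → φ (e i) j = 0 := fun i j h => by rw [he, Pi.single_eq_of_ne h]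
  have hP : ∀ i, Prm (e i) := by
    intro i
    refine ⟨?_, ?_, ?_⟩
    · refine hinj _ _ fun j => ?_
      rw [map_mul, Pi.mul_apply]
      by_cases h : j = i
      · subst h
        rw [hee, mul_one]
      · rw [hne i j h, mul_zero]
    · intro h
      have h1 := hee i
      rw [h, map_zero, Pi.zero_apply] at h1
      exact h10 i h1.symm
    · intro r
      by_cases h : φ r i = 0
      · left
        refine hinj _ _ fun j => ?_
        rw [map_mul, Pi.mul_apply, map_zero, Pi.zero_apply]
        by_cases hj : j = i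
        · subst hj
          rw [h, mul_zero]
        · rw [hne i j hj, zero_mul]
      · right
        obtain ⟨b, hb⟩ := (hK i).mul_inv_cancel h
        refine ⟨φ.symm (Pi.single i b), hinj _ _ fun j => ?_⟩
        rw [map_mul, map_mul, Pi.mul_apply, Pi.mul_apply, φ.apply_symm_apply]
        by_cases hj : j = i
        · subst hj
          rw [hee, one_mul, Pi.single_eq_same, hb]
        · rw [hne i j hj, zero_mul, zero_mul]
  have hC : ∀ f, Prm f → ∃ i, e i = f := by
    rintro f ⟨f1, f2, f3⟩
    have h1 : ∃ i, φ f i ≠ 0 := by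
      by_contra hc
      push Not at hc
      refine f2 (hinj _ _ fun j => ?_)
      rw [hc j, map_zero, Pi.zero_apply]
    obtain ⟨i, hi⟩ := h1
    have h2 : f * e i ≠ 0 := by
      intro h
      have h3 : φ (f * e i) i = 0 := by rw [h, map_zero, Pi.zero_apply]
      rw [map_mul, Pi.mul_apply, hee, mul_one] at h3
      exact hi h3
    rcases f3 (e i) with h3 | ⟨s, hs⟩
    · exact absurd h3 h2
    · refine ⟨i, hinj _ _ fun j => ?_⟩
      by_cases hj : j = i
      · subst hj
        rw [hee]
        obtain ⟨b, hb⟩ := (hK j).mul_inv_cancel hi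
        have h4 : φ f j * φ f j = φ f j := by
          rw [← Pi.mul_apply, ← map_mul, f1]
        calc (1 : K j) = φ f j * b := hb.symm
          _ = φ f j * φ f j * b := by rw [h4]
          _ = φ f j * (φ f j * b) := mul_assoc _ _ _
          _ = φ f j := by rw [hb, mul_one]
      · rw [hne i j hj, ← hs, map_mul, map_mul, Pi.mul_apply, Pi.mul_apply, hne i j hj, mul_zero,
          zero_mul]
  have hei : Function.Injective e := by
    intro i j hij
    by_contra hne'
    have h1 := hee i
    rw [hij, hne j i hne'] at h1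
    exact h10 i h1.symm
  refine ⟨Finset.univ.image e, ?_, ?_, ?_⟩
  · intro f
    rw [Finset.mem_image]
    constructor
    · rintro ⟨i, _, rfl⟩
      exact hP i
    · intro hf
      obtain ⟨i, hi⟩ := hC f hf
      exact ⟨i, Finset.mem_univ _, hi⟩
  · intro f hf f' hf' hff
    obtain ⟨i, _, rfl⟩ := Finset.mem_image.mp hf
    obtain ⟨j, _, rfl⟩ := Finset.mem_image.mp hf'
    have hij : i ≠ j := fun h => hff (by rw [h])
    refine hinj _ _ fun l => ?_
    rw [map_mul, Pi.mul_apply, map_zero, Pi.zero_apply]
    by_cases hl : l = i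
    · subst hl
      rw [hne j l hij, mul_zero]
    · rw [hne i l hl, zero_mul]
  · rw [Finset.sum_image fun i _ j _ h => hei h]
    apply φ.injective
    rw [map_sum, map_one]
    simp only [he]
    exact Finset.univ_sum_single (fun i => (1 : K i))

/-- [Prx] -/
theorem thm_Prx : St_Prx := by
  intro R _ _ _
  classical
  have : Fintype (MaximalSpectrum R) := Fintype.ofFinite _
  exact prx_aux R (MaximalSpectrum R) (fun i => R ⧸ i.asIdeal)
    (fun i => (Ideal.Quotient.maximal_ideal_iff_isField_quotient _).mp i.isMaximal)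
    (IsArtinianRing.equivPi R)

end Pool.Agent.CCS
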