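import Mathlib
import Pool.Agent.CCS.Stmts

set_option autoImplicit false

/-!
# CCS: the subgroup `Q` acts nontrivially on the fixed points of `K` in `F / Z`
-/

namespace Pool.Agent.CCS

open scoped commutatorElement

namespace QV

/-- The intersection of a Sylow subgroup with a nilpotent normal subgroup is normal. -/
theorem inf_normal {G : Type} [Group G] [Finite G] (F : Subgroup G) (hF : F.Normal)
    (hn : Group.IsNilpotent F) (t : ℕ) (ht : t.Prime) (T : Sylow t G) :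
    ((T : Subgroup G) ⊓ F).Normal := by
  have := Fact.mk ht
  have := hF
  obtain ⟨P⟩ : Nonempty (Sylow t F) := inferInstance
  have hP : (P : Subgroup F).Normal :=
    (Group.isNilpotent_of_finite_tfae.out 0 3 rfl rfl).mp hn t ⟨ht⟩ P
  have hPc : (P : Subgroup F).Characteristic := P.characteristic_of_normal hP
  have hNn : ((P : Subgroup F).map F.subtype).Normal := inferInstance
  have hNp : IsPGroup t ((P : Subgroup F).map F.subtype) := P.2.map _
  have heq : (T : Subgroup G) ⊓ F = (P : Subgroup F).map F.subtype := by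
    apply le_antisymm
    · intro x hx
      have hu := Sylow.unique_of_normal P hP
      have hQ : IsPGroup t (((T : Subgroup G) ⊓ F).subgroupOf F) := by
        apply IsPGroup.comap_of_injective
        · exact T.2.to_le inf_le_left
        · exact Subtype.val_injective
      obtain ⟨P₁, hP₁⟩ := hQ.exists_le_sylow
      have h1 : P₁ = P := Subsingleton.elim _ _
      have h2 : (⟨x, hx.2⟩ : F) ∈ (P : Subgroup F) := by
        rw [← h1]
        apply hP₁
        rw [Subgroup.mem_subgroupOf]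
        exact hx
      exact ⟨⟨x, hx.2⟩, h2, rfl⟩
    · apply le_inf
      · exact hNp.le_sylow_of_normal T
      · exact Subgroup.map_subtype_le _
  rw [heq]
  exact hNn

/-- Burnside's normal complement. -/
theorem compl {G : Type} [Group G] [Finite G] (K : Subgroup G) (hK : K.Normal) (t : ℕ)
    (ht : t.Prime) (T : Sylow t G) (hTK : (T : Subgroup G) ≤ K)
    (hc : ∀ k ∈ K, Nrm (T : Subgroup G) k → Cen (T : Subgroup G) k) :
    ∃ K' : Subgroup G, K'.Normal ∧ K' ≤ K ∧ (∀ x ∈ K', x ∈ (T : Subgroup G) → x = 1) ∧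
      ∀ k ∈ K, ∃ k' ∈ K', ∃ x ∈ (T : Subgroup G), k = k' * x := by
  have := Fact.mk ht
  have := hK
  let T' : Sylow t K := T.subtype hTK
  have hT' : ∀ x : K, x ∈ (T' : Subgroup K) ↔ (x : G) ∈ (T : Subgroup G) := fun x => Iff.rfl
  have hP : Subgroup.normalizer (T' : Set K) ≤ Subgroup.centralizer (T' : Set K) := by
    intro k hk
    rw [Subgroup.mem_centralizer_iff]
    have h1 : Nrm (T : Subgroup G) (k : G) := by
      intro y hy
      have h2 := (Subgroup.mem_normalizer_iff.1 hk ⟨y, hTK hy⟩).1 hy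
      exact h2
    have h3 := hc k k.2 h1
    intro x hx
    exact Subtype.ext (h3 (x : G) hx).symm
  have hcompl := MonoidHom.ker_transferSylow_isComplement' T' hP
  have hcard := MonoidHom.not_dvd_card_ker_transferSylow T' hP
  obtain ⟨f, hf⟩ : ∃ f : K →* T', f = MonoidHom.transferSylow T' hP := ⟨_, rfl⟩
  rw [← hf] at hcompl hcard
  have hmem : ∀ x : K, ¬ t ∣ orderOf x → x ∈ f.ker := by
    intro x hx
    rw [MonoidHom.mem_ker]
    have h1 : orderOf (f x) ∣ orderOf x := orderOf_map_dvd f x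
    obtain ⟨k, hk⟩ := (IsPGroup.iff_orderOf.1 T'.2) (f x)
    rcases Nat.eq_zero_or_pos k with h0 | h0
    · rw [h0, pow_zero] at hk
      exact orderOf_eq_one_iff.1 hk
    · exfalso
      apply hx
      apply dvd_trans _ h1
      rw [hk]
      exact dvd_pow_self t h0.ne'
  have hord : ∀ x ∈ f.ker, ¬ t ∣ orderOf x := by
    intro x hx h
    apply hcard
    apply h.trans
    have h1 : orderOf (⟨x, hx⟩ : f.ker) = orderOf x := Subgroup.orderOf_mk x hx
    rw [← h1]
    exact orderOf_dvd_natCard _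
  refine ⟨f.ker.map K.subtype, ⟨?_⟩, Subgroup.map_subtype_le _, ?_, ?_⟩
  · rintro _ ⟨x, hx, rfl⟩ g
    refine ⟨MulAut.conjNormal g x, ?_, ?_⟩
    · apply hmem
      have h1 : orderOf (MulAut.conjNormal g x) = orderOf x :=
        MulEquiv.orderOf_eq (MulAut.conjNormal g) x
      rw [h1]
      exact hord x hx
    · simp [MulAut.conjNormal_apply]
  · rintro _ ⟨x, hx, rfl⟩ hxT
    have h1 : x ∈ f.ker ⊓ (T' : Subgroup K) := ⟨hx, hxT⟩
    rw [disjoint_iff.1 hcompl.disjoint, Subgroup.mem_bot] at h1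
    rw [h1]
    rfl
  · intro k hk
    obtain ⟨⟨n, x⟩, h⟩ := hcompl.2 ⟨k, hk⟩
    refine ⟨(n : K), ⟨n, n.2, rfl⟩, ((x : K) : G), x.2, ?_⟩
    have h2 := congrArg (fun z : K => (z : G)) h
    exact h2.symm

/-- the subgroup `K' C B` -/
def J {G : Type} [Group G] (K' C B : Subgroup G) (hK' : K'.Normal)
    (hCB : ∀ b ∈ B, ∀ c ∈ C, b * c * b⁻¹ ∈ C) : Subgroup G where
  carrier := {g | ∃ k ∈ K', ∃ c ∈ C, ∃ b ∈ B, g = k * c * b}
  one_mem' := ⟨1, K'.one_mem, 1, C.one_mem, 1, B.one_mem, by simp⟩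
  mul_mem' := by
    rintro _ _ ⟨k, hk, c, hc, b, hb, rfl⟩ ⟨k₁, hk₁, c₁, hc₁, b₁, hb₁, rfl⟩
    refine ⟨k * ((c * b) * k₁ * (c * b)⁻¹), K'.mul_mem hk (hK'.conj_mem _ hk₁ _),
      c * (b * c₁ * b⁻¹), C.mul_mem hc (hCB b hb c₁ hc₁), b * b₁, B.mul_mem hb hb₁, by group⟩
  inv_mem' := by
    rintro _ ⟨k, hk, c, hc, b, hb, rfl⟩
    refine ⟨(c * b)⁻¹ * k⁻¹ * ((c * b)⁻¹)⁻¹, hK'.conj_mem _ (K'.inv_mem hk) _,
      b⁻¹ * c⁻¹ * (b⁻¹)⁻¹, hCB _ (B.inv_mem hb) _ (C.inv_mem hc), b⁻¹, B.inv_mem hb, by group⟩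

/-- fixed points of `Q` in `T` -/
def Cn {G : Type} [Group G] (T Q : Subgroup G) : Subgroup G where
  carrier := {c | c ∈ T ∧ Cen Q c}
  one_mem' := ⟨T.one_mem, fun y _ => by rw [one_mul, mul_one]⟩
  mul_mem' := by
    rintro a b ⟨ha, ha'⟩ ⟨hb, hb'⟩
    refine ⟨T.mul_mem ha hb, fun y hy => ?_⟩
    rw [mul_assoc, hb' y hy, ← mul_assoc, ha' y hy, mul_assoc]
  inv_mem' := by
    rintro a ⟨ha, ha'⟩
    refine ⟨T.inv_mem ha, fun y hy => ?_⟩
    have h := ha' y hy
    calc a⁻¹ * y = a⁻¹ * (y * a) * a⁻¹ := by group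
      _ = a⁻¹ * (a * y) * a⁻¹ := by rw [h]
      _ = y * a⁻¹ := by group

end QV

/-- **[QV]** (L14). -/
theorem thm_QV (h0 : St_Cop) : St_QV := by
  intro G _ _ K A F hKA hF hFN hFn t ht htB T hTN hTc B s Q hs hsA hst hQB hBn hBab hKB hKBt hQT
  have := Fact.mk ht
  have := Fact.mk hs
  have := hKA.norm
  have := hF
  by_contra hcon
  have hstar : ∀ f ∈ F, (∀ k ∈ K, ⁅k, f⁆ ∈ F ⊓ frattini G) → ∀ y ∈ (Q : Subgroup G),
      ⁅y, f⁆ ∈ F ⊓ frattini G := by
    intro f hf hk y hy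
    by_contra hne
    exact hcon ⟨f, hf, hk, y, hy, hne⟩
  have htA : ¬ t ∣ Nat.card A := hKA.ab t ht htB
  have hsBur : Bur G s := by
    by_contra h
    exact hKA.ab s hs h hsA
  -- `T ≤ K`
  have hindex : K.index = Nat.card A := by
    have hc : K.IsComplement' A := by
      apply Subgroup.isComplement'_of_disjoint_and_mul_eq_univ
      · exact disjoint_iff.2 hKA.inf
      · rw [← Subgroup.normal_mul, hKA.sup, Subgroup.coe_top]
    exact hc.symm.index_eq_card
  have hTK : (T : Subgroup G) ≤ K := by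
    intro x hx
    rw [← QuotientGroup.eq_one_iff]
    have h1 : orderOf ((x : G) : G ⧸ K) ∣ Nat.card A := by
      rw [← hindex]
      exact orderOf_dvd_natCard _
    obtain ⟨k, hk⟩ := T.2 ⟨x, hx⟩
    have hk' : x ^ t ^ k = 1 := congrArg Subtype.val hk
    have h2 : orderOf ((x : G) : G ⧸ K) ∣ t ^ k := by
      apply orderOf_dvd_of_pow_eq_one
      rw [← QuotientGroup.mk_pow, hk', QuotientGroup.mk_one]
    have h3 : Nat.Coprime (t ^ k) (Nat.card A) :=
      Nat.Coprime.pow_left k ((Nat.Prime.coprime_iff_not_dvd ht).2 htA)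
    exact orderOf_eq_one_iff.1 (Nat.eq_one_of_dvd_coprimes h3 h2 h1)
  -- `T` is abelian
  have hTab : ∀ a ∈ (T : Subgroup G), ∀ b ∈ (T : Subgroup G), a * b = b * a := by
    intro a ha b hb
    exact hTc a (hTK ha) (fun y hy => (T : Subgroup G).mul_mem ((T : Subgroup G).mul_mem ha hy)
      ((T : Subgroup G).inv_mem ha)) b hb
  obtain ⟨K', hK'n, hK'K, hK'T, hKdec⟩ := QV.compl K hKA.norm t ht T hTK hTc
  -- `Q` is in the normal closure of `A`
  have hQR : (Q : Subgroup G) ≤ Subgroup.normalClosure (A : Set G) := by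
    obtain ⟨P, hP⟩ := hKA.syl s hs hsBur
    obtain ⟨g, hg⟩ := MulAction.exists_smul_eq G P Q
    intro y hy
    have h1 : y ∈ ((g • P : Sylow s G) : Subgroup G) := by rw [hg]; exact hy
    rw [Sylow.coe_subgroup_smul, Subgroup.mem_pointwise_smul_iff_inv_smul_mem] at h1
    have h2 : g⁻¹ * y * g ∈ (P : Subgroup G) := by
      simpa [MulAut.smul_def] using h1
    have h3 : g⁻¹ * y * g ∈ Subgroup.normalClosure (A : Set G) :=
      Subgroup.subset_normalClosure ((hP _).1 h2).1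
    have h4 := Subgroup.normalClosure_normal.conj_mem _ h3 g
    have h5 : g * (g⁻¹ * y * g) * g⁻¹ = y := by group
    rwa [h5] at h4
  have hQn : ∀ q ∈ (Q : Subgroup G), Nrm (T : Subgroup G) q := fun q hq => hBn q (hQB hq)
  -- `Y ≤ F`
  have hcomm : ∀ x ∈ (T : Subgroup G), ∀ q ∈ (Q : Subgroup G), ⁅x, q⁆ ∈ (T : Subgroup G) := by
    intro x hx q hq
    rw [commutatorElement_def]
    have h1 := hQn q hq x⁻¹ ((T : Subgroup G).inv_mem hx)
    have h2 : x * q * x⁻¹ * q⁻¹ = x * (q * x⁻¹ * q⁻¹) := by group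
    rw [h2]
    exact (T : Subgroup G).mul_mem hx h1
  have hYT : ⁅(T : Subgroup G), (Q : Subgroup G)⁆ ≤ (T : Subgroup G) :=
    Subgroup.commutator_le.2 hcomm
  have hYF : ⁅(T : Subgroup G), (Q : Subgroup G)⁆ ≤ F := by
    apply Subgroup.commutator_le.2
    intro x hx q hq
    apply hTN
    refine ⟨hcomm x hx q hq, hTK (hcomm x hx q hq), ?_⟩
    rw [commutatorElement_def]
    exact Subgroup.mul_mem _ (Subgroup.normalClosure_normal.conj_mem _ (hQR hq) x)
      (Subgroup.inv_mem _ (hQR hq))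
  -- `K` centralises `T ⊓ F`
  have hTF : ((T : Subgroup G) ⊓ F).Normal := QV.inf_normal F hF hFn t ht T
  have hKTF : ∀ x ∈ (T : Subgroup G), x ∈ F → ∀ k ∈ K, ⁅k, x⁆ = 1 := by
    intro x hx hxF k hk
    obtain ⟨k', hk', z, hz, rfl⟩ := hKdec k hk
    have h1 : ⁅k', x⁆ = 1 := by
      apply hK'T
      · rw [commutatorElement_def]
        have h2 : k' * x * k'⁻¹ * x⁻¹ = k' * (x * k'⁻¹ * x⁻¹) := by group
        rw [h2]
        exact K'.mul_mem hk' (hK'n.conj_mem _ (K'.inv_mem hk') x)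
      · rw [commutatorElement_def]
        exact (T : Subgroup G).mul_mem (hTF.conj_mem x ⟨hx, hxF⟩ k').1 ((T : Subgroup G).inv_mem hx)
    rw [commutatorElement_eq_one_iff_mul_comm] at h1 ⊢
    rw [mul_assoc, hTab z hz x hx, ← mul_assoc, h1, mul_assoc]
  have hTQcop : (Nat.card (T : Subgroup G)).Coprime (Nat.card (Q : Subgroup G)) := by
    obtain ⟨a, ha⟩ := IsPGroup.iff_card.1 T.2
    obtain ⟨b, hb⟩ := IsPGroup.iff_card.1 Q.2
    rw [ha, hb]
    exact Nat.Coprime.pow a b ((Nat.coprime_primes ht hs).2 (Ne.symm hst))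
  obtain ⟨hcop1, hcop2⟩ := h0 G (T : Subgroup G) (Q : Subgroup G) hTab hQn hTQcop
  have hYZ : ⁅(T : Subgroup G), (Q : Subgroup G)⁆ ≤ frattini G := by
    apply hcop2.trans
    apply Subgroup.commutator_le.2
    intro x hx y hy
    have h1 : ⁅y, x⁆ ∈ F ⊓ frattini G := by
      apply hstar x (hYF hx) _ y hy
      intro k hk
      rw [hKTF x (hYT hx) (hYF hx) k hk]
      exact Subgroup.one_mem _
    have h2 := (frattini G).inv_mem h1.2
    rwa [commutatorElement_inv] at h2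
  -- the subgroup `J`
  have hCB : ∀ b ∈ B, ∀ c ∈ QV.Cn (T : Subgroup G) (Q : Subgroup G),
      b * c * b⁻¹ ∈ QV.Cn (T : Subgroup G) (Q : Subgroup G) := by
    rintro b hb c ⟨hcT, hcQ⟩
    refine ⟨hBn b hb c hcT, fun y hy => ?_⟩
    have h1 : b * y = y * b := hBab b hb y (hQB hy)
    have h2 : b⁻¹ * y = y * b⁻¹ := hBab _ (B.inv_mem hb) y (hQB hy)
    calc b * c * b⁻¹ * y = b * c * (b⁻¹ * y) := by group
      _ = b * (c * y) * b⁻¹ := by rw [h2]; group
      _ = b * y * c * b⁻¹ := by rw [hcQ y hy]; group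
      _ = y * (b * c * b⁻¹) := by rw [h1]; group
  obtain ⟨J, hJ⟩ : ∃ J : Subgroup G, ∀ g, g ∈ J ↔ ∃ k ∈ K', ∃ c ∈ QV.Cn (T : Subgroup G) (Q : Subgroup G),
      ∃ b ∈ B, g = k * c * b := ⟨QV.J K' _ B hK'n hCB, fun g => Iff.rfl⟩
  have hJtop : J ⊔ frattini G = ⊤ := by
    have hK'J : K' ≤ J ⊔ frattini G := fun k hk => Subgroup.mem_sup_left
      ((hJ k).2 ⟨k, hk, 1, Subgroup.one_mem _, 1, B.one_mem, by simp⟩)
    have hBJ : B ≤ J ⊔ frattini G := fun b hb => Subgroup.mem_sup_left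
      ((hJ b).2 ⟨1, K'.one_mem, 1, Subgroup.one_mem _, b, hb, by simp⟩)
    have hTJ : (T : Subgroup G) ≤ J ⊔ frattini G := by
      intro x hx
      obtain ⟨c, hc, y, hy, hxe, hcQ⟩ := hcop1 x hx
      rw [hxe]
      apply Subgroup.mul_mem
      · exact Subgroup.mem_sup_left ((hJ c).2 ⟨1, K'.one_mem, c, ⟨hc, hcQ⟩, 1, B.one_mem, by simp⟩)
      · exact Subgroup.mem_sup_right (hYZ hy)
    have hKJ : K ≤ J ⊔ frattini G := by
      intro k hk
      obtain ⟨k', hk', x, hx, rfl⟩ := hKdec k hk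
      exact Subgroup.mul_mem _ (hK'J hk') (hTJ hx)
    rw [eq_top_iff, ← hKBt]
    exact sup_le hKJ hBJ
  have hJ1 : J = ⊤ := frattini_nongenerating hJtop
  obtain ⟨y, hy, hyT⟩ := hQT
  apply hyT
  intro x hx
  have hxJ : x ∈ J := by rw [hJ1]; exact Subgroup.mem_top x
  obtain ⟨k, hk, c, ⟨hcT, hcQ⟩, b, hb, hxe⟩ := (hJ x).1 hxJ
  have hb1 : b = 1 := by
    have h1 : b ∈ K ⊓ B := by
      refine ⟨?_, hb⟩
      have h2 : b = (k * c)⁻¹ * x := by rw [hxe]; group
      rw [h2]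
      exact K.mul_mem (K.inv_mem (K.mul_mem (hK'K hk) (hTK hcT))) (hTK hx)
    rw [hKB, Subgroup.mem_bot] at h1
    exact h1
  have hk1 : k = 1 := by
    apply hK'T k hk
    have h2 : k = x * c⁻¹ := by rw [hxe, hb1]; group
    rw [h2]
    exact (T : Subgroup G).mul_mem hx ((T : Subgroup G).inv_mem hcT)
  have hxc : x = c := by rw [hxe, hb1, hk1]; group
  rw [hxc]
  exact (hcQ y hy).symm

end Pool.Agent.CCS
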