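import Mathlib
import Pool.Agent.CCS.Stmts

set_option autoImplicit false

/-!
# CCS/RDx: the commutative reduced ring generated by an abelian normal subgroup
-/

namespace Pool.Agent.CCS.RDx

open scoped commutatorElement

variable {Γ V : Type} [Group Γ] [AddCommGroup V] [DistribMulAction Γ V]

/-- the action as endomorphisms -/
def phi (Γ V : Type) [Group Γ] [AddCommGroup V] [DistribMulAction Γ V] : Γ →* AddMonoid.End V :=
  DistribMulAction.toAddMonoidEnd Γ V

theorem phi_apply (g : Γ) (v : V) : phi Γ V g v = g • v := rfl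

/-- conjugation by `g` -/
def cj (V : Type) [AddCommGroup V] [DistribMulAction Γ V] (g : Γ) :
    AddMonoid.End V →+* AddMonoid.End V where
  toFun r := phi Γ V g * r * phi Γ V g⁻¹
  map_one' := by rw [mul_one, ← map_mul, mul_inv_cancel, map_one]
  map_mul' a b := by
    have h : phi Γ V g⁻¹ * phi Γ V g = 1 := by rw [← map_mul, inv_mul_cancel, map_one]
    calc phi Γ V g * (a * b) * phi Γ V g⁻¹ = phi Γ V g * a * 1 * b * phi Γ V g⁻¹ := by
          rw [mul_one]; simp only [mul_assoc]
      _ = phi Γ V g * a * (phi Γ V g⁻¹ * phi Γ V g) * b * phi Γ V g⁻¹ := by rw [h]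
      _ = _ := by simp only [mul_assoc]
  map_zero' := by rw [mul_zero, zero_mul]
  map_add' a b := by rw [mul_add, add_mul]

theorem cj_apply (g : Γ) (r : AddMonoid.End V) (v : V) : cj V g r v = g • r (g⁻¹ • v) := rfl

theorem cj_one (r : AddMonoid.End V) : cj V (1 : Γ) r = r := by
  ext v
  rw [cj_apply, one_smul, inv_one, one_smul]

theorem cj_mul (g h : Γ) (r : AddMonoid.End V) : cj V (g * h) r = cj V g (cj V h r) := by
  ext v
  rw [cj_apply, cj_apply, cj_apply, mul_smul, mul_inv_rev, mul_smul]

/-- the ring -/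
def Rg (V : Type) [AddCommGroup V] [DistribMulAction Γ V] (M : Subgroup Γ) :
    Subring (AddMonoid.End V) := Subring.closure (phi Γ V '' (M : Set Γ))

theorem phi_mem {M : Subgroup Γ} {m : Γ} (hm : m ∈ M) : phi Γ V m ∈ Rg V M :=
  Subring.subset_closure ⟨m, hm, rfl⟩

theorem cj_mem {M : Subgroup Γ} (hM : M.Normal) (g : Γ) {r : AddMonoid.End V} (hr : r ∈ Rg V M) :
    cj V g r ∈ Rg V M := by
  have h : Rg V M ≤ (Rg V M).comap (cj V g) := by
    refine Subring.closure_le.2 ?_
    rintro _ ⟨m, hm, rfl⟩
    show cj V g (phi Γ V m) ∈ Rg V M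
    have h1 : cj V g (phi Γ V m) = phi Γ V (g * m * g⁻¹) := by
      rw [map_mul, map_mul]; rfl
    rw [h1]
    exact phi_mem (hM.conj_mem m hm g)
  exact h hr

theorem comm {M : Subgroup Γ} (hc : ∀ a ∈ M, ∀ b ∈ M, a * b = b * a) :
    ∀ x ∈ phi Γ V '' (M : Set Γ), ∀ y ∈ phi Γ V '' (M : Set Γ), x * y = y * x := by
  rintro _ ⟨a, ha, rfl⟩ _ ⟨b, hb, rfl⟩
  rw [← map_mul, ← map_mul, hc a ha b hb]

end Pool.Agent.CCS.RDx

namespace Pool.Agent.CCS

open RDx

open scoped IsMulCommutative in
theorem thm_RDx : St_RDx := by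
  intro Γ V _ _ _ _ M hM hc hS
  have hmc : IsMulCommutative (Rg V M) := Subring.isMulCommutative_closure (comm hc)
  let cr : CommRing (Rg V M) := inferInstance
  let md : Module (Rg V M) V :=
    { smul := fun r v => (r : AddMonoid.End V) v
      one_smul := fun v => rfl
      mul_smul := fun r s v => rfl
      smul_zero := fun r => map_zero (r : AddMonoid.End V)
      smul_add := fun r v w => map_add (r : AddMonoid.End V) v w
      add_smul := fun r s v => rfl
      zero_smul := fun v => rfl }
  let ac : MulSemiringAction Γ (Rg V M) :=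
    { smul := fun g r => ⟨cj V g r, cj_mem hM g r.2⟩
      one_smul := fun r => Subtype.ext (cj_one r.1)
      mul_smul := fun g h r => Subtype.ext (cj_mul g h r.1)
      smul_zero := fun g => Subtype.ext (map_zero (cj V g))
      smul_add := fun g r s => Subtype.ext (map_add (cj V g) r.1 s.1)
      smul_one := fun g => Subtype.ext (map_one (cj V g))
      smul_mul := fun g r s => Subtype.ext (map_mul (cj V g) r.1 s.1) }
  have hsm : ∀ (r : Rg V M) (v : V), r • v = (r : AddMonoid.End V) v := fun r v => rfl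
  have hga : ∀ (g : Γ) (r : Rg V M), ((g • r : Rg V M) : AddMonoid.End V) = cj V g r :=
    fun g r => rfl
  have hcomp : ∀ (g : Γ) (r : Rg V M) (v : V), g • (r • v) = (g • r) • (g • v) := by
    intro g r v
    rw [hsm, hsm, hga, cj_apply, inv_smul_smul]
  have hfaith : ∀ r : Rg V M, (∀ v : V, r • v = 0) → r = 0 := by
    intro r hr
    refine Subtype.ext (AddMonoidHom.ext fun v => ?_)
    exact hr v
  have hfin : Finite (Rg V M) :=
    Finite.of_injective (fun r : Rg V M => ((r : AddMonoid.End V) : V → V)) (by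
      intro r s h
      exact Subtype.ext (DFunLike.coe_injective h))
  have hred : IsReduced (Rg V M) := by
    rw [← nilradical_eq_bot_iff]
    obtain ⟨n, hn⟩ := IsNoetherianRing.isNilpotent_nilradical (Rg V M)
    let U : Submodule (Rg V M) V := nilradical (Rg V M) • (⊤ : Submodule (Rg V M) V)
    have hinv : Inv Γ U.toAddSubgroup := by
      intro g u hu
      refine Submodule.smul_induction_on (p := fun u => g • u ∈ U) hu ?_ ?_
      · intro r hr v _
        rw [hcomp]
        refine Submodule.smul_mem_smul ?_ Submodule.mem_top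
        rw [mem_nilradical] at hr ⊢
        obtain ⟨k, hk⟩ := hr
        exact ⟨k, by rw [← smul_pow', hk]; exact smul_zero g⟩
      · intro v w hv hw
        rw [smul_add]
        exact U.add_mem hv hw
    rcases hS.2 U.toAddSubgroup hinv with h | h
    · refine (Submodule.eq_bot_iff _).2 fun r hr => hfaith r fun v => ?_
      have h1 : r • v ∈ U.toAddSubgroup := Submodule.smul_mem_smul hr Submodule.mem_top
      rw [h] at h1
      exact h1
    · exfalso
      have hU : nilradical (Rg V M) • (⊤ : Submodule (Rg V M) V) = ⊤ := by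
        refine Submodule.eq_top_iff'.2 fun v => ?_
        have h1 : v ∈ U.toAddSubgroup := by rw [h]; trivial
        exact h1
      have hk : ∀ k : ℕ, (nilradical (Rg V M)) ^ k • (⊤ : Submodule (Rg V M) V) = ⊤ := by
        intro k
        induction k with
        | zero => rw [pow_zero, Ideal.one_eq_top, Submodule.top_smul]
        | succ k ih => rw [pow_succ, Submodule.mul_smul, hU, ih]
      have h2 := hk n
      rw [hn, Ideal.zero_eq_bot, Submodule.bot_smul] at h2
      obtain ⟨v, hv⟩ := hS.1
      have h3 : v ∈ (⊥ : Submodule (Rg V M) V) := by rw [h2]; trivial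
      exact hv ((Submodule.mem_bot _).1 h3)
  classical
  refine ⟨Rg V M, cr, hfin, hred, md, ac,
    fun g => if h : g ∈ M then ⟨phi Γ V g, phi_mem h⟩ else 0, ?_⟩
  refine ⟨hcomp, hfaith, ?_, ?_⟩
  · intro m hm v
    rw [dif_pos hm]
    rfl
  · intro m hm r
    refine Subtype.ext ?_
    rw [hga]
    have h1 : (⟨phi Γ V m, phi_mem hm⟩ : Rg V M) * r = r * ⟨phi Γ V m, phi_mem hm⟩ := mul_comm _ _
    have h2 : phi Γ V m * (r : AddMonoid.End V) = r * phi Γ V m := congrArg Subtype.val h1
    show phi Γ V m * r * phi Γ V m⁻¹ = r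
    rw [h2, mul_assoc, ← map_mul, mul_inv_cancel, map_one, mul_one]

end Pool.Agent.CCS
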