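import Mathlib
import Pool.Agent.CCS.Stmts

set_option autoImplicit false

/-!
# CCS/Rho0: primes dividing a class size (helper42, after the plan of helper22)
-/

namespace Pool.Agent.CCS

open scoped commutatorElement

/-- the size of a conjugacy class divides the order of the group -/
theorem Rho0.dvd (G : Type) [Group G] [Finite G] (x : G) :
    Nat.card {h : G // IsConj x h} ∣ Nat.card G := by
  have h1 : Nat.card {h : G // IsConj x h} = (MulAction.stabilizer (ConjAct G) x).index := by
    rw [MulAction.index_stabilizer]
    have h2 : MulAction.orbit (ConjAct G) x = {h : G | IsConj x h} := by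
      ext h
      rw [ConjAct.mem_orbit_conjAct]
      exact isConj_comm
    rw [h2]
    rfl
  rw [h1]
  exact (MulAction.stabilizer (ConjAct G) x).index_dvd_card

theorem thm_Rho0 (h0 : St_Avd) : St_Rho0 := by
  intro G _ _ p hp
  obtain ⟨x, hx⟩ := hp
  have hpp : p.Prime := Nat.prime_of_mem_primeFactors hx
  have hdvd : p ∣ Nat.card {h : G // IsConj x h} := Nat.dvd_of_mem_primeFactors hx
  refine ⟨hpp, hdvd.trans (Rho0.dvd G x), ?_⟩
  intro P
  by_contra hno
  push Not at hno
  exact ((h0 G p hpp x).1 hdvd) ⟨P, hno x⟩

end Pool.Agent.CCS
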