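import Mathlib
import Pool.Agent.CCS.Stmts
import Pool.Agent.CCS.Bas

set_option autoImplicit false

/-!
# CCS: module Rp, the subgroup of the unit group attached to one prime
-/

namespace Pool.Agent.CCS

open scoped commutatorElement

namespace Rp

variable {Γ R V : Type} [Group Γ] [CommRing R] [AddCommGroup V] [Module R V]
  [MulSemiringAction Γ R] [DistribMulAction Γ V]

/-- the subgroup `B_p` -/
def Bp (P : Set Γ) (eO : R) : Subgroup Rˣ where
  carrier := {w | ∀ y ∈ P, eO * (y • (w : R)) = eO * (w : R)}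
  mul_mem' := by
    intro w w' hw hw' y hy
    rw [Units.val_mul, smul_mul']
    calc eO * ((y • (w : R)) * (y • (w' : R))) = (eO * (y • (w : R))) * (y • (w' : R)) := by ring
      _ = (w : R) * (eO * (y • (w' : R))) := by rw [hw y hy]; ring
      _ = eO * ((w : R) * (w' : R)) := by rw [hw' y hy]; ring
  one_mem' := by
    intro y _
    rw [Units.val_one, smul_one]
  inv_mem' := by
    intro w hw y hy
    have h1 : (y • (w : R)) * (y • ((w⁻¹ : Rˣ) : R)) = 1 := by
      rw [← smul_mul', Units.mul_inv, smul_one]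
    have h2 : (w : R) * ((w⁻¹ : Rˣ) : R) = 1 := w.mul_inv
    calc eO * (y • ((w⁻¹ : Rˣ) : R))
        = (eO * (w : R)) * ((w⁻¹ : Rˣ) : R) * (y • ((w⁻¹ : Rˣ) : R)) := by
          rw [mul_assoc eO, h2, mul_one]
      _ = (eO * (y • (w : R))) * ((w⁻¹ : Rˣ) : R) * (y • ((w⁻¹ : Rˣ) : R)) := by rw [hw y hy]
      _ = eO * ((w⁻¹ : Rˣ) : R) * ((y • (w : R)) * (y • ((w⁻¹ : Rˣ) : R))) := by ring
      _ = eO * ((w⁻¹ : Rˣ) : R) := by rw [h1, mul_one]

theorem mem_Bp (P : Set Γ) (eO : R) (w : Rˣ) :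
    w ∈ Bp P eO ↔ ∀ y ∈ P, eO * (y • (w : R)) = eO * (w : R) := Iff.rfl

/-- `lam` as a homomorphism to the unit group -/
noncomputable def lamH {M : Subgroup Γ} {lam : Γ → R} (hR : RD Γ R V M lam) : M →* Rˣ :=
  MonoidHom.toHomUnits
    { toFun := fun m => lam m
      map_one' := Bas.lam_one hR
      map_mul' := fun m m' => Bas.lam_mul hR m.2 m'.2 }

theorem lamH_val {M : Subgroup Γ} {lam : Γ → R} (hR : RD Γ R V M lam) (m : M) :
    ((lamH hR m : Rˣ) : R) = lam m := rfl

/-- the elements of `M` commuting with `P` -/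
def Cp (M : Subgroup Γ) (P : Set Γ) : Subgroup M where
  carrier := {m | ∀ y ∈ P, (m : Γ) * y = y * m}
  mul_mem' := by
    intro a b ha hb y hy
    rw [Subgroup.coe_mul, mul_assoc, hb y hy, ← mul_assoc, ha y hy, mul_assoc]
  one_mem' := by
    intro y _
    rw [Subgroup.coe_one, one_mul, mul_one]
  inv_mem' := by
    intro a ha y hy
    rw [Subgroup.coe_inv]
    have h := ha y hy
    calc (a : Γ)⁻¹ * y = (a : Γ)⁻¹ * (y * a) * (a : Γ)⁻¹ := by group
      _ = (a : Γ)⁻¹ * (a * y) * (a : Γ)⁻¹ := by rw [h]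
      _ = y * (a : Γ)⁻¹ := by group

theorem mem_Cp (M : Subgroup Γ) (P : Set Γ) (m : M) :
    m ∈ Cp M P ↔ ∀ y ∈ P, (m : Γ) * y = y * m := Iff.rfl

end Rp

theorem thm_Rp (h0 : St_Fix) (h1 : St_Sur) : St_Rp := by
  intro Γ R V _ _ _ _ _ _ _ _ _ M H lam hR hM hH hMH hab p hp hpH P hP hPp e₀ eO he₀ hPe hmov
    hO1 hO2 hO3 hO4 η hη hann
  refine ⟨(Rp.lamH hR).range ⊔ Rp.Bp P eO, ?_, ?_, ?_⟩
  · intro u hu g
    by_contra hne
    push Not at hne
    apply hu
    obtain ⟨m, hm, hc⟩ := hP g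
    obtain ⟨w, hw⟩ : ∃ w : Rˣ, w = Rp.lamH hR ⟨m, hm⟩ * u := ⟨_, rfl⟩
    have hwv : (w : R) = lam m * (u : R) := by rw [hw]; rfl
    refine Subgroup.mem_sup.2 ⟨(Rp.lamH hR ⟨m, hm⟩)⁻¹, Subgroup.inv_mem _ ⟨_, rfl⟩, w, ?_, ?_⟩
    · intro y hy
      have h2 := hne y hy
      rw [hc y hy, mul_smul, mul_smul] at h2
      have h3 : y • m • ((u : R) • η) = m • ((u : R) • η) := by
        have h4 := congrArg (fun v => m • v) h2
        simpa only [smul_inv_smul] using h4
      rw [hR.lamv m hm, smul_smul, ← hwv, hR.comp, hη y hy] at h3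
      have h4 := hann (y • (w : R) - (w : R)) (by rw [sub_smul, h3, sub_self])
      rw [sub_mul, sub_eq_zero] at h4
      rw [mul_comm, h4, mul_comm]
    · rw [hw, inv_mul_cancel_left]
  · intro w hw
    refine Subgroup.mem_sup_right ?_
    intro y hy
    rw [hw y hy]
  · intro htop z hz hzP
    by_contra hne
    push Not at hne
    let iM : CommGroup M :=
      { (inferInstance : Group M) with
        mul_comm := fun a b => Subtype.ext (hab a a.2 b b.2) }
    have hMn : M.Normal := hM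
    have key := h1 M Rˣ (MulAut.conjNormal z)
      (Units.mapEquiv (MulSemiringAction.toRingEquiv Γ R z).toMulEquiv) (Rp.lamH hR)
      (Rp.Cp M P) (Rp.Bp P eO) ?_ ?_ ?_ ?_ ?_ ?_
    · obtain ⟨y, hy, hr⟩ := hmov
      obtain ⟨k, hk⟩ := hPp y hy
      obtain ⟨u, hu1, hu2⟩ := h0 Γ R y z e₀ p (orderOf z) k hp
        (fun h => hpH (h.trans (Subgroup.orderOf_dvd_natCard H hz))) (pow_orderOf_eq_one z) hk he₀
        (hPe y hy) hr
      have hu3 := key u (by
        have h2 : Units.mapEquiv (MulSemiringAction.toRingEquiv Γ R z).toMulEquiv u = u :=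
          Units.ext hu1
        rw [h2, mul_inv_cancel]
        exact Subgroup.one_mem _)
      apply hu2
      have h3 := congrArg (fun x => e₀ * x) (hu3 y hy)
      simp only [← mul_assoc, hO2] at h3
      rw [smul_mul', hPe y hy, h3]
    · intro m
      apply Units.ext
      change lam ((MulAut.conjNormal z m : M) : Γ) = z • lam (m : Γ)
      rw [MulAut.conjNormal_apply]
      exact Bas.lam_conj hR hM m.2 z
    · intro m hm y hy
      have h2 := hzP y hy
      have h3 : (m : Γ) * y = y * m := hm y hy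
      rw [MulAut.conjNormal_apply]
      have h4 : z⁻¹ * y = y * z⁻¹ := by
        calc z⁻¹ * y = z⁻¹ * (y * z) * z⁻¹ := by group
          _ = z⁻¹ * (z * y) * z⁻¹ := by rw [h2]
          _ = y * z⁻¹ := by group
      calc z * m * z⁻¹ * y = z * m * (z⁻¹ * y) := by group
        _ = z * (m * y) * z⁻¹ := by rw [h4]; group
        _ = (z * y) * m * z⁻¹ := by rw [h3]; group
        _ = y * (z * m * z⁻¹) := by rw [h2]; group
    · intro w hw y hy
      change eO * (y • (z • (w : R))) = eO * (z • (w : R))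
      rw [smul_smul, ← hzP y hy, mul_smul]
      calc eO * z • y • (w : R) = z • (eO * (y • (w : R))) := by rw [smul_mul', hO3 z hz]
        _ = z • (eO * (w : R)) := by rw [hw y hy]
        _ = eO * z • (w : R) := by rw [smul_mul', hO3 z hz]
    · intro m hm y hy
      change eO * (y • lam (m : Γ)) = eO * lam (m : Γ)
      rw [← Bas.lam_conj hR hM m.2 y]
      have h3 : (m : Γ) * y = y * m := hm y hy
      rw [← h3, mul_inv_cancel_right]
    · intro w
      have h2 : w ∈ (Rp.lamH hR).range ⊔ Rp.Bp P eO := by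
        rw [htop]
        exact Subgroup.mem_top w
      obtain ⟨_, ⟨m, rfl⟩, c, hc, h3⟩ := Subgroup.mem_sup.1 h2
      exact ⟨m, c, hc, h3.symm⟩
    · intro m hm y hy
      by_contra hc
      obtain ⟨y', hy', h5⟩ := hne m m.2 ⟨y, hy, hc⟩
      apply h5
      have h3 := hm y' hy'
      have h4 : (((MulAut.conjNormal z m * m⁻¹ : M)) : Γ) = ⁅z, (m : Γ)⁆ := by
        rw [Subgroup.coe_mul, MulAut.conjNormal_apply, Subgroup.coe_inv, commutatorElement_def]
      rw [← h4]
      exact h3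

end Pool.Agent.CCS
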