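import Mathlib
import Pool.Agent.CCS.Stmts

set_option autoImplicit false

/-!
# CCS, module SS: semisimple finite modules (helper60 for helper22)
-/

namespace Pool.Agent.CCS

open scoped commutatorElement

namespace SS

variable {Γ V : Type} [Group Γ] [AddCommGroup V] [DistribMulAction Γ V]

/-- equivariant endomorphisms -/
def Eqv (Γ : Type) {V : Type} [Group Γ] [AddCommGroup V] [DistribMulAction Γ V]
    (p : AddMonoid.End V) : Prop := ∀ (g : Γ) (v : V), p (g • v) = g • p v

theorem Eqv.mul {p q : AddMonoid.End V} (hp : Eqv Γ p) (hq : Eqv Γ q) : Eqv Γ (p * q) := by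
  intro g v
  change p (q (g • v)) = g • p (q v)
  rw [hq, hp]

theorem Eqv.sub {p q : AddMonoid.End V} (hp : Eqv Γ p) (hq : Eqv Γ q) : Eqv Γ (p - q) := by
  intro g v
  change p (g • v) - q (g • v) = g • (p v - q v)
  rw [hq, hp, smul_sub]

theorem Eqv.range {p : AddMonoid.End V} (hp : Eqv Γ p) : Inv Γ (AddMonoidHom.range p) := by
  rintro g _ ⟨v, rfl⟩
  exact ⟨g • v, hp g v⟩

/-- projection to an invariant subgroup along an invariant complement -/
theorem proj (U W : AddSubgroup V) (hU : Inv Γ U) (hW : Inv Γ W) (h1 : U ⊓ W = ⊥)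
    (h2 : U ⊔ W = ⊤) : ∃ q : AddMonoid.End V, Eqv Γ q ∧ (∀ v, q v ∈ U) ∧ ∀ u ∈ U, q u = u := by
  have key : ∀ v : V, ∃ u ∈ U, v - u ∈ W := by
    intro v
    have hv : v ∈ U ⊔ W := h2 ▸ AddSubgroup.mem_top v
    obtain ⟨u, hu, w, hw, rfl⟩ := AddSubgroup.mem_sup.1 hv
    exact ⟨u, hu, by simpa using hw⟩
  choose f hf hfW using key
  have uniq : ∀ v u : V, u ∈ U → v - u ∈ W → f v = u := by
    intro v u hu hw
    have h3 : f v - u ∈ U ⊓ W := by
      refine AddSubgroup.mem_inf.2 ⟨U.sub_mem (hf v) hu, ?_⟩
      have h4 := W.sub_mem hw (hfW v)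
      have h5 : v - u - (v - f v) = f v - u := by abel
      rwa [h5] at h4
    rw [h1, AddSubgroup.mem_bot] at h3
    exact sub_eq_zero.1 h3
  refine ⟨AddMonoidHom.mk' f fun v w => ?_, ?_, hf, ?_⟩
  · refine uniq _ _ (U.add_mem (hf v) (hf w)) ?_
    have h4 := W.add_mem (hfW v) (hfW w)
    have h5 : v - f v + (w - f w) = v + w - (f v + f w) := by abel
    rwa [h5] at h4
  · intro g v
    refine uniq _ _ (hU g _ (hf v)) ?_
    have h4 := hW g _ (hfW v)
    rwa [smul_sub] at h4
  · intro u hu
    exact uniq _ _ hu (by simp)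

/-- internally simple -/
def ISimp (Γ : Type) {V : Type} [Group Γ] [AddCommGroup V] [DistribMulAction Γ V]
    (S : AddSubgroup V) : Prop :=
  S ≠ ⊥ ∧ ∀ X : AddSubgroup V, Inv Γ X → X ≤ S → X = ⊥ ∨ X = S

theorem decomp [Finite V]
    (hV : ∀ U : AddSubgroup V, Inv Γ U → ∃ W : AddSubgroup V, Inv Γ W ∧ U ⊓ W = ⊥ ∧ U ⊔ W = ⊤) :
    ∀ (N : ℕ) (p : AddMonoid.End V), Eqv Γ p → p * p = p →
      Nat.card (AddMonoidHom.range p) ≤ N →
      ∃ (n : ℕ) (e : Fin n → AddMonoid.End V), (∀ i, Eqv Γ (e i)) ∧ (∀ i, e i * e i = e i) ∧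
        (∀ i j, i ≠ j → e i * e j = 0) ∧ (∀ i, p * e i = e i) ∧ (∀ i, e i * p = e i) ∧
        (∑ i, e i = p) ∧ ∀ i, ISimp Γ (AddMonoidHom.range (e i)) := by
  intro N
  induction N with
  | zero =>
    intro p _ _ hN
    have h1 : 0 < Nat.card (AddMonoidHom.range p) := Nat.card_pos
    omega
  | succ N ih =>
    intro p hp hpp hN
    by_cases hp0 : AddMonoidHom.range p = ⊥
    · refine ⟨0, Fin.elim0, fun i => i.elim0, fun i => i.elim0, fun i => i.elim0,
        fun i => i.elim0, fun i => i.elim0, ?_, fun i => i.elim0⟩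
      rw [Finset.univ_eq_empty, Finset.sum_empty]
      ext v
      have h1 : p v ∈ AddMonoidHom.range p := ⟨v, rfl⟩
      rw [hp0, AddSubgroup.mem_bot] at h1
      rw [h1]
      rfl
    · have hfin : {X : AddSubgroup V | Inv Γ X ∧ X ≠ ⊥ ∧ X ≤ AddMonoidHom.range p}.Finite :=
        Set.toFinite _
      obtain ⟨U, hU⟩ := hfin.exists_minimal ⟨_, hp.range, hp0, le_rfl⟩
      obtain ⟨⟨hUi, hU0, hUp⟩, hmin⟩ := hU
      have hsimp : ∀ X : AddSubgroup V, Inv Γ X → X ≤ U → X = ⊥ ∨ X = U := by
        intro X hX hXU
        by_cases hX0 : X = ⊥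
        · exact Or.inl hX0
        · exact Or.inr (le_antisymm hXU (hmin ⟨hX, hX0, hXU.trans hUp⟩ hXU))
      obtain ⟨W, hWi, hUW, hUW'⟩ := hV U hUi
      obtain ⟨q0, hq0, hq0U, hq0u⟩ := proj U W hUi hWi hUW hUW'
      have pU : ∀ u ∈ U, p u = u := by
        intro u hu
        obtain ⟨v, rfl⟩ := hUp hu
        change (p * p) v = p v
        rw [hpp]
      set q : AddMonoid.End V := q0 * p with hq
      have qU : ∀ u ∈ U, q u = u := by
        intro u hu
        change q0 (p u) = u
        rw [pU u hu, hq0u u hu]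
      have qmem : ∀ v, q v ∈ U := fun v => hq0U _
      have qq : q * q = q := by
        ext v
        change q (q v) = q v
        exact qU _ (qmem v)
      have pq : p * q = q := by
        ext v
        change p (q v) = q v
        exact pU _ (qmem v)
      have qp : q * p = q := by rw [hq, mul_assoc, hpp]
      have qe : Eqv Γ q := hq0.mul hp
      have rq : AddMonoidHom.range q = U := by
        apply le_antisymm
        · rintro _ ⟨v, rfl⟩
          exact qmem v
        · intro u hu
          exact ⟨u, qU u hu⟩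
      have hp' : (p - q) * (p - q) = p - q := by
        rw [sub_mul, mul_sub, mul_sub, hpp, pq, qp, qq]
        abel
      have le1 : AddMonoidHom.range (p - q) ≤ AddMonoidHom.range p := by
        rintro _ ⟨v, rfl⟩
        refine ⟨(p - q) v, ?_⟩
        have h1 : p * (p - q) = p - q := by rw [mul_sub, hpp, pq]
        exact DFunLike.congr_fun h1 v
      have ne1 : AddMonoidHom.range (p - q) ≠ AddMonoidHom.range p := by
        intro h
        apply hU0
        rw [eq_bot_iff]
        intro u hu
        have h1 : u ∈ AddMonoidHom.range (p - q) := h ▸ hUp hu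
        obtain ⟨v, hv⟩ := h1
        have h2 : (p - q) ((p - q) v) = (p - q) v := DFunLike.congr_fun hp' v
        have hv' : (p - q) v = u := hv
        rw [hv'] at h2
        have h3 : (p - q) u = p u - q u := rfl
        rw [pU _ hu, qU _ hu, sub_self] at h3
        rw [AddSubgroup.mem_bot, ← h2, h3]
      have card1 : Nat.card (AddMonoidHom.range (p - q)) < Nat.card (AddMonoidHom.range p) := by
        have h5 : (AddMonoidHom.range (p - q) : Set V) ⊂ (AddMonoidHom.range p : Set V) :=
          lt_of_le_of_ne le1 fun h => ne1 (SetLike.coe_injective h)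
        have h6 := Set.ncard_lt_ncard h5 (Set.toFinite _)
        rwa [← Nat.card_coe_set_eq, ← Nat.card_coe_set_eq] at h6
      obtain ⟨n, e, e1, e2, e3, e4, e5, e6, e7⟩ := ih (p - q) (hp.sub qe) hp' (by omega)
      have qe0 : ∀ i, q * e i = 0 := by
        intro i
        rw [← e4 i, ← mul_assoc, mul_sub, qp, qq, sub_self, zero_mul]
      have eq0 : ∀ i, e i * q = 0 := by
        intro i
        rw [← e5 i, mul_assoc, sub_mul, pq, qq, sub_self, mul_zero]
      have pe : ∀ i, p * e i = e i := by
        intro i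
        have h := e4 i
        rwa [sub_mul, qe0, sub_zero] at h
      have ep : ∀ i, e i * p = e i := by
        intro i
        have h := e5 i
        rwa [mul_sub, eq0, sub_zero] at h
      refine ⟨n + 1, Fin.cons q e, ?_, ?_, ?_, ?_, ?_, ?_, ?_⟩
      · intro i
        refine Fin.cases ?_ (fun i => ?_) i
        · simpa using qe
        · simpa using e1 i
      · intro i
        refine Fin.cases ?_ (fun i => ?_) i
        · simpa using qq
        · simpa using e2 i
      · intro i j
        refine Fin.cases ?_ (fun i => ?_) i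
        · refine Fin.cases ?_ (fun j => ?_) j
          · intro h
            exact absurd rfl h
          · intro _
            simpa using qe0 j
        · refine Fin.cases ?_ (fun j => ?_) j
          · intro _
            simpa using eq0 i
          · intro h
            simpa using e3 i j fun h' => h (by rw [h'])
      · intro i
        refine Fin.cases ?_ (fun i => ?_) i
        · simpa using pq
        · simpa using pe i
      · intro i
        refine Fin.cases ?_ (fun i => ?_) i
        · simpa using qp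
        · simpa using ep i
      · rw [Fin.sum_univ_succ, Fin.cons_zero]
        simp only [Fin.cons_succ]
        rw [e6]
        abel
      · intro i
        refine Fin.cases ?_ (fun i => ?_) i
        · rw [Fin.cons_zero, rq]
          exact ⟨hU0, hsimp⟩
        · rw [Fin.cons_succ]
          exact e7 i

/-- restriction of the action to an invariant subgroup -/
@[reducible]
def act (S : AddSubgroup V) (hS : Inv Γ S) : DistribMulAction Γ S where
  smul g x := ⟨g • x.1, hS g x.1 x.2⟩
  one_smul x := Subtype.ext (one_smul Γ x.1)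
  mul_smul g h x := Subtype.ext (mul_smul g h x.1)
  smul_zero g := Subtype.ext (smul_zero g)
  smul_add g x y := Subtype.ext (smul_add g x.1 y.1)

theorem simp_of (S : AddSubgroup V) (hS : Inv Γ S) (h : ISimp Γ S) :
    @Simp Γ S _ _ (act S hS) := by
  letI := act S hS
  refine ⟨?_, ?_⟩
  · by_contra hne
    apply h.1
    rw [eq_bot_iff]
    intro v hv
    by_contra hv0
    exact hne ⟨⟨v, hv⟩, fun h0 => hv0 (by simpa using congrArg Subtype.val h0)⟩
  · intro U hU
    have h1 : Inv Γ (U.map S.subtype) := by
      rintro g _ ⟨x, hx, rfl⟩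
      exact ⟨g • x, hU g x hx, rfl⟩
    have h2 : U.map S.subtype ≤ S := by
      rintro _ ⟨x, _, rfl⟩
      exact x.2
    rcases h.2 _ h1 h2 with h3 | h3
    · left
      rw [eq_bot_iff]
      intro x hx
      have h4 : (x : V) ∈ U.map S.subtype := ⟨x, hx, rfl⟩
      rw [h3, AddSubgroup.mem_bot] at h4
      rw [AddSubgroup.mem_bot]
      exact Subtype.ext h4
    · right
      rw [eq_top_iff]
      intro x _
      have h4 : (x : V) ∈ U.map S.subtype := by
        rw [h3]
        exact x.2
      obtain ⟨y, hy, hyx⟩ := h4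
      have h5 : y = x := Subtype.ext hyx
      exact h5 ▸ hy

end SS

open SS in
theorem thm_SS : St_SS := by
  intro Γ V _ _ _ _ hV
  obtain ⟨n, e, e1, e2, e3, _, _, e6, e7⟩ := decomp hV (Nat.card (AddMonoidHom.range
    (1 : AddMonoid.End V))) 1 (fun _ _ => rfl) (mul_one 1) le_rfl
  have hsum : ∀ v, ∑ i, e i v = v := by
    intro v
    have h1 : ∀ s : Finset (Fin n), (∑ i ∈ s, e i : AddMonoid.End V) v = ∑ i ∈ s, e i v := by
      intro s
      induction s using Finset.induction_on with
      | empty => rfl
      | insert a s ha ih =>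
        rw [Finset.sum_insert ha, Finset.sum_insert ha, ← ih]
        rfl
    rw [← h1, e6]
    rfl
  refine ⟨n, fun i => AddMonoidHom.range (e i), fun i => inferInstance, fun i => inferInstance,
    fun i => act _ (e1 i).range, fun i v => ⟨e i v, v, rfl⟩, ?_, ?_, ?_, ?_, ?_⟩
  · intro i
    exact simp_of _ (e1 i).range (e7 i)
  · intro i v w
    exact Subtype.ext (map_add (e i) v w)
  · intro i g v
    exact Subtype.ext (e1 i g v)
  · intro v hv
    rw [← hsum v]
    refine Finset.sum_eq_zero fun i _ => ?_
    exact congrArg Subtype.val (hv i)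
  · intro w
    refine ⟨∑ j, (w j : V), fun i => ?_⟩
    apply Subtype.ext
    change e i (∑ j, (w j : V)) = (w i : V)
    rw [map_sum, Finset.sum_eq_single i]
    · obtain ⟨x, hx⟩ := (w i).2
      rw [← hx]
      change (e i * e i) x = e i x
      rw [e2]
    · intro j _ hj
      obtain ⟨x, hx⟩ := (w j).2
      rw [← hx]
      change (e i * e j) x = 0
      rw [e3 i j (Ne.symm hj)]
      rfl
    · intro h
      exact absurd (Finset.mem_univ i) h

end Pool.Agent.CCS
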