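import Mathlib
import Pool.Agent.CCS.Stmts

set_option autoImplicit false

/-!
# CCS: elements acting trivially on `R`
-/

namespace Pool.Agent.CCS

open scoped commutatorElement

namespace Sc

/-- fixed points of `y` -/
def Fx {Γ V : Type} [Group Γ] [AddCommGroup V] [DistribMulAction Γ V] (y : Γ) : AddSubgroup V where
  carrier := {v | y • v = v}
  zero_mem' := smul_zero y
  add_mem' := by
    intro a b ha hb
    change y • (a + b) = a + b
    rw [smul_add, ha, hb]
  neg_mem' := by
    intro a ha
    change y • (-a) = -a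
    rw [smul_neg, ha]

end Sc

/-- **[Sc]** (C2a). -/
theorem thm_Sc : St_Sc := by
  intro Γ R V _ _ _ _ _ _ M lam hRD hSimp P hP y hy hyR hyV v hv g
  have key : ∀ (g : Γ) (v : V), (g⁻¹ * y * g) • v = y • v := by
    intro g v
    obtain ⟨m, hm, hc⟩ := hP g
    have h1 : y • m • v = m • y • v := by
      rw [hRD.lamv m hm v, hRD.comp, hyR, ← hRD.lamv m hm]
    rw [hc y hy, mul_smul, mul_smul, h1, inv_smul_smul]
  have hinv : Inv Γ (Sc.Fx y : AddSubgroup V) := by
    intro g u hu
    change y • g • u = g • u
    have h1 : y • g • u = g • (g⁻¹ * y * g) • u := by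
      rw [smul_smul, smul_smul]
      congr 1
      group
    rw [h1, key g u]
    exact congrArg (fun z => g • z) hu
  rw [key g v]
  rcases hSimp.2 _ hinv with h | h
  · intro h1
    have h2 : v ∈ (Sc.Fx y : AddSubgroup V) := h1
    rw [h, AddSubgroup.mem_bot] at h2
    exact hv h2
  · exfalso
    obtain ⟨w, hw⟩ := hyV
    apply hw
    have h2 : w ∈ (Sc.Fx y : AddSubgroup V) := by
      rw [h]
      exact AddSubgroup.mem_top w
    exact h2

end Pool.Agent.CCS
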