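import Mathlib
import Pool.Agent.CCS.Stmts

set_option autoImplicit false

namespace Pool.Agent.CCS

open scoped commutatorElement

namespace Sur

/-- the endomorphism `m ↦ a(m) m⁻¹` of a commutative group -/
def dlt {M : Type} [CommGroup M] (a : M ≃* M) : M →* M where
  toFun m := a m * m⁻¹
  map_one' := by rw [map_one, inv_one, mul_one]
  map_mul' x y := by rw [map_mul, mul_inv, mul_mul_mul_comm]

theorem le_comap {M : Type} [CommGroup M] (a : M ≃* M) (C : Subgroup M)
    (h : ∀ m ∈ C, a m ∈ C) : C ≤ C.comap (dlt a) := fun m hm =>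
  C.mul_mem (h m hm) (C.inv_mem hm)

/-- the induced endomorphism of the quotient -/
def qd {M : Type} [CommGroup M] (a : M ≃* M) (C : Subgroup M)
    (h : ∀ m ∈ C, a m ∈ C) : M ⧸ C →* M ⧸ C :=
  QuotientGroup.map C C (dlt a) (le_comap a C h)

theorem qd_mk {M : Type} [CommGroup M] (a : M ≃* M) (C : Subgroup M)
    (h : ∀ m ∈ C, a m ∈ C) (m : M) :
    qd a C h (m : M ⧸ C) = ((a m * m⁻¹ : M) : M ⧸ C) := rfl

end Sur

open Sur in
theorem thm_Sur : St_Sur := by
  intro M W _ _ _ _ a b lam C B hl hC hB hlC hs hk w hw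
  have hinj : Function.Injective (qd a C hC) := by
    rw [injective_iff_map_eq_one]
    intro x
    obtain ⟨m, rfl⟩ := QuotientGroup.mk_surjective x
    intro hx
    rw [qd_mk, QuotientGroup.eq_one_iff] at hx
    rw [QuotientGroup.eq_one_iff]
    exact hk m hx
  have hsur : Function.Surjective (qd a C hC) := Finite.injective_iff_surjective.1 hinj
  have hsur2 : Function.Surjective (qd b B hB) := by
    intro y
    obtain ⟨v, rfl⟩ := QuotientGroup.mk_surjective y
    obtain ⟨m, c, hc, rfl⟩ := hs v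
    obtain ⟨x, hx⟩ := hsur (m : M ⧸ C)
    obtain ⟨m', rfl⟩ := QuotientGroup.mk_surjective x
    rw [qd_mk, QuotientGroup.eq] at hx
    refine ⟨(lam m' : W ⧸ B), ?_⟩
    rw [qd_mk, QuotientGroup.eq, ← hl, ← map_inv, ← map_mul, ← map_inv, ← mul_assoc, ← map_mul]
    exact B.mul_mem (hlC _ hx) hc
  have hinj2 : Function.Injective (qd b B hB) := Finite.injective_iff_surjective.2 hsur2
  rw [injective_iff_map_eq_one] at hinj2
  have h1 := hinj2 (w : W ⧸ B) (by rw [qd_mk, QuotientGroup.eq_one_iff]; exact hw)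
  rwa [QuotientGroup.eq_one_iff] at h1

end Pool.Agent.CCS
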