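import Mathlib
import Pool.Agent.CCS.Stmts

set_option autoImplicit false

namespace Pool.Agent.CCS

open scoped commutatorElement

namespace Tau

variable {G : Type} [Group G]

private lemma cover [Finite G] (t : ℕ) (ht : t.Prime) (T : Sylow t G) (K : Subgroup G)
    [K.Normal] (hTK : (T : Subgroup G) ≤ K) (h : G) (ha : Avd G t h) :
    ∃ k ∈ K, ∀ y ∈ (T : Subgroup G), h * (k * y * k⁻¹) = (k * y * k⁻¹) * h := by
  have := Fact.mk ht
  obtain ⟨P, hP⟩ := ha
  obtain ⟨g, hg⟩ := MulAction.exists_smul_eq G T P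
  have hfr := Sylow.normalizer_sup_eq_top' T hTK
  have hmem : g ∈ K ⊔ (Subgroup.normalizer (T : Set G)) := by
    rw [sup_comm]
    rw [hfr]
    trivial
  rw [← SetLike.mem_coe, Subgroup.normal_mul] at hmem
  obtain ⟨k, hk, n, hn, rfl⟩ := Set.mem_mul.mp hmem
  refine ⟨k, hk, fun y hy => ?_⟩
  have hn' : n ∈ Subgroup.normalizer ((T : Subgroup G) : Set G) := hn
  have hz : n⁻¹ * y * n ∈ (T : Subgroup G) := ((Subgroup.mem_normalizer_iff'').mp hn' y).mp hy
  have hin : k * y * k⁻¹ ∈ (P : Subgroup G) := by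
    rw [← hg, Sylow.coe_subgroup_smul]
    have := Subgroup.smul_mem_pointwise_smul _ (MulAut.conj (k * n)) (T : Subgroup G) hz
    have e : MulAut.conj (k * n) • (n⁻¹ * y * n) = k * y * k⁻¹ := by
      simp only [MulAut.smul_def, MulAut.conj_apply]
      group
    rw [e] at this
    exact this
  exact hP _ hin

end Tau

open Tau

theorem thm_Tau : St_Tau := by
  intro G _ _ t ht T K H hK hH hTK hKH hex
  set NG : Subgroup G := Subgroup.normalizer ((T : Subgroup G) : Set G) with hNG
  set CG : Subgroup G := Subgroup.centralizer ((T : Subgroup G) : Set G) with hCG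
  have hCN : CG ≤ NG := Subgroup.centralizer_le_normalizer _
  set N : Subgroup H := NG.subgroupOf H with hN
  set C : Subgroup H := CG.subgroupOf H with hC
  have hle : C ≤ N := fun x hx => hCN hx
  have hne : C ≠ N := by
    intro he
    obtain ⟨h, hh, hn, hc⟩ := hex
    have h1 : (⟨h, hh⟩ : H) ∈ N := Subgroup.mem_normalizer_fintype hn
    rw [← he] at h1
    have h2 : h ∈ CG := h1
    apply hc
    intro y hy
    exact ((Subgroup.mem_centralizer_iff.mp h2) y hy).symm
  have hcard : 2 * Nat.card C ≤ Nat.card N := by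
    obtain ⟨m, hm⟩ := Subgroup.card_dvd_of_le hle
    have hpos : 0 < Nat.card N := Nat.card_pos
    have hm0 : m ≠ 0 := by
      rintro rfl
      rw [mul_zero] at hm
      omega
    have hm1 : m ≠ 1 := by
      rintro rfl
      exact hne (Subgroup.eq_of_le_of_card_ge hle (by rw [hm, mul_one]))
    have : 2 ≤ m := by omega
    rw [hm, mul_comm]
    exact Nat.mul_le_mul_left _ this
  have hrep : ∀ h : {h : G // h ∈ H ∧ Avd G t h}, ∃ (q : H ⧸ N) (c : C),
      (h : G) = (q.out : G) * ((c : H) : G) * (q.out : G)⁻¹ := by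
    rintro ⟨h, hh, ha⟩
    obtain ⟨k, hk, hky⟩ := cover t ht T K hTK h ha
    set k' : H := ⟨k, hKH hk⟩ with hk'
    obtain ⟨n, hn⟩ := QuotientGroup.mk_out_eq_mul N k'
    set q : H ⧸ N := QuotientGroup.mk k' with hq
    have hqk : (q.out : G) = k * ((n : H) : G) := by rw [hn]; rfl
    have hcm : (q.out : G)⁻¹ * h * (q.out : G) ∈ H :=
      H.mul_mem (H.mul_mem (H.inv_mem q.out.2) hh) q.out.2
    have hcc : (q.out : G)⁻¹ * h * (q.out : G) ∈ CG := by
      rw [hCG, Subgroup.mem_centralizer_iff]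
      intro y hy
      have hnN : ((n : H) : G) ∈ NG := n.2
      have hy2 : ((n : H) : G) * y * ((n : H) : G)⁻¹ ∈ (T : Subgroup G) :=
        ((Subgroup.mem_normalizer_iff).mp hnN y).mp hy
      have h3 := hky _ hy2
      rw [hqk]
      generalize ((n : H) : G) = z at h3
      have h4 : y = (k * z)⁻¹ * (k * (z * y * z⁻¹) * k⁻¹) * (k * z) := by group
      calc y * ((k * z)⁻¹ * h * (k * z))
          = (k * z)⁻¹ * ((k * (z * y * z⁻¹) * k⁻¹) * h) * (k * z) := by group
        _ = (k * z)⁻¹ * (h * (k * (z * y * z⁻¹) * k⁻¹)) * (k * z) := by rw [h3]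
        _ = (k * z)⁻¹ * h * (k * z) * y := by group
    refine ⟨q, ⟨⟨_, hcm⟩, hcc⟩, ?_⟩
    show h = (q.out : G) * ((q.out : G)⁻¹ * h * (q.out : G)) * (q.out : G)⁻¹
    group
  choose q c hqc using hrep
  have hinj : Function.Injective (fun h => (q h, c h)) := by
    intro h1 h2 he
    have e1 : q h1 = q h2 := congrArg Prod.fst he
    have e2 : c h1 = c h2 := congrArg Prod.snd he
    apply Subtype.ext
    rw [hqc h1, hqc h2, e1, e2]
  have h1 : Nat.card {h : G // h ∈ H ∧ Avd G t h} ≤ Nat.card ((H ⧸ N) × C) :=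
    Nat.card_le_card_of_injective _ hinj
  rw [Nat.card_prod] at h1
  have h2 := Subgroup.card_eq_card_quotient_mul_card_subgroup N
  calc 2 * Nat.card {h : G // h ∈ H ∧ Avd G t h} ≤ 2 * (Nat.card (H ⧸ N) * Nat.card C) :=
        Nat.mul_le_mul_left _ h1
    _ = Nat.card (H ⧸ N) * (2 * Nat.card C) := by ring
    _ ≤ Nat.card (H ⧸ N) * Nat.card N := Nat.mul_le_mul_left _ hcard
    _ = Nat.card H := h2.symm

end Pool.Agent.CCS
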