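import Mathlib
import Pool.Agent.CCS.Stmts

/-!
# CCS [Tn]: `t`-elements of `N / F` lift to `T ∩ N` (helper25)
-/

set_option autoImplicit false

namespace Pool.Agent.CCS

open scoped commutatorElement

theorem thm_Tn : St_Tn := by
  intro G _ _ N F hN hF hFN hcomm t ht T n hn hk
  haveI : Fact t.Prime := ⟨ht⟩
  have hsur : Function.Surjective (QuotientGroup.mk' F) := QuotientGroup.mk'_surjective F
  -- the image of `N` is abelian
  have hab : ∀ a ∈ N, ∀ b ∈ N, (QuotientGroup.mk' F a) * (QuotientGroup.mk' F b) =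
      (QuotientGroup.mk' F b) * (QuotientGroup.mk' F a) := by
    intro a ha b hb
    have h1 : QuotientGroup.mk' F ⁅a, b⁆ = 1 := (QuotientGroup.eq_one_iff _).2 (hcomm a ha b hb)
    rw [map_commutatorElement, commutatorElement_def] at h1
    have h2 := mul_inv_eq_one.1 h1
    exact mul_inv_eq_iff_eq_mul.1 h2
  -- the `t`-primary part of the image of `N`
  let R : Subgroup (G ⧸ F) :=
    { carrier := {y | (∃ a ∈ N, QuotientGroup.mk' F a = y) ∧ ∃ j : ℕ, y ^ (t ^ j) = 1}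
      one_mem' := ⟨⟨1, N.one_mem, map_one _⟩, 0, one_pow _⟩
      mul_mem' := by
        rintro _ _ ⟨⟨a, ha, rfl⟩, i, hi⟩ ⟨⟨b, hb, rfl⟩, j, hj⟩
        refine ⟨⟨a * b, N.mul_mem ha hb, map_mul _ _ _⟩, i + j, ?_⟩
        rw [Commute.mul_pow (hab a ha b hb), pow_add, pow_mul, hi, one_pow, one_mul, mul_comm,
          pow_mul, hj, one_pow]
      inv_mem' := by
        rintro _ ⟨⟨a, ha, rfl⟩, i, hi⟩
        refine ⟨⟨a⁻¹, N.inv_mem ha, map_inv _ _⟩, i, ?_⟩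
        rw [inv_pow, hi, inv_one] }
  have hRn : R.Normal := by
    constructor
    rintro _ ⟨⟨a, ha, rfl⟩, i, hi⟩ g
    obtain ⟨g, rfl⟩ := hsur g
    refine ⟨⟨g * a * g⁻¹, hN.conj_mem a ha g, by rw [map_mul, map_mul, map_inv]⟩, i, ?_⟩
    rw [conj_pow, hi, mul_one, mul_inv_cancel]
  have hRp : IsPGroup t R := by
    rintro ⟨y, hy, j, hj⟩
    exact ⟨j, Subtype.ext hj⟩
  obtain ⟨T', hT'⟩ : ∃ T' : Sylow t (G ⧸ F),
      (T' : Subgroup (G ⧸ F)) = (T : Subgroup G).map (QuotientGroup.mk' F) :=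
    ⟨T.mapSurjective hsur, rfl⟩
  have hle : R ≤ (T' : Subgroup (G ⧸ F)) := by
    have h1 : IsPGroup t ((T' : Subgroup (G ⧸ F)) ⊔ R : Subgroup (G ⧸ F)) :=
      T'.isPGroup'.to_sup_of_normal_right hRp
    have h2 := T'.is_maximal' h1 le_sup_left
    rw [← h2]
    exact le_sup_right
  have hnR : QuotientGroup.mk' F n ∈ R := by
    obtain ⟨k, hk⟩ := hk
    refine ⟨⟨n, hn, rfl⟩, k, ?_⟩
    rw [← map_pow]
    exact (QuotientGroup.eq_one_iff _).2 hk
  have h1 := hle hnR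
  rw [hT'] at h1
  obtain ⟨n', hn', he⟩ := h1
  have h2 : n'⁻¹ * n ∈ F := QuotientGroup.eq.1 he
  refine ⟨n', ⟨hn', ?_⟩, h2⟩
  have h3 : n' = n * (n'⁻¹ * n)⁻¹ := by group
  rw [h3]
  exact N.mul_mem hn (N.inv_mem (hFN h2))

end Pool.Agent.CCS
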