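import Mathlib
import Pool.Agent.CCS.Stmts

set_option autoImplicit false

/-!
# CCS Tor: units of `l`-power order are fixed by `p`-elements, `l < p`
-/

namespace Pool.Agent.CCS

open scoped commutatorElement

namespace Tor

theorem cop (l p a : ℕ) (hl : l.Prime) (hp : p.Prime) (hlp : l < p) :
    Nat.Coprime p (Nat.totient (l ^ a)) := by
  rw [Nat.Prime.coprime_iff_not_dvd hp]
  intro h
  rcases Nat.eq_zero_or_pos a with h0 | h0
  · subst h0
    simp only [pow_zero, Nat.totient_one] at h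
    exact hp.one_lt.ne' (Nat.dvd_one.1 h)
  · rw [Nat.totient_prime_pow hl h0] at h
    rcases hp.dvd_mul.1 h with h1 | h1
    · exact hlp.ne' ((Nat.prime_dvd_prime_iff_eq hp hl).1 (hp.dvd_of_dvd_pow h1))
    · have := Nat.le_of_dvd (Nat.sub_pos_of_lt hl.one_lt) h1
      omega

theorem zm (l p k a i : ℕ) (hl : l.Prime) (hp : p.Prime) (hlp : l < p)
    (h : i ^ (p ^ k) ≡ 1 [MOD l ^ a]) : i ≡ 1 [MOD l ^ a] := by
  have : NeZero (l ^ a) := ⟨pow_ne_zero _ hl.ne_zero⟩
  have h1 : (i : ZMod (l ^ a)) ^ (p ^ k) = 1 := by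
    have := (ZMod.natCast_eq_natCast_iff _ _ _).2 h
    push_cast at this
    exact this
  have h2 : Units.ofPowEqOne (i : ZMod (l ^ a)) (p ^ k) h1 (pow_ne_zero _ hp.ne_zero) = 1 := by
    rw [← orderOf_eq_one_iff]
    refine Nat.eq_one_of_dvd_coprimes (a := p ^ k) (b := Nat.totient (l ^ a))
      (Nat.Coprime.pow_left k (cop l p a hl hp hlp)) ?_ ?_
    · exact orderOf_dvd_of_pow_eq_one (Units.pow_ofPowEqOne _ _)
    · rw [← ZMod.card_units_eq_totient]
      exact orderOf_dvd_card
  rw [← ZMod.natCast_eq_natCast_iff]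
  have h3 := congrArg Units.val h2
  rw [Units.val_ofPowEqOne] at h3
  rw [h3]
  simp

theorem dom {E : Type} [CommRing E] [IsDomain E] (σ : E →+* E) (w : E) (l p k j : ℕ)
    (hl : l.Prime) (hp : p.Prime) (hlp : l < p) (hw : w ^ (l ^ j) = 1)
    (hs : σ^[p ^ k] w = w) : σ w = w := by
  obtain ⟨a, -, ha⟩ := (Nat.dvd_prime_pow hl).1 (orderOf_dvd_of_pow_eq_one hw)
  have hprim : IsPrimitiveRoot w (l ^ a) := by rw [← ha]; exact IsPrimitiveRoot.orderOf w
  have : NeZero (l ^ a) := ⟨pow_ne_zero _ hl.ne_zero⟩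
  have h1 : (σ w) ^ (l ^ a) = 1 := by rw [← map_pow, hprim.pow_eq_one, map_one]
  obtain ⟨i, -, hi⟩ := hprim.eq_pow_of_pow_eq_one h1
  have hit : ∀ n : ℕ, σ^[n] w = w ^ (i ^ n) := by
    intro n
    induction n with
    | zero => simp
    | succ n ih =>
      rw [Function.iterate_succ_apply', ih, map_pow, ← hi, ← pow_mul, pow_succ, mul_comm]
  obtain ⟨u, hu⟩ : IsUnit w := IsUnit.of_pow_eq_one hw (pow_ne_zero _ hl.ne_zero)
  have hou : orderOf u = l ^ a := by rw [← orderOf_units, hu, ha]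
  have h2 : u ^ (i ^ (p ^ k)) = u ^ 1 := by
    apply Units.ext
    rw [Units.val_pow_eq_pow_val, hu, ← hit, hs, pow_one, hu]
  rw [pow_eq_pow_iff_modEq, hou] at h2
  have h3 := zm l p k a i hl hp hlp h2
  rw [← hou, ← pow_eq_pow_iff_modEq] at h3
  have h4 := congrArg Units.val h3
  rw [Units.val_pow_eq_pow_val, hu, pow_one, hu] at h4
  rw [← hi, h4]

/-- the annihilator of `f` -/
def ann {R : Type} [CommRing R] (f : R) : Ideal R where
  carrier := {r | f * r = 0}
  zero_mem' := mul_zero f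
  add_mem' := fun {a b} ha hb => by
    change f * (a + b) = 0
    change f * a = 0 at ha
    change f * b = 0 at hb
    rw [mul_add, ha, hb, add_zero]
  smul_mem' := fun c {x} hx => by
    change f * (c * x) = 0
    change f * x = 0 at hx
    rw [mul_left_comm, hx, mul_zero]

theorem mem_ann {R : Type} [CommRing R] {f r : R} : r ∈ ann f ↔ f * r = 0 := Iff.rfl

theorem prime {R : Type} [CommRing R] {f : R} (hf : Prm f) : (ann f).IsPrime := by
  refine ⟨fun h => ?_, fun {a b} hab => ?_⟩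
  · have h1 : (1 : R) ∈ ann f := by rw [h]; exact Submodule.mem_top
    rw [mem_ann, mul_one] at h1
    exact hf.2.1 h1
  · rw [mem_ann] at hab
    rcases hf.2.2 a with h | ⟨s, hs⟩
    · exact Or.inl h
    · refine Or.inr ?_
      rw [mem_ann, ← hs]
      have h2 : f * a * s * b = f * (a * b) * s := by ring
      rw [h2, hab, zero_mul]

end Tor

theorem thm_Tor (h0 : St_Prx) : St_Tor := by
  intro Γ R _ _ _ _ _ y l p k j hl hp hlp hy hfix w hw
  obtain ⟨Ω, hΩ, -, hsum⟩ := h0 R
  have key : ∀ f ∈ Ω, f * (y • w - w) = 0 := by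
    intro f hf
    have hP : Prm f := (hΩ f).1 hf
    have hpr := Tor.prime hP
    have hle : Tor.ann f ≤ (Tor.ann f).comap (MulSemiringAction.toRingHom Γ R y) := by
      intro r hr
      rw [Tor.mem_ann] at hr
      rw [Ideal.mem_comap, Tor.mem_ann]
      change f * (y • r) = 0
      rw [← hfix f hP, ← smul_mul', hr, smul_zero]
    let σ : R ⧸ Tor.ann f →+* R ⧸ Tor.ann f :=
      Ideal.quotientMap (Tor.ann f) (MulSemiringAction.toRingHom Γ R y) hle
    have hσ : ∀ r : R, σ (Ideal.Quotient.mk _ r) = Ideal.Quotient.mk _ (y • r) := fun r =>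
      Ideal.quotientMap_mk
    have hit : ∀ n : ℕ, σ^[n] (Ideal.Quotient.mk _ w) = Ideal.Quotient.mk _ (y ^ n • w) := by
      intro n
      induction n with
      | zero => simp
      | succ n ih =>
        rw [Function.iterate_succ_apply', ih, hσ, smul_smul, ← pow_succ']
    have h1 := Tor.dom σ (Ideal.Quotient.mk _ w) l p k j hl hp hlp
      (by rw [← map_pow, hw, map_one]) (by rw [hit, hy, one_smul])
    rw [hσ, Ideal.Quotient.eq, Tor.mem_ann] at h1
    exact h1
  have h2 : y • w - w = 0 := by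
    rw [← one_mul (y • w - w), ← hsum, Finset.sum_mul]
    exact Finset.sum_eq_zero key
  exact sub_eq_zero.1 h2

end Pool.Agent.CCS
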