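import Mathlib
import Pool.Agent.CCS.Stmts
import Pool.Agent.CCS.Bas

set_option autoImplicit false

namespace Pool.Agent.CCS

open scoped commutatorElement

/-- [Tr] the group is transitive on the primitive idempotents. -/
theorem thm_Tr (h0 : St_Prx) : St_Tr := by
  classical
  have _ := h0
  intro Γ R V _ _ _ _ _ _ _ _ _ M lam hR hS e e' he he'
  have _ : Fintype Γ := Fintype.ofFinite Γ
  by_contra hno
  push Not at hno
  let O : Finset R := Finset.univ.image (fun g : Γ => g • e)
  have hO : ∀ x : R, x ∈ O ↔ ∃ g : Γ, g • e = x := by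
    intro x
    simp [O]
  have hOp : ∀ x ∈ O, Prm x := by
    intro x hx
    obtain ⟨g, rfl⟩ := (hO x).1 hx
    exact Bas.prm_smul g he
  let f : R := ∑ x ∈ O, x
  have hfx : ∀ x ∈ O, f * x = x := by
    intro x hx
    show (∑ z ∈ O, z) * x = x
    rw [Finset.sum_mul, Finset.sum_eq_single x]
    · exact (hOp x hx).1
    · intro b hb hbx
      exact Bas.prm_orth (hOp b hb) (hOp x hx) hbx
    · intro h
      exact absurd hx h
  have hgf : ∀ g : Γ, g • f = f := by
    intro g
    show g • (∑ x ∈ O, x) = ∑ x ∈ O, x
    rw [Finset.smul_sum]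
    refine Finset.sum_bij (fun x _ => g • x) ?_ ?_ ?_ ?_
    · intro x hx
      obtain ⟨k, rfl⟩ := (hO x).1 hx
      exact (hO _).2 ⟨g * k, mul_smul _ _ _⟩
    · intro x _ y _ hxy
      exact smul_left_cancel g hxy
    · intro x hx
      obtain ⟨k, rfl⟩ := (hO x).1 hx
      refine ⟨(g⁻¹ * k) • e, (hO _).2 ⟨_, rfl⟩, ?_⟩
      show g • (g⁻¹ * k) • e = k • e
      rw [smul_smul, mul_inv_cancel_left]
    · intro x _
      rfl
  let U : AddSubgroup V :=
    { carrier := {v | f • v = v}
      zero_mem' := by
        show f • (0 : V) = 0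
        exact smul_zero f
      add_mem' := by
        intro a b ha hb
        show f • (a + b) = a + b
        have ha' : f • a = a := ha
        have hb' : f • b = b := hb
        rw [smul_add, ha', hb']
      neg_mem' := by
        intro a ha
        show f • (-a) = -a
        have ha' : f • a = a := ha
        rw [smul_neg, ha'] }
  have hU : Inv Γ U := by
    intro g u hu
    show f • (g • u) = g • u
    have hu' : f • u = u := hu
    calc f • (g • u) = (g • f) • (g • u) := by rw [hgf g]
      _ = g • (f • u) := (hR.comp g f u).symm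
      _ = g • u := by rw [hu']
  have heO : e ∈ O := (hO e).2 ⟨1, one_smul _ _⟩
  have hUtop : U = ⊤ := by
    rcases hS.2 U hU with h | h
    · exfalso
      apply he.2.1
      apply hR.faith
      intro v
      have h1 : e • v ∈ U := by
        show f • (e • v) = e • v
        rw [smul_smul, hfx e heO]
      rw [h] at h1
      exact h1
    · exact h
  have hf1 : f - 1 = 0 := by
    apply hR.faith
    intro v
    have h1 : v ∈ U := by rw [hUtop]; trivial
    have h2 : f • v = v := h1
    rw [sub_smul, h2, one_smul, sub_self]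
  apply he'.2.1
  have h3 : f * e' = 0 := by
    show (∑ z ∈ O, z) * e' = 0
    rw [Finset.sum_mul]
    apply Finset.sum_eq_zero
    intro x hx
    apply Bas.prm_orth (hOp x hx) he'
    intro hxe
    obtain ⟨g, hg⟩ := (hO x).1 hx
    exact hno g (hg.trans hxe)
  rw [← one_mul e', ← sub_eq_zero.1 hf1]
  exact h3

end Pool.Agent.CCS
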