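import Mathlib
import Pool.Agent.CCS.Stmts

/-!
# CCS [VLG]: the vector lemma, transferred to `G` and `G / F`
-/

set_option autoImplicit false

namespace Pool.Agent.CCS

open scoped commutatorElement

namespace VLG

/-- the `p`-elements of the image of `A` -/
theorem pel_iff {G : Type} [Group G] {K A F : Subgroup G} [F.Normal] (hinf : K ⊓ A = ⊥)
    (hFK : F ≤ K) (p : ℕ) (y : G ⧸ F) :
    PEl (A.map (QuotientGroup.mk' F)) p y ↔ ∃ a, PEl A p a ∧ QuotientGroup.mk' F a = y := by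
  constructor
  · rintro ⟨⟨a, ha, rfl⟩, k, hk⟩
    refine ⟨a, ⟨ha, k, ?_⟩, rfl⟩
    rw [← map_pow] at hk
    have h1 : a ^ p ^ k ∈ F := (QuotientGroup.eq_one_iff _).mp hk
    have h2 : a ^ p ^ k ∈ K ⊓ A := ⟨hFK h1, A.pow_mem ha _⟩
    rw [hinf] at h2
    exact Subgroup.mem_bot.mp h2
  · rintro ⟨a, ⟨ha, k, hk⟩, rfl⟩
    refine ⟨⟨a, ha, rfl⟩, k, ?_⟩
    rw [← map_pow, hk, map_one]

end VLG

open VLG in
/-- [VLG] -/
theorem thm_VLG (h0 : St_VL) (h1 : St_CntG) (h2 : St_Conj) : St_VLG := by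
  classical
  intro G W _ _ K A F H _ _ _ _ hKA hFN hH hKH hcom hS
  haveI := hKA.norm
  have hNK : NN K A ≤ K := inf_le_left
  have hFK : F ≤ K := hFN.trans hNK
  have hsurj : Function.Surjective (QuotientGroup.mk' F) := QuotientGroup.mk'_surjective F
  have hNn : (NN K A).Normal := by
    unfold NN
    exact Subgroup.normal_inf_normal K (Subgroup.normalClosure (A : Set G))
  let S : Finset ℕ := (Nat.card G).primeFactors.filter fun p => Bur G p ∧ ¬ p ∣ Nat.card H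
  have hSp : ∀ p ∈ S, p.Prime ∧ Bur G p ∧ ¬ p ∣ Nat.card H := fun p hp => by
    have h3 := Finset.mem_filter.mp hp
    exact ⟨Nat.prime_of_mem_primeFactors h3.1, h3.2⟩
  obtain ⟨v, hv, hv2⟩ := h0 (G ⧸ F) W ((NN K A).map (QuotientGroup.mk' F))
    (H.map (QuotientGroup.mk' F)) (A.map (QuotientGroup.mk' F)) S
    (hNn.map _ hsurj) (hH.map _ hsurj) (Subgroup.map_mono (hNK.trans hKH))
    (by
      rintro _ ⟨a, ha, rfl⟩ _ ⟨b, hb, rfl⟩
      have h3 := (QuotientGroup.eq_one_iff _).mpr (hcom a ha b hb)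
      have h4 : QuotientGroup.mk' F ⁅a, b⁆ = 1 := h3
      rw [map_commutatorElement] at h4
      exact commutatorElement_eq_one_iff_mul_comm.mp h4)
    (by
      rintro _ ⟨a, ha, rfl⟩ _ ⟨b, hb, rfl⟩
      rw [← map_mul, ← map_mul, hKA.comm a ha b hb])
    (fun p hp => ⟨(hSp p hp).1, fun h3 =>
      (hSp p hp).2.2 (h3.trans (Subgroup.card_map_dvd H (QuotientGroup.mk' F)))⟩)
    (fun p hp => by
      intro g
      obtain ⟨g₀, rfl⟩ := hsurj g
      obtain ⟨m, hm, hmy⟩ := h2 G K A hKA p (hSp p hp).1 (hSp p hp).2.1 g₀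
      refine ⟨QuotientGroup.mk' F m, ⟨m, hm, rfl⟩, fun y hy => ?_⟩
      obtain ⟨a, ha, rfl⟩ := (pel_iff hKA.inf hFK p y).mp hy
      rw [← map_inv, ← map_inv, ← map_mul, ← map_mul, ← map_mul, ← map_mul, hmy a ha])
    hS
  refine ⟨v, hv, fun p hp hB hpH hex => ?_⟩
  obtain ⟨y, hy, w, hw⟩ := hex
  have hpG : p ∣ Nat.card G := by
    by_contra h3
    apply hw
    obtain ⟨k, hk⟩ := hy.2
    have h4 : orderOf y ∣ p ^ k := orderOf_dvd_of_pow_eq_one hk
    have h5 : orderOf y ∣ Nat.card G := orderOf_dvd_natCard y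
    have h6 : (p ^ k).Coprime (Nat.card G) := (hp.coprime_iff_not_dvd.mpr h3).pow_left k
    have h7 : orderOf y = 1 := Nat.eq_one_of_dvd_coprimes h6 h4 h5
    rw [orderOf_eq_one_iff] at h7
    rw [h7]
    exact one_smul (G ⧸ F) w
  have hpS : p ∈ S := Finset.mem_filter.mpr
    ⟨Nat.mem_primeFactors.mpr ⟨hp, hpG, Nat.card_pos.ne'⟩, hB, hpH⟩
  rcases hv2 p hpS ⟨QuotientGroup.mk' F y, (pel_iff hKA.inf hFK p _).mpr ⟨y, hy, rfl⟩, w, hw⟩
    with h3 | h3
  · left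
    intro g
    obtain ⟨y', hy', h4⟩ := h3 (QuotientGroup.mk' F g)
    obtain ⟨a, ha, rfl⟩ := (pel_iff hKA.inf hFK p y').mp hy'
    refine ⟨a, ha, ?_⟩
    rw [← map_inv, ← map_mul, ← map_mul] at h4
    exact h4
  · right
    exact h1 G K A F H hKA hFN hH hKH hcom p hp hB h3

end Pool.Agent.CCS
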