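import Mathlib
import Pool.Agent.CCS.Stmts
import Pool.Agent.CCS.Bas

set_option autoImplicit false

/-!
# CCS: the vector lemma, assembly
-/

namespace Pool.Agent.CCS

open scoped commutatorElement

namespace VLx

/-- elements of `A` of order composed of primes in `S` -/
def SubA {Γ : Type} [Group Γ] (A : Subgroup Γ) (hA : ∀ a ∈ A, ∀ b ∈ A, a * b = b * a)
    (S : Set ℕ) : Subgroup Γ where
  carrier := {a | a ∈ A ∧ ∀ q : ℕ, q.Prime → q ∣ orderOf a → q ∈ S}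
  one_mem' := ⟨A.one_mem, fun q hq h => by
    rw [orderOf_one] at h
    exact absurd (Nat.dvd_one.1 h) hq.one_lt.ne'⟩
  mul_mem' := by
    rintro a b ⟨ha, ha'⟩ ⟨hb, hb'⟩
    refine ⟨A.mul_mem ha hb, fun q hq h => ?_⟩
    have hc : Commute a b := hA a ha b hb
    have h1 : q ∣ orderOf a * orderOf b :=
      h.trans (hc.orderOf_mul_dvd_lcm.trans (Nat.lcm_dvd_mul _ _))
    rcases (Nat.Prime.dvd_mul hq).1 h1 with h2 | h2
    · exact ha' q hq h2
    · exact hb' q hq h2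
  inv_mem' := by
    rintro a ⟨ha, ha'⟩
    refine ⟨A.inv_mem ha, fun q hq h => ha' q hq ?_⟩
    rwa [orderOf_inv] at h

/-- elements acting trivially on `V` -/
def Triv (Γ V : Type) [Group Γ] [AddCommGroup V] [DistribMulAction Γ V] : Subgroup Γ where
  carrier := {g | ∀ v : V, g • v = v}
  one_mem' := fun v => one_smul Γ v
  mul_mem' := by
    intro a b ha hb v
    rw [mul_smul, hb, ha]
  inv_mem' := by
    intro a ha v
    rw [inv_smul_eq_iff, ha]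

end VLx

/-- **[VLx]** the vector lemma. -/
theorem thm_VLx (h0 : St_RDx) (h1 : St_Prx) (h2 : St_Tr) (h3 : St_Mov) (h4 : St_Sc) (h5 : St_Eta)
    (h6 : St_Tor) (h7 : St_Cov) (h8 : St_Rp) (h9 : St_Pow) : St_VL := by
  intro Γ V _ _ _ _ _ M H A S hM hH hMH hMab hAab hS hCj hSimp
  obtain ⟨R, iR, iF, iRed, iMod, iAct, lam, hRD⟩ := h0 Γ V M hM hMab hSimp
  obtain ⟨Ω, hΩ, hΩorth, hΩsum⟩ := h1 R
  classical
  obtain ⟨v₀, hv₀⟩ := hSimp.1
  obtain ⟨e₀, he₀Ω⟩ : ∃ e₀, e₀ ∈ Ω := by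
    by_contra hcon
    push Not at hcon
    have hemp : Ω = ∅ := Finset.eq_empty_of_forall_notMem hcon
    rw [hemp, Finset.sum_empty] at hΩsum
    apply hv₀
    calc v₀ = (1 : R) • v₀ := (one_smul R v₀).symm
      _ = 0 := by rw [← hΩsum, zero_smul]
  have he₀ : Prm e₀ := (hΩ e₀).1 he₀Ω
  -- the orbit of `e₀` under `H`
  obtain ⟨O, hO⟩ : ∃ O : Finset R, ∀ f, f ∈ O ↔ Prm f ∧ ∃ h ∈ H, h • e₀ = f := by
    refine ⟨Ω.filter (fun f => ∃ h ∈ H, h • e₀ = f), fun f => ?_⟩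
    rw [Finset.mem_filter, hΩ]
  have he₀O : e₀ ∈ O := (hO e₀).2 ⟨he₀, 1, H.one_mem, one_smul Γ e₀⟩
  have hfeO : ∀ f ∈ O, f * ∑ f' ∈ O, f' = f := by
    intro f hf
    rw [Finset.mul_sum, Finset.sum_eq_single f]
    · exact ((hO f).1 hf).1.1
    · intro f' hf' hne
      exact Bas.prm_orth ((hO f).1 hf).1 ((hO f').1 hf').1 hne.symm
    · intro h
      exact absurd hf h
  obtain ⟨eO, heO⟩ : ∃ eO : R, eO = ∑ f ∈ O, f := ⟨_, rfl⟩
  rw [← heO] at hfeO
  have heOeO : eO * eO = eO := by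
    calc eO * eO = (∑ f ∈ O, f) * eO := by rw [← heO]
      _ = ∑ f ∈ O, f * eO := Finset.sum_mul _ _ _
      _ = ∑ f ∈ O, f := Finset.sum_congr rfl hfeO
      _ = eO := heO.symm
  have hHeO : ∀ z ∈ H, z • eO = eO := by
    intro z hz
    have hmaps : ∀ z ∈ H, ∀ f ∈ O, z • f ∈ O := by
      intro z hz f hf
      obtain ⟨hf1, h, hh, hhe⟩ := (hO f).1 hf
      exact (hO _).2 ⟨Bas.prm_smul z hf1, z * h, H.mul_mem hz hh, by rw [mul_smul, hhe]⟩
    rw [heO, Finset.smul_sum]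
    refine Finset.sum_nbij' (fun f => z • f) (fun f => z⁻¹ • f) (hmaps z hz)
      (hmaps z⁻¹ (H.inv_mem hz)) ?_ ?_ ?_
    · intro f _; exact inv_smul_smul z f
    · intro f _; exact smul_inv_smul z f
    · intro f _; rfl
  -- the set `S'`
  obtain ⟨S', hS'⟩ : ∃ S' : Finset ℕ, ∀ p, p ∈ S' ↔ p ∈ S ∧ (∃ y : Γ, PEl A p y ∧ ∃ w : V, y • w ≠ w) ∧
      (∀ y : Γ, PEl A p y → y • e₀ = e₀) ∧
      (∀ y : Γ, PEl A p y → (∀ r : R, y • r = r) → ∀ v : V, y • v = v) := by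
    refine ⟨S.filter (fun p => (∃ y : Γ, PEl A p y ∧ ∃ w : V, y • w ≠ w) ∧
      (∀ y : Γ, PEl A p y → y • e₀ = e₀) ∧
      (∀ y : Γ, PEl A p y → (∀ r : R, y • r = r) → ∀ v : V, y • v = v)), fun p => ?_⟩
    rw [Finset.mem_filter]
  have hfix : ∀ p ∈ S', ∀ y : Γ, PEl A p y → ∀ f : R, Prm f → y • f = f := by
    intro p hp y hy f hf
    obtain ⟨hpS, _, hpe, _⟩ := (hS' p).1 hp
    obtain ⟨g, hg⟩ := h2 Γ R V M lam hRD hSimp e₀ f he₀ hf
    rw [← hg, Bas.comm_smul hRD (hCj p hpS) (show y ∈ {y : Γ | PEl A p y} from hy), hpe y hy]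
  have hfield : ∀ p ∈ S', ∀ y : Γ, PEl A p y → ∀ f : R, Prm f → (∀ r : R, y • (f * r) = f * r) →
      ∀ v : V, y • v = v := by
    intro p hp y hy f hf hr
    obtain ⟨hpS, _, _, hpt⟩ := (hS' p).1 hp
    apply hpt y hy
    intro r
    have hpart : ∀ f' ∈ Ω, y • (f' * r) = f' * r := by
      intro f' hf'
      obtain ⟨g, hg⟩ := h2 Γ R V M lam hRD hSimp f f' hf ((hΩ f').1 hf')
      have e1 : f' * r = g • (f * (g⁻¹ • r)) := by
        rw [smul_mul', smul_inv_smul, hg]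
      rw [e1, Bas.comm_smul hRD (hCj p hpS) (show y ∈ {y : Γ | PEl A p y} from hy), hr]
    have e2 : r = ∑ f' ∈ Ω, f' * r := by
      rw [← Finset.sum_mul, hΩsum, one_mul]
    calc y • r = y • ∑ f' ∈ Ω, f' * r := by rw [← e2]
      _ = ∑ f' ∈ Ω, y • (f' * r) := Finset.smul_sum
      _ = ∑ f' ∈ Ω, f' * r := Finset.sum_congr rfl hpart
      _ = r := e2.symm
  have hnt : ∀ p ∈ S', ∃ y : Γ, PEl A p y ∧ ∃ r : R, y • (e₀ * r) ≠ e₀ * r := by
    intro p hp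
    obtain ⟨hpS, ⟨y, hy, w, hw⟩, _, _⟩ := (hS' p).1 hp
    refine ⟨y, hy, ?_⟩
    by_contra hcon
    push Not at hcon
    exact hw (hfield p hp y hy e₀ he₀ hcon w)
  -- the group `A'`
  obtain ⟨A', hA'⟩ : ∃ A' : Subgroup Γ, ∀ a, a ∈ A' ↔ a ∈ A ∧ ∀ q : ℕ, q.Prime → q ∣ orderOf a → q ∈ S' :=
    ⟨VLx.SubA A hAab (S' : Set ℕ), fun a => Iff.rfl⟩
  have hA'fix : ∀ f : R, Prm f → ∀ a ∈ A', a • f = f := by
    intro f hf a ha
    obtain ⟨haA, haq⟩ := (hA' a).1 ha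
    have := h9 Γ a (MulAction.stabilizer Γ f) (by
      intro q i hq hqa hk
      rw [MulAction.mem_stabilizer_iff]
      exact hfix q (haq q hq hqa) (a ^ i) ⟨A.pow_mem haA i, hk⟩ f hf)
    exact MulAction.mem_stabilizer_iff.1 this
  have hA'triv : ∀ f : R, Prm f → ∀ a ∈ A', (∀ r : R, a • (f * r) = f * r) → ∀ v : V, a • v = v := by
    intro f hf a ha hr
    obtain ⟨haA, haq⟩ := (hA' a).1 ha
    have := h9 Γ a (VLx.Triv Γ V) (by
      intro q i hq hqa hk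
      change ∀ v : V, a ^ i • v = v
      refine hfield q (haq q hq hqa) (a ^ i) ⟨A.pow_mem haA i, hk⟩ f hf ?_
      intro r
      clear hk
      induction i with
      | zero => rw [pow_zero, one_smul]
      | succ i ih => rw [pow_succ, mul_smul, hr, ih])
    exact this
  have hηex : ∀ f : R, ∃ η : V, f ∈ O → (f • η = η ∧ η ≠ 0 ∧ ∀ a ∈ A', a • η = η) := by
    intro f
    by_cases hf : f ∈ O
    · have hf1 := ((hO f).1 hf).1
      obtain ⟨η, hη⟩ := h5 Γ R V A' hRD.comp f hf1 (hA'fix f hf1) (hA'triv f hf1) (by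
        by_contra hcon
        push Not at hcon
        exact hf1.2.1 (hRD.faith f hcon))
      exact ⟨η, fun _ => hη⟩
    · exact ⟨0, fun h => absurd h hf⟩
  choose ηf hηf using hηex
  obtain ⟨η, hη⟩ : ∃ η : V, η = ∑ f ∈ O, ηf f := ⟨_, rfl⟩
  have horthη : ∀ f : R, Prm f → ∀ f' ∈ O, f ≠ f' → f • ηf f' = 0 := by
    intro f hf f' hf' hne
    rw [← (hηf f' hf').1, smul_smul, Bas.prm_orth hf ((hO f').1 hf').1 hne, zero_smul]
  have hfη : ∀ f ∈ O, f • η = ηf f := by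
    intro f hf
    rw [hη, Finset.smul_sum, Finset.sum_eq_single f]
    · exact (hηf f hf).1
    · intro f' hf' hne
      exact horthη f ((hO f).1 hf).1 f' hf' hne.symm
    · intro h
      exact absurd hf h
  have hfη0 : ∀ f : R, Prm f → f ∉ O → f • η = 0 := by
    intro f hf hfO
    rw [hη, Finset.smul_sum]
    apply Finset.sum_eq_zero
    intro f' hf'
    apply horthη f hf f' hf'
    intro h
    exact hfO (h ▸ hf')
  have hA'η : ∀ a ∈ A', a • η = η := by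
    intro a ha
    rw [hη, Finset.smul_sum]
    exact Finset.sum_congr rfl fun f hf => (hηf f hf).2.2 a ha
  have hfaithη : ∀ r : R, r • η = 0 → r * eO = 0 := by
    intro r hr
    rw [heO, Finset.mul_sum]
    apply Finset.sum_eq_zero
    intro f hf
    rw [mul_comm]
    by_contra hne
    obtain ⟨s, hs⟩ := Bas.prm_inv ((hO f).1 hf).1 hne
    apply (hηf f hf).2.1
    calc ηf f = f • η := (hfη f hf).symm
      _ = (f * r * s) • η := by rw [hs]
      _ = (f * s) • r • η := by rw [smul_smul]; congr 1; ring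
      _ = 0 := by rw [hr, smul_zero]
  -- the `p`-elements are in `A'`
  have hPA' : ∀ p ∈ S', ∀ y : Γ, PEl A p y → y ∈ A' := by
    intro p hp y hy
    obtain ⟨hpS, _⟩ := (hS' p).1 hp
    refine (hA' y).2 ⟨hy.1, fun q hq hqy => ?_⟩
    obtain ⟨k, hk⟩ := hy.2
    have h10 : q ∣ p ^ k := hqy.trans (orderOf_dvd_of_pow_eq_one hk)
    have h11 : q = p := (Nat.prime_dvd_prime_iff_eq hq (hS p hpS).1).1 (hq.dvd_of_dvd_pow h10)
    rwa [h11]
  -- the subgroups `Rp`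
  have hRpex : ∀ p : ℕ, ∃ Rp : Subgroup Rˣ, p ∈ S' →
      (∀ u : Rˣ, u ∉ Rp → ∀ g : Γ, ∃ y ∈ {y : Γ | PEl A p y}, (g⁻¹ * y * g) • ((u : R) • η) ≠ (u : R) • η) ∧
      (∀ w : Rˣ, (∀ y ∈ {y : Γ | PEl A p y}, y • (w : R) = (w : R)) → w ∈ Rp) ∧
      (Rp = ⊤ → Star M H {y : Γ | PEl A p y}) := by
    intro p
    by_cases hp : p ∈ S'
    · obtain ⟨hpS, _, hpe, _⟩ := (hS' p).1 hp
      obtain ⟨y₁, hy₁, r₁, hr₁⟩ := hnt p hp
      obtain ⟨Rp, hRp⟩ := h8 Γ R V M H lam hRD hM hH hMH hMab p (hS p hpS).1 (hS p hpS).2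
        {y : Γ | PEl A p y} (hCj p hpS) (fun y hy => hy.2) e₀ eO he₀ (fun y hy => hpe y hy)
        ⟨y₁, hy₁, r₁, hr₁⟩ heOeO (hfeO e₀ he₀O) hHeO
        (by
          intro y hy
          rw [heO, Finset.smul_sum]
          exact Finset.sum_congr rfl fun f hf => hfix p hp y hy f ((hO f).1 hf).1)
        η (fun y hy => hA'η y (hPA' p hp y hy)) hfaithη
      exact ⟨Rp, fun _ => hRp⟩
    · exact ⟨⊤, fun h => absurd h hp⟩
  choose Rp hRp using hRpex
  -- covering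
  have hιfin : Finite {p : ℕ // p ∈ S' ∧ Rp p ≠ ⊤} :=
    Set.Finite.to_subtype ((S'.finite_toSet).subset fun p hp => hp.1)
  obtain ⟨u, hu⟩ := h7 Rˣ {p : ℕ // p ∈ S' ∧ Rp p ≠ ⊤} (fun i => Rp i.1) (fun i => i.1)
    Subtype.val_injective (fun i => (hS i.1 ((hS' i.1).1 i.2.1).1).1) (fun i => i.2.2)
    (by
      rintro ⟨p, hp, hpt⟩ l j hl hlp w hw
      apply (hRp p hp).2.1 w
      intro y hy
      obtain ⟨k, hk⟩ := hy.2
      refine h6 Γ R y l p k j hl (hS p ((hS' p).1 hp).1).1 hlp hk (hfix p hp y hy) (w : R) ?_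
      rw [← Units.val_pow_eq_pow_val, hw, Units.val_one])
  have huinj : ∀ x : V, (u : R) • x = 0 → x = 0 := by
    intro x hx
    calc x = ((u⁻¹ : Rˣ) : R) • (u : R) • x := by
          rw [smul_smul, Units.inv_mul, one_smul]
      _ = 0 := by rw [hx, smul_zero]
  have hev : e₀ • (u : R) • η ≠ 0 := by
    intro h
    rw [smul_comm, hfη e₀ he₀O] at h
    exact (hηf e₀ he₀O).2.1 (huinj _ h)
  refine ⟨(u : R) • η, ?_, ?_⟩
  · intro h
    apply hev
    rw [h, smul_zero]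
  · intro p hpS hpnt
    by_cases c1 : ∃ y : Γ, PEl A p y ∧ y • e₀ ≠ e₀
    · left
      obtain ⟨y, hy, hye⟩ := c1
      obtain ⟨k, hk⟩ := hy.2
      intro g
      refine ⟨y, hy, ?_⟩
      refine h3 Γ R V M H lam hRD hH p k (hS p hpS).1 (hS p hpS).2 {y : Γ | PEl A p y} (hCj p hpS) y hy
        hk e₀ he₀ hye ((u : R) • η) hev ?_ g
      intro f hf hfH
      rw [smul_comm, hfη0 f hf ?_, smul_zero]
      intro hfO
      obtain ⟨_, h, hh, hhe⟩ := (hO f).1 hfO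
      exact hfH h hh hhe
    · by_cases c2 : ∃ y : Γ, PEl A p y ∧ (∀ r : R, y • r = r) ∧ ∃ w : V, y • w ≠ w
      · left
        obtain ⟨y, hy, hyR, hyV⟩ := c2
        intro g
        refine ⟨y, hy, ?_⟩
        exact h4 Γ R V M lam hRD hSimp {y : Γ | PEl A p y} (hCj p hpS) y hy hyR hyV ((u : R) • η)
          (fun h => hev (by rw [h, smul_zero])) g
      · push Not at c1 c2
        have hpS' : p ∈ S' := (hS' p).2 ⟨hpS, hpnt, c1, c2⟩
        by_cases c3 : Rp p = ⊤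
        · right
          exact (hRp p hpS').2.2 c3
        · left
          intro g
          obtain ⟨y, hy, hyu⟩ := (hRp p hpS').1 u (hu ⟨p, hpS', c3⟩) g
          exact ⟨y, hy, hyu⟩

end Pool.Agent.CCS
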