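import Mathlib
import Pool.Agent.CCS.Stmts

/-!
# CCS: the module `F / Z` (helper81)
-/

set_option autoImplicit false

namespace Pool.Agent.CCS

open scoped commutatorElement

theorem thm_Vm : St_Vm := by
  intro G _ _ F Z hF hZ hZF hc
  let K : Subgroup (G ⧸ Z) := F.map (QuotientGroup.mk' Z)
  haveI hK : K.Normal := hF.map _ (QuotientGroup.mk'_surjective Z)
  have hmem : ∀ x ∈ F, (QuotientGroup.mk' Z) x ∈ K := fun x hx => Subgroup.mem_map_of_mem _ hx
  have hmk : ∀ a ∈ F, ∀ b ∈ F, (QuotientGroup.mk' Z) a * (QuotientGroup.mk' Z) b =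
      (QuotientGroup.mk' Z) b * (QuotientGroup.mk' Z) a := by
    intro a ha b hb
    have h1 : (QuotientGroup.mk' Z) ⁅a, b⁆ = 1 := (QuotientGroup.eq_one_iff _).2 (hc a ha b hb)
    rw [map_commutatorElement, commutatorElement_eq_one_iff_mul_comm] at h1
    exact h1
  letI hcg : CommGroup K :=
    { (inferInstance : Group K) with
      mul_comm := by
        rintro ⟨x, hx⟩ ⟨y, hy⟩
        obtain ⟨a, ha, rfl⟩ := hx
        obtain ⟨b, hb, rfl⟩ := hy
        exact Subtype.ext (hmk a ha b hb) }
  let c : G →* MulAut K := (MulAut.conjNormal : (G ⧸ Z) →* MulAut K).comp (QuotientGroup.mk' Z)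
  have hcv : ∀ (g : G) (k : K), ((c g k : K) : G ⧸ Z) =
      (QuotientGroup.mk' Z) g * k * ((QuotientGroup.mk' Z) g)⁻¹ := fun g k =>
    MulAut.conjNormal_apply _ _
  have hFc : F ≤ c.ker := by
    intro f hf
    rw [MonoidHom.mem_ker]
    apply MulEquiv.ext
    rintro ⟨x, hx⟩
    obtain ⟨a, ha, rfl⟩ := hx
    apply Subtype.ext
    rw [hcv]
    change (QuotientGroup.mk' Z) f * (QuotientGroup.mk' Z) a * ((QuotientGroup.mk' Z) f)⁻¹ =
      (QuotientGroup.mk' Z) a
    rw [hmk f hf a ha, mul_inv_cancel_right]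
  let ψ : G ⧸ F →* MulAut K := QuotientGroup.lift F c hFc
  have hψ : ∀ g : G, ψ (QuotientGroup.mk g) = c g := fun g => rfl
  letI act : DistribMulAction (G ⧸ F) (Additive K) :=
    { smul := fun g v => Additive.ofMul (ψ g v.toMul)
      one_smul := fun v => by
        change Additive.ofMul (ψ 1 v.toMul) = v
        rw [map_one]
        rfl
      mul_smul := fun g h v => by
        change Additive.ofMul (ψ (g * h) v.toMul) = Additive.ofMul (ψ g (ψ h v.toMul))
        rw [map_mul]
        rfl
      smul_zero := fun g => by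
        change Additive.ofMul (ψ g 1) = 0
        rw [map_one]
        rfl
      smul_add := fun g v w => by
        change Additive.ofMul (ψ g (v.toMul * w.toMul)) =
          Additive.ofMul (ψ g v.toMul) + Additive.ofMul (ψ g w.toMul)
        rw [map_mul]
        rfl }
  have hsm : ∀ (g : G) (k : K), (QuotientGroup.mk g : G ⧸ F) • Additive.ofMul k =
      Additive.ofMul (c g k) := fun g k => rfl
  haveI : Finite K := inferInstance
  classical
  let φ : G → Additive K := fun x =>
    if h : x ∈ F then Additive.ofMul ⟨(QuotientGroup.mk' Z) x, hmem x h⟩ else 0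
  have hφ : ∀ (x : G) (h : x ∈ F), φ x = Additive.ofMul ⟨(QuotientGroup.mk' Z) x, hmem x h⟩ :=
    fun x h => dif_pos h
  refine ⟨Additive K, inferInstance, inferInstanceAs (Finite K), act, φ, ?_, ?_, ?_, ?_⟩
  · intro x hx y hy
    rw [hφ x hx, hφ y hy, hφ (x * y) (F.mul_mem hx hy), ← ofMul_mul]
    exact congrArg Additive.ofMul (Subtype.ext (map_mul _ x y))
  · intro x hx g
    rw [hφ x hx, hφ _ (hF.conj_mem x hx g), hsm]
    refine congrArg Additive.ofMul (Subtype.ext ?_)
    rw [hcv]
    change (QuotientGroup.mk' Z) (g * x * g⁻¹) = _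
    rw [map_mul, map_mul, map_inv]
  · intro x hx
    rw [hφ x hx, ofMul_eq_zero, ← QuotientGroup.eq_one_iff]
    exact ⟨fun h => congrArg Subtype.val h, fun h => Subtype.ext h⟩
  · intro v
    obtain ⟨x, hx, hv⟩ := (Additive.toMul v).2
    refine ⟨x, hx, ?_⟩
    rw [hφ x hx]
    exact congrArg Additive.ofMul (Subtype.ext hv)

end Pool.Agent.CCS
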